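import Pool.Agent.Y506.KS.Ph

/-!
# Cheeger inequality in terms of the largest variance
-/

set_option autoImplicit false
set_option linter.unusedSectionVars false

namespace Pool.Agent.Y506.KS

open MeasureTheory Set Filter Topology
open scoped ENNReal InnerProductSpace Pointwise
open Pool.Agent.W695.KH

variable {κ : Type} [Fintype κ]

theorem unif_prob {D : Set (Eu κ)} (hvol : 0 < volume D) (hfin : volume D ≠ ⊤) :
    IsProbabilityMeasure ((volume D)⁻¹ • volume.restrict D) := by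
  refine ⟨?_⟩
  have h3 : ((volume D)⁻¹ • volume.restrict D) univ = (volume D)⁻¹ * volume.restrict D univ := rfl
  rw [h3, Measure.restrict_apply_univ, ENNReal.inv_mul_cancel hvol.ne' hfin]

theorem unif_int {D : Set (Eu κ)} (g : Eu κ → ℝ) :
    ∫ x, g x ∂((volume D)⁻¹ • volume.restrict D) = EV D g := by
  rw [integral_smul_measure, ENNReal.toReal_inv, smul_eq_mul]
  unfold EV
  rw [div_eq_inv_mul]

theorem mean_zero {D : Set (Eu κ)} (hD : MeasurableSet D) (hsym : ∀ x ∈ D, -x ∈ D) (θ : Eu κ) :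
    EV D (fun x => ⟪x, θ⟫_ℝ) = 0 := by
  have h1 : ∫ x in D, ⟪x, θ⟫_ℝ = - ∫ x in D, ⟪x, θ⟫_ℝ := by
    have e : ∀ x : Eu κ, D.indicator (fun x => ⟪x, θ⟫_ℝ) (-x) =
        - D.indicator (fun x => ⟪x, θ⟫_ℝ) x := by
      intro x
      by_cases hx : x ∈ D
      · rw [indicator_of_mem hx, indicator_of_mem (hsym x hx), inner_neg_left]
      · have hx' : -x ∉ D := fun h => hx (by simpa using hsym (-x) h)
        rw [indicator_of_notMem hx, indicator_of_notMem hx', neg_zero]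
    calc ∫ x in D, ⟪x, θ⟫_ℝ = ∫ x, D.indicator (fun x => ⟪x, θ⟫_ℝ) x :=
          (integral_indicator hD).symm
      _ = ∫ x, D.indicator (fun x => ⟪x, θ⟫_ℝ) (-x) :=
          (integral_neg_eq_self (fun x => D.indicator (fun x => ⟪x, θ⟫_ℝ) x) volume).symm
      _ = ∫ x, - D.indicator (fun x => ⟪x, θ⟫_ℝ) x := by simp only [e]
      _ = - ∫ x in D, ⟪x, θ⟫_ℝ := by rw [integral_neg, integral_indicator hD]
  unfold EV
  have h2 : ∫ x in D, ⟪x, θ⟫_ℝ = 0 := by linarith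
  rw [h2, zero_div]

theorem var_EV {D : Set (Eu κ)} (hD : IsCompact D) (hvol : 0 < volume D)
    (hsym : ∀ x ∈ D, -x ∈ D) (θ : Eu κ) :
    ProbabilityTheory.variance (fun x => ⟪x, θ⟫_ℝ) ((volume D)⁻¹ • volume.restrict D) =
      EV D (fun x => ⟪θ, x⟫_ℝ ^ 2) := by
  have hfin : volume D ≠ ⊤ := hD.measure_lt_top.ne
  have hprob := unif_prob hvol hfin
  have hc : Continuous fun x : Eu κ => ⟪x, θ⟫_ℝ := by fun_prop
  have hmean : ∫ x, ⟪x, θ⟫_ℝ ∂((volume D)⁻¹ • volume.restrict D) = 0 := by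
    rw [unif_int, mean_zero hD.measurableSet hsym]
  rw [ProbabilityTheory.variance_of_integral_eq_zero hc.measurable.aemeasurable hmean, unif_int]
  simp only [real_inner_comm]

/-- the Cheeger inequality from the Poincare inequality, in terms of the largest variance -/
theorem cheegerS {D : Set (Eu κ)} (hco : Convex ℝ D) (hcp : IsCompact D)
    (hint : (interior D).Nonempty) (hsym : ∀ x ∈ D, -x ∈ D) (k : ℝ) (hk : 0 < k) (hyp : PoK D k)
    (μ : Measure (Eu κ)) (hμ : μ = (volume D)⁻¹ • volume.restrict D) (s : ℝ) (hs : 0 < s)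
    (hcov : ∀ θ : Eu κ, ‖θ‖ = 1 → ProbabilityTheory.variance (fun x => ⟪x, θ⟫_ℝ) μ ≤ s)
    (S : Set (Eu κ)) (hS : MeasurableSet S) :
    ENNReal.ofReal (1 / (2 * Real.sqrt (80 * k)) / Real.sqrt s) * min (μ S) (μ Sᶜ) ≤
      liminf (fun ε : ℝ => (μ (Metric.thickening ε S) - μ S) / ENNReal.ofReal ε) (𝓝[>] 0) := by
  have hvol : 0 < volume D :=
    lt_of_lt_of_le (isOpen_interior.measure_pos volume hint) (measure_mono interior_subset)
  have hfin : volume D ≠ ⊤ := hcp.measure_lt_top.ne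
  have hprob : IsProbabilityMeasure μ := by rw [hμ]; exact unif_prob hvol hfin
  obtain ⟨B, hB⟩ : ∃ B : ℝ, B = Real.sqrt (80 * (k * s)) := ⟨_, rfl⟩
  have hB0 : 0 < B := by rw [hB]; positivity
  have hcov' : ∀ θ : Eu κ, EV D (fun x => ⟪θ, x⟫_ℝ ^ 2) ≤ s * ‖θ‖ ^ 2 := by
    intro θ
    by_cases h0 : θ = 0
    · rw [h0]
      have e : (fun x : Eu κ => ⟪(0 : Eu κ), x⟫_ℝ ^ 2) = fun _ => (0 : ℝ) := by
        funext x
        rw [inner_zero_left]
        norm_num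
      rw [e]
      unfold EV
      simp
    · have hn : 0 < ‖θ‖ := norm_pos_iff.2 h0
      have h1 := hcov (‖θ‖⁻¹ • θ) (by
        rw [norm_smul, norm_inv, norm_norm, inv_mul_cancel₀ hn.ne'])
      rw [hμ, var_EV hcp hvol hsym] at h1
      have e : (fun x : Eu κ => ⟪‖θ‖⁻¹ • θ, x⟫_ℝ ^ 2) =
          fun x => (‖θ‖⁻¹) ^ 2 * ⟪θ, x⟫_ℝ ^ 2 := by
        funext x
        rw [real_inner_smul_left, mul_pow]
      rw [e] at h1
      have e2 : EV D (fun x => (‖θ‖⁻¹) ^ 2 * ⟪θ, x⟫_ℝ ^ 2) =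
          (‖θ‖⁻¹) ^ 2 * EV D (fun x => ⟪θ, x⟫_ℝ ^ 2) := by
        unfold EV
        rw [integral_const_mul, mul_div_assoc]
      rw [e2] at h1
      calc EV D (fun x => ⟪θ, x⟫_ℝ ^ 2)
          = ‖θ‖ ^ 2 * ((‖θ‖⁻¹) ^ 2 * EV D (fun x => ⟪θ, x⟫_ℝ ^ 2)) := by
            field_simp
        _ ≤ ‖θ‖ ^ 2 * s := mul_le_mul_of_nonneg_left h1 (by positivity)
        _ = s * ‖θ‖ ^ 2 := by ring
  have hfun : ∀ (f : Eu κ → ℝ) (L M : ℝ), Sm f L M → (∀ x, |f x| ≤ 1 / 2) →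
      VV D f ≤ B * EV D fun x => ‖fderiv ℝ f x‖ := by
    intro f L M hf hf2
    rw [hB]
    exact l1_body D hcp hco hvol (k * s) (by positivity) (hyp s hs hcov') f L M hf hf2
  have h1 := mink κ D hcp hco hvol B hB0 hfun μ hμ S hS
  obtain ⟨Λ, hΛ⟩ : ∃ Λ : ℝ≥0∞, Λ = liminf (fun ε : ℝ =>
    (μ (Metric.thickening ε S) - μ S) / ENNReal.ofReal ε) (𝓝[>] 0) := ⟨_, rfl⟩
  rw [← hΛ] at h1 ⊢
  have hcompl : μ Sᶜ = 1 - μ S := prob_compl_eq_one_sub hS
  rw [hcompl]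
  have hμ1 : μ S ≤ 1 := prob_le_one
  have hmin : min (μ S) (1 - μ S) ≤ 2 * (μ S * (1 - μ S)) := by
    have hf1 : μ S ≠ ⊤ := ne_top_of_le_ne_top ENNReal.one_ne_top hμ1
    obtain ⟨p, hp0, hp⟩ : ∃ p : ℝ, 0 ≤ p ∧ μ S = ENNReal.ofReal p :=
      ⟨(μ S).toReal, ENNReal.toReal_nonneg, (ENNReal.ofReal_toReal hf1).symm⟩
    have hp1 : p ≤ 1 := by
      rw [hp] at hμ1
      rwa [← ENNReal.ofReal_one, ENNReal.ofReal_le_ofReal_iff (by norm_num)] at hμ1
    have h3 : (1 : ℝ≥0∞) - μ S = ENNReal.ofReal (1 - p) := by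
      rw [hp, ENNReal.ofReal_sub _ hp0, ENNReal.ofReal_one]
    rw [h3, hp, ← ENNReal.ofReal_min, ← ENNReal.ofReal_mul hp0]
    have h4 : (2 : ℝ≥0∞) = ENNReal.ofReal 2 := by norm_num
    rw [h4, ← ENNReal.ofReal_mul (by norm_num)]
    refine ENNReal.ofReal_le_ofReal ?_
    rcases le_total p (1 - p) with h | h
    · rw [min_eq_left h]
      nlinarith
    · rw [min_eq_right h]
      nlinarith
  calc ENNReal.ofReal (1 / (2 * Real.sqrt (80 * k)) / Real.sqrt s) * min (μ S) (1 - μ S)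
      ≤ ENNReal.ofReal (1 / (2 * Real.sqrt (80 * k)) / Real.sqrt s) *
        (2 * (ENNReal.ofReal B * Λ)) := by
        gcongr
        exact hmin.trans (mul_le_mul_right h1 _)
    _ = ENNReal.ofReal (1 / (2 * Real.sqrt (80 * k)) / Real.sqrt s * (2 * B)) * Λ := by
        have h4 : (2 : ℝ≥0∞) = ENNReal.ofReal 2 := by norm_num
        rw [h4, ENNReal.ofReal_mul (by positivity), ENNReal.ofReal_mul (by norm_num)]
        ring
    _ = Λ := by
        have h5 : 1 / (2 * Real.sqrt (80 * k)) / Real.sqrt s * (2 * B) = 1 := by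
          rw [hB]
          have e1 : Real.sqrt (80 * (k * s)) = Real.sqrt (80 * k) * Real.sqrt s := by
            rw [← mul_assoc, Real.sqrt_mul (by positivity)]
          rw [e1]
          have : Real.sqrt (80 * k) ≠ 0 := (Real.sqrt_pos.2 (by positivity)).ne'
          have : Real.sqrt s ≠ 0 := (Real.sqrt_pos.2 hs).ne'
          field_simp
        rw [h5, ENNReal.ofReal_one, one_mul]

end Pool.Agent.Y506.KS
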