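import Pool.Agent.Y506.KS.Body

/-!
# Block densities in isotropic position
-/

set_option autoImplicit false
set_option linter.unusedSectionVars false

namespace Pool.Agent.Y506.KS

open MeasureTheory Set
open scoped ENNReal InnerProductSpace Pointwise

/-- even log-concave functions with bounded support whose support function is, in every direction, at
most `κ` standard deviations -/
structure Bk {k : ℕ} (κ : ℝ) (φ : EuclideanSpace ℝ (Fin k) → ℝ) : Prop where
  nonneg : ∀ s, 0 ≤ φ s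
  meas : Measurable φ
  even : ∀ s, φ (-s) = φ s
  logc : ∀ s u, ∀ t : ℝ, 0 < t → t < 1 → φ s ^ (1 - t) * φ u ^ t ≤ φ ((1 - t) • s + t • u)
  bdd : ∃ R : ℝ, ∀ s, R < ‖s‖ → φ s = 0
  pos : 0 < ∫ s, φ s
  width : ∀ s c, φ s ≠ 0 → ⟪c, s⟫_ℝ ^ 2 * (∫ u, φ u) ≤ κ ^ 2 * ∫ u, ⟪c, u⟫_ℝ ^ 2 * φ u

variable {k : ℕ} {κ : ℝ} {φ : EuclideanSpace ℝ (Fin k) → ℝ}

theorem Bk.le_zero (h : Bk κ φ) (s : EuclideanSpace ℝ (Fin k)) : φ s ≤ φ 0 := by
  have h1 := h.logc s (-s) (1 / 2) (by norm_num) (by norm_num)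
  rw [h.even, ← Real.rpow_add_of_nonneg (h.nonneg s) (by norm_num) (by norm_num)] at h1
  have e : ((1 - 1 / 2 : ℝ) • s + (1 / 2 : ℝ) • -s) = 0 := by module
  rw [e] at h1
  norm_num at h1
  exact h1

theorem Bk.intg (h : Bk κ φ) (g : EuclideanSpace ℝ (Fin k) → ℝ) (hg : Continuous g) :
    Integrable fun s => g s * φ s := by
  obtain ⟨R, hR⟩ := h.bdd
  obtain ⟨C, hC⟩ := (isCompact_closedBall (0 : EuclideanSpace ℝ (Fin k))
    R).exists_bound_of_continuousOn hg.continuousOn
  have h1 : IntegrableOn (fun s => g s * φ s) (Metric.closedBall 0 R) := by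
    refine Measure.integrableOn_of_bounded (M := C * φ 0) ?_ ?_ ?_
    · exact (isCompact_closedBall _ _).measure_lt_top.ne
    · exact (hg.measurable.mul h.meas).aestronglyMeasurable
    · refine ae_restrict_of_forall_mem measurableSet_closedBall fun s hs => ?_
      rw [norm_mul, Real.norm_of_nonneg (h.nonneg s)]
      exact mul_le_mul (hC s hs) (h.le_zero s) (h.nonneg _) ((norm_nonneg _).trans (hC s hs))
  refine (integrableOn_iff_integrable_of_support_subset ?_).1 h1
  intro s hs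
  rw [Metric.mem_closedBall, dist_zero_right]
  by_contra hn
  exact hs (by simp only [hR s (not_le.1 hn), mul_zero])

theorem Bk.intg0 (h : Bk κ φ) : Integrable φ := by
  have := h.intg (fun _ => 1) continuous_const
  simpa using this

theorem Bk.sup (h : Bk κ φ) : ∃ δ : ℝ, 0 < δ ∧ SB {s | δ ≤ φ s} := by
  have h1 : ∃ n : ℕ, 0 < volume {s | 1 / ((n : ℝ) + 1) ≤ φ s} := by
    by_contra hn
    push Not at hn
    have h2 : volume {s | 0 < φ s} = 0 := by
      have h3 : {s | 0 < φ s} ⊆ ⋃ n : ℕ, {s | 1 / ((n : ℝ) + 1) ≤ φ s} := by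
        intro s hs
        obtain ⟨n, hn'⟩ := exists_nat_one_div_lt (show 0 < φ s from hs)
        exact mem_iUnion.2 ⟨n, hn'.le⟩
      refine measure_mono_null h3 (measure_iUnion_null fun n => ?_)
      exact nonpos_iff_eq_zero.1 (hn n)
    have h4 : ∫ s, φ s = 0 := by
      refine integral_eq_zero_of_ae ?_
      rw [Filter.EventuallyEq, ae_iff]
      refine measure_mono_null (fun s hs => ?_) h2
      exact lt_of_le_of_ne (h.nonneg s) (Ne.symm hs)
    exact h.pos.ne' h4
  obtain ⟨n, hn⟩ := h1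
  have hδ : (0 : ℝ) < 1 / ((n : ℝ) + 1) := by positivity
  obtain ⟨δ, hδe⟩ : ∃ δ : ℝ, δ = 1 / ((n : ℝ) + 1) := ⟨_, rfl⟩
  rw [← hδe] at hn hδ
  have hconv : Convex ℝ {s | δ ≤ φ s} := by
    intro s hs u hu a b ha hb hab
    rcases eq_or_lt_of_le hb with h0 | h0
    · have ha1 : a = 1 := by linarith
      rw [← h0, ha1, zero_smul, one_smul, add_zero]
      exact hs
    · rcases eq_or_lt_of_le ha with h0' | h0'
      · have hb1 : b = 1 := by linarith
        rw [← h0', hb1, zero_smul, one_smul, zero_add]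
        exact hu
      · have hb1 : b < 1 := by linarith
        have ha1 : a = 1 - b := by linarith
        have h5 := h.logc s u b h0 hb1
        rw [← ha1] at h5
        refine le_trans ?_ h5
        have h6 : δ ^ a * δ ^ b = δ := by
          rw [← Real.rpow_add hδ, hab, Real.rpow_one]
        calc δ = δ ^ a * δ ^ b := h6.symm
          _ ≤ φ s ^ a * φ u ^ b := mul_le_mul (Real.rpow_le_rpow hδ.le hs ha)
            (Real.rpow_le_rpow hδ.le hu hb) (by positivity) (Real.rpow_nonneg (h.nonneg _) _)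
  refine ⟨δ, hδ, measurableSet_le measurable_const h.meas, hconv, ?_, ?_, ?_⟩
  · obtain ⟨R, hR⟩ := h.bdd
    refine (Metric.isBounded_closedBall (x := (0 : EuclideanSpace ℝ (Fin k))) (r := R)).subset
      fun s hs => ?_
    rw [mem_closedBall_zero_iff]
    by_contra hn'
    have h5 := hR s (not_le.1 hn')
    have h6 : δ ≤ φ s := hs
    linarith
  · intro s hs
    change δ ≤ φ (-s)
    rw [h.even]
    exact hs
  · rw [hconv.interior_nonempty_iff_affineSpan_eq_top]
    by_contra hne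
    have h5 := Measure.addHaar_affineSubspace (volume : Measure (EuclideanSpace ℝ (Fin k)))
      (affineSpan ℝ {s | δ ≤ φ s}) hne
    exact hn.ne' (measure_mono_null (subset_affineSpan ℝ _) h5)

theorem Bk.near (h : Bk κ φ) : ∃ δ r : ℝ, 0 < δ ∧ 0 < r ∧ ∀ s, ‖s‖ < r → δ ≤ φ s := by
  obtain ⟨δ, hδ, hS⟩ := h.sup
  obtain ⟨r, hr, hb⟩ := hS.ball
  exact ⟨δ, r, hδ, hr, fun s hs => hb (by simpa using hs)⟩

theorem Bk.quad_pos (h : Bk κ φ) (c : EuclideanSpace ℝ (Fin k)) (hc : c ≠ 0) :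
    0 < ∫ s, ⟪c, s⟫_ℝ ^ 2 * φ s := by
  obtain ⟨δ, hδ, hS⟩ := h.sup
  have h1 := hS.quad_pos c hc
  have h2 : δ * ∫ s in {s | δ ≤ φ s}, ⟪c, s⟫_ℝ ^ 2 ≤ ∫ s, ⟪c, s⟫_ℝ ^ 2 * φ s := by
    rw [← integral_const_mul, ← integral_indicator hS.meas]
    refine integral_mono ?_ (h.intg _ (by fun_prop)) fun s => ?_
    · have i1 : IntegrableOn (fun s => δ * ⟪c, s⟫_ℝ ^ 2) {s | δ ≤ φ s} :=
        (hS.intg (fun s => ⟪c, s⟫_ℝ ^ 2) (by fun_prop)).const_mul δ
      exact i1.integrable_indicator hS.meas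
    · by_cases hs : s ∈ {s | δ ≤ φ s}
      · rw [indicator_of_mem hs]
        have h3 : δ ≤ φ s := hs
        nlinarith [sq_nonneg ⟪c, s⟫_ℝ, mul_le_mul_of_nonneg_left h3 (sq_nonneg ⟪c, s⟫_ℝ)]
      · rw [indicator_of_notMem hs]
        exact mul_nonneg (sq_nonneg _) (h.nonneg s)
  exact lt_of_lt_of_le (mul_pos hδ h1) h2

/-- the quadratic form of second moments as a norm -/
theorem Bk.exists_B (h : Bk κ φ) : ∃ B : EuclideanSpace ℝ (Fin k) ≃L[ℝ] EuclideanSpace ℝ (Fin k),
    ∀ c, ‖B c‖ ^ 2 = ∫ s, ⟪c, s⟫_ℝ ^ 2 * φ s := by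
  have hint : ∀ a b : EuclideanSpace ℝ (Fin k),
      Integrable (fun s => ⟪a, s⟫_ℝ * ⟪b, s⟫_ℝ * φ s) := fun a b => h.intg _ (by fun_prop)
  let cd : InnerProductSpace.Core ℝ (EuclideanSpace ℝ (Fin k)) :=
    { inner := fun a b => ∫ s, ⟪a, s⟫_ℝ * ⟪b, s⟫_ℝ * φ s
      conj_inner_symm := fun a b => by
        simp only [conj_trivial]
        exact integral_congr_ae (Filter.Eventually.of_forall fun s => by simp only; ring)
      re_inner_nonneg := fun a => by
        simp only [RCLike.re_to_real]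
        exact integral_nonneg fun s => mul_nonneg (mul_self_nonneg _) (h.nonneg s)
      add_left := fun a b c => by
        rw [← integral_add (hint a c) (hint b c)]
        refine integral_congr_ae (Filter.Eventually.of_forall fun s => ?_)
        simp only
        rw [inner_add_left]
        ring
      smul_left := fun a b r => by
        simp only [conj_trivial]
        rw [← integral_const_mul]
        refine integral_congr_ae (Filter.Eventually.of_forall fun s => ?_)
        simp only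
        rw [real_inner_smul_left]
        ring
      definite := fun a ha => by
        by_contra hne
        have h1 := h.quad_pos a hne
        have h2 : ∫ s, ⟪a, s⟫_ℝ ^ 2 * φ s = 0 := by
          rw [← ha]
          exact integral_congr_ae (Filter.Eventually.of_forall fun s => by simp only; ring)
        exact h1.ne' h2 }
  obtain ⟨T, hT⟩ := exists_T_core cd LinearMap.id Function.injective_id
  refine ⟨T, fun c => (hT c).trans ?_⟩
  exact integral_congr_ae (Filter.Eventually.of_forall fun s => by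
    simp only [LinearMap.id_coe, id_eq]; ring)

/-- isotropic position -/
theorem Bk.iso (h : Bk κ φ) (hκ : 0 < κ) :
    ∃ A : EuclideanSpace ℝ (Fin k) ≃L[ℝ] EuclideanSpace ℝ (Fin k),
    (∀ c, 1 * ‖c‖ ^ 2 * (∫ s, φ (A.symm s)) ≤ ∫ s, ⟪c, s⟫_ℝ ^ 2 * φ (A.symm s)) ∧
      ∀ s, κ < ‖s‖ → φ (A.symm s) = 0 := by
  obtain ⟨B, hB⟩ := h.exists_B
  have hv := h.pos
  obtain ⟨v, hve⟩ : ∃ v : ℝ, v = ∫ s, φ s := ⟨_, rfl⟩
  rw [← hve] at hv
  have hsv : 0 < Real.sqrt v := Real.sqrt_pos.2 hv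
  let A0 : EuclideanSpace ℝ (Fin k) →L[ℝ] EuclideanSpace ℝ (Fin k) :=
    Real.sqrt v • ContinuousLinearMap.adjoint B.symm.toContinuousLinearMap
  have hA0 : ∀ c s, ⟪c, A0 s⟫_ℝ = Real.sqrt v * ⟪B.symm c, s⟫_ℝ := by
    intro c s
    simp only [A0]
    rw [_root_.smul_apply, real_inner_smul_right, ContinuousLinearMap.adjoint_inner_right]
    rfl
  have hinj : Function.Injective A0.toLinearMap := by
    rw [injective_iff_map_eq_zero]
    intro x hx
    have h1 := hA0 (B x) x
    have h2 : A0 x = 0 := hx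
    rw [h2, inner_zero_right, B.symm_apply_apply] at h1
    rcases mul_eq_zero.1 h1.symm with h3 | h3
    · exact absurd h3 hsv.ne'
    · exact inner_self_eq_zero.1 h3
  let A1 : EuclideanSpace ℝ (Fin k) ≃ₗ[ℝ] EuclideanSpace ℝ (Fin k) :=
    LinearEquiv.ofInjectiveEndo A0.toLinearMap hinj
  let A : EuclideanSpace ℝ (Fin k) ≃L[ℝ] EuclideanSpace ℝ (Fin k) := A1.toContinuousLinearEquiv
  have hA : ∀ x, A x = A0 x := fun x => rfl
  obtain ⟨c0, hc0, hc1, -⟩ := cov1 A
  have h1 : c0 * (∫ s, φ (A.symm s)) = v := by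
    have h2 := hc1 fun s => φ (A.symm s)
    simp only [A.symm_apply_apply] at h2
    rw [hve]
    exact h2.symm
  have h3 : ∀ c, c0 * (∫ s, ⟪c, s⟫_ℝ ^ 2 * φ (A.symm s)) = v * ‖c‖ ^ 2 := by
    intro c
    have h2 := hc1 fun s => ⟪c, s⟫_ℝ ^ 2 * φ (A.symm s)
    simp only [A.symm_apply_apply] at h2
    rw [← h2]
    have h4 : ∀ s, ⟪c, A s⟫_ℝ ^ 2 * φ s = v * (⟪B.symm c, s⟫_ℝ ^ 2 * φ s) := by
      intro s
      rw [hA, hA0, mul_pow, Real.sq_sqrt hv.le, mul_assoc]
    simp only [h4]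
    rw [integral_const_mul, ← hB, B.apply_symm_apply]
  refine ⟨A, fun c => ?_, fun s hs => ?_⟩
  · refine le_of_mul_le_mul_left ?_ hc0
    rw [h3, ← h1]
    exact le_of_eq (by ring)
  · by_contra hne
    -- width in the direction `c` with `⟪c, A.symm s⟫ = ‖s‖²`
    obtain ⟨c, hc⟩ : ∃ c, c = Real.sqrt v • B.symm s := ⟨_, rfl⟩
    have h4 : ⟪c, A.symm s⟫_ℝ = ‖s‖ ^ 2 := by
      have h5 := hA0 s (A.symm s)
      rw [← hA, A.apply_symm_apply, real_inner_self_eq_norm_sq] at h5
      rw [hc, real_inner_smul_left, ← h5]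
    have h6 : ∫ u, ⟪c, u⟫_ℝ ^ 2 * φ u = v * ‖s‖ ^ 2 := by
      rw [← hB, hc, map_smul, B.apply_symm_apply, norm_smul, mul_pow,
        Real.norm_of_nonneg hsv.le, Real.sq_sqrt hv.le]
    have h7 := h.width (A.symm s) c hne
    rw [h4, h6, ← hve] at h7
    have hs0 : 0 < ‖s‖ := hκ.trans hs
    have h8 : ‖s‖ ^ 2 ≤ κ ^ 2 := by
      have h9 : ‖s‖ ^ 2 * (v * ‖s‖ ^ 2) ≤ κ ^ 2 * (v * ‖s‖ ^ 2) := by
        calc _ = (‖s‖ ^ 2) ^ 2 * v := by ring
          _ ≤ _ := h7
      exact le_of_mul_le_mul_right h9 (by positivity)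
    have h9 : κ ^ 2 < ‖s‖ ^ 2 := pow_lt_pow_left₀ hs hκ.le two_ne_zero
    linarith

variable {ι : Type} [Fintype ι] [DecidableEq ι] {m : ι → ℕ} {α : Type} [Fintype α]

/-- Poincare inequality for `∏ φ i (Q i x)` -/
theorem dens_poincare {Q : ∀ i, EuclideanSpace ℝ α →L[ℝ] Xb m i}
    (hQ : ∀ x, (∀ i, Q i x = 0) → x = 0) {φ : ∀ i, Xb m i → ℝ} {κ : ℝ} (hκ : 0 < κ)
    (hφ : ∀ i, Bk κ (φ i)) (q : ℕ) (hq : ∑ i, m i ≤ Fintype.card α + q) (s : ℝ) (hs : 0 < s)
    (hcov : ∀ e : EuclideanSpace ℝ α, ∫ x, ⟪e, x⟫_ℝ ^ 2 * dn Q φ x ≤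
      s * ‖e‖ ^ 2 * ∫ x, dn Q φ x)
    (f : EuclideanSpace ℝ α → ℝ) (hf : ContDiff ℝ 1 f) (h0 : ∫ x, f x * dn Q φ x = 0) :
    ∫ x, f x ^ 2 * dn Q φ x ≤ 1376256 * ((q : ℝ) + 2) ^ 4 * κ ^ 2 * s *
      ∫ x, ‖fderiv ℝ f x‖ ^ 2 * dn Q φ x := by
  choose A hA1 hA2 using fun i => (hφ i).iso hκ
  let Q' : ∀ i, EuclideanSpace ℝ α →L[ℝ] Xb m i := fun i =>
    (A i).toContinuousLinearMap.comp (Q i)
  have hQ'a : ∀ i x, Q' i x = A i (Q i x) := fun i x => rfl
  let φ' : ∀ i, Xb m i → ℝ := fun i s => φ i ((A i).symm s)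
  have hdn : ∀ x, dn Q' φ' x = dn Q φ x := by
    intro x
    unfold dn
    refine Finset.prod_congr rfl fun i _ => ?_
    simp only [φ', hQ'a]
    rw [(A i).symm_apply_apply]
  have hQ' : ∀ x, (∀ i, Q' i x = 0) → x = 0 := fun x hx => hQ x fun i => by
    have h1 := hx i
    rw [hQ'a] at h1
    exact (A i).injective (h1.trans (map_zero (A i)).symm)
  have hF : Fam φ' κ := by
    refine ⟨fun i s => (hφ i).nonneg _, fun i => (hφ i).meas.comp (A i).symm.continuous.measurable,
      ?_, fun i s hs => hA2 i s hs, ?_, ?_⟩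
    · intro i s u t ht0 ht1
      simp only [φ']
      rw [map_add, map_smul, map_smul]
      exact (hφ i).logc _ _ t ht0 ht1
    · refine ⟨1 + ∑ i, φ i 0, ?_, fun i s => ((hφ i).le_zero _).trans ?_⟩
      · have : 0 ≤ ∑ i, φ i 0 := Finset.sum_nonneg fun i _ => (hφ i).nonneg 0
        linarith
      · have := Finset.single_le_sum (f := fun i => φ i 0) (fun i _ => (hφ i).nonneg 0)
          (Finset.mem_univ i)
        linarith
    · have h1 : ∀ i, ∃ δ : ℝ, 0 < δ ∧ ∀ s, ‖s‖ < δ → δ ≤ φ' i s := fun i => by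
        obtain ⟨δ, r, hδ, hr, hp⟩ := (hφ i).near
        have hcont : Continuous fun s => ‖(A i).symm s‖ := (A i).symm.continuous.norm
        have hev : ∀ᶠ s in nhds (0 : Xb m i), ‖(A i).symm s‖ < r := by
          refine (hcont.tendsto 0).eventually (gt_mem_nhds ?_)
          rw [map_zero, norm_zero]
          exact hr
        obtain ⟨ε, hε, hb⟩ := Metric.eventually_nhds_iff_ball.1 hev
        refine ⟨min δ ε, lt_min hδ hε, fun s hs => (min_le_left _ _).trans (hp _ ?_)⟩
        exact hb s (by simpa using hs.trans_le (min_le_right _ _))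
      choose δ hδ hp using h1
      have h2 : ∀ᶠ x in nhdsWithin (0 : ℝ) (Ioi 0), ∀ i, x < δ i := by
        rw [Filter.eventually_all]
        intro i
        exact Filter.mem_of_superset (Ioo_mem_nhdsGT (hδ i)) fun x hx => hx.2
      obtain ⟨x, hx, hx0⟩ := (h2.and self_mem_nhdsWithin).exists
      exact ⟨x, x, hx0, hx0, fun i s hs => (hx i).le.trans (hp i s (hs.trans (hx i)))⟩
  have h1 := gen_poincare hQ' hκ hF (fun i s => by
      simp only [φ']
      rw [map_neg, (hφ i).even]) 1 one_pos hA1 q hq s hs (fun e => by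
      simp only [hdn]
      exact hcov e) f hf (by
      simp only [hdn]
      exact h0)
  simp only [hdn] at h1
  refine h1.trans (le_of_eq ?_)
  ring

/-- the uniform density on a symmetric convex body -/
theorem SB.bk {D : Set (EuclideanSpace ℝ (Fin k))} (h : SB D) :
    Bk (2 * ((k : ℝ) + 1)) (D.indicator fun _ => (1 : ℝ)) := by
  have hone : ∫ s, D.indicator (fun _ => (1 : ℝ)) s = (volume D).toReal := by
    rw [integral_indicator h.meas, setIntegral_const, smul_eq_mul, mul_one]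
    rfl
  refine ⟨fun s => indicator_nonneg (fun _ _ => zero_le_one) _,
    measurable_const.indicator h.meas, fun s => ?_, ?_, ?_, ?_, ?_⟩
  · by_cases hs : s ∈ D
    · rw [indicator_of_mem hs, indicator_of_mem (h.symm s hs)]
    · have : -s ∉ D := fun hn => hs (by simpa using h.symm _ hn)
      rw [indicator_of_notMem hs, indicator_of_notMem this]
  · intro s u t ht0 ht1
    have h1 : 0 < 1 - t := by linarith
    by_cases hs : s ∈ D
    · by_cases hu : u ∈ D
      · have hm : (1 - t) • s + t • u ∈ D := h.conv hs hu h1.le ht0.le (by ring)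
        simp only [indicator_of_mem hs, indicator_of_mem hu, indicator_of_mem hm, Real.one_rpow,
          mul_one, le_refl]
      · simp only [indicator_of_notMem hu, Real.zero_rpow ht0.ne', mul_zero]
        exact indicator_nonneg (fun _ _ => zero_le_one) _
    · simp only [indicator_of_notMem hs, Real.zero_rpow h1.ne', zero_mul]
      exact indicator_nonneg (fun _ _ => zero_le_one) _
  · obtain ⟨R, hR0, hR⟩ := h.bdd.exists_pos_norm_le
    exact ⟨R, fun s hs => indicator_of_notMem (fun hn => absurd (hR s hn) (not_le.2 hs)) _⟩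
  · rw [hone]
    exact h.volr_pos
  · intro s c hs
    have hsD : s ∈ D := by
      by_contra hn
      exact hs (indicator_of_notMem hn _)
    rw [hone]
    have h2 : ∫ u, ⟪c, u⟫_ℝ ^ 2 * D.indicator (fun _ => (1 : ℝ)) u = ∫ u in D, ⟪c, u⟫_ℝ ^ 2 := by
      rw [← integral_indicator h.meas]
      refine integral_congr_ae (Filter.Eventually.of_forall fun u => ?_)
      by_cases hu : u ∈ D
      · simp only [indicator_of_mem hu, mul_one]
      · simp only [indicator_of_notMem hu, mul_zero]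
    rw [h2]
    refine (h.width c s hsD).trans (le_of_eq ?_)
    ring

end Pool.Agent.Y506.KS
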