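import Pool.Agent.Y506.KS.Dens

/-!
# Variance form
-/

set_option autoImplicit false
set_option linter.unusedSectionVars false

namespace Pool.Agent.Y506.KS

open MeasureTheory Set
open scoped ENNReal InnerProductSpace Pointwise
open Pool.Agent.H212R2.KLS (mu Bdd)

variable {ι : Type} [Fintype ι] [DecidableEq ι] {m : ι → ℕ} {α : Type} [Fintype α]

theorem bk_fam {φ : ∀ i, Xb m i → ℝ} {κ : ℝ} (hφ : ∀ i, Bk κ (φ i)) : ∃ R : ℝ, Fam φ R := by
  have h1 : ∀ i, ∃ R : ℝ, 0 ≤ R ∧ ∀ s, R < ‖s‖ → φ i s = 0 := fun i => by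
    obtain ⟨R, hR⟩ := (hφ i).bdd
    exact ⟨|R|, abs_nonneg _, fun s hs => hR s (lt_of_le_of_lt (le_abs_self R) hs)⟩
  choose R hR0 hR using h1
  refine ⟨∑ i, R i, fun i s => (hφ i).nonneg _, fun i => (hφ i).meas, fun i => (hφ i).logc,
    fun i s hs => hR i s (lt_of_le_of_lt (Finset.single_le_sum (f := R) (fun j _ => hR0 j)
      (Finset.mem_univ i)) hs), ?_, ?_⟩
  · refine ⟨1 + ∑ i, φ i 0, ?_, fun i s => ((hφ i).le_zero _).trans ?_⟩
    · have : 0 ≤ ∑ i, φ i 0 := Finset.sum_nonneg fun i _ => (hφ i).nonneg 0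
      linarith
    · have := Finset.single_le_sum (f := fun i => φ i 0) (fun i _ => (hφ i).nonneg 0)
        (Finset.mem_univ i)
      linarith
  · have h1 : ∀ i, ∃ δ : ℝ, 0 < δ ∧ ∀ s, ‖s‖ < δ → δ ≤ φ i s := fun i => by
      obtain ⟨δ, r, hδ, hr, hp⟩ := (hφ i).near
      exact ⟨min δ r, lt_min hδ hr, fun s hs => (min_le_left _ _).trans
        (hp _ (hs.trans_le (min_le_right _ _)))⟩
    choose δ hδ hp using h1
    have h2 : ∀ᶠ x in nhdsWithin (0 : ℝ) (Ioi 0), ∀ i, x < δ i := by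
      rw [Filter.eventually_all]
      intro i
      exact Filter.mem_of_superset (Ioo_mem_nhdsGT (hδ i)) fun x hx => hx.2
    obtain ⟨x, hx, hx0⟩ := (h2.and self_mem_nhdsWithin).exists
    exact ⟨x, x, hx0, hx0, fun i s hs => (hx i).le.trans (hp i s (hs.trans (hx i)))⟩

theorem dens_var {Q : ∀ i, EuclideanSpace ℝ α →L[ℝ] Xb m i}
    (hQ : ∀ x, (∀ i, Q i x = 0) → x = 0) {φ : ∀ i, Xb m i → ℝ} {κ : ℝ} (hκ : 0 < κ)
    (hφ : ∀ i, Bk κ (φ i)) (q : ℕ) (hq : ∑ i, m i ≤ Fintype.card α + q)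
    (hprob : IsProbabilityMeasure (mu (dn Q φ))) (s : ℝ) (hs : 0 < s)
    (hcov : ∀ θ : EuclideanSpace ℝ α, ProbabilityTheory.evariance (fun x => ⟪θ, x⟫_ℝ)
      (mu (dn Q φ)) ≤ ENNReal.ofReal (s * ‖θ‖ ^ 2))
    (f : EuclideanSpace ℝ α → ℝ) (hf : ContDiff ℝ 1 f) :
    MemLp f 2 (mu (dn Q φ)) ∧ MemLp (fun x => ‖fderiv ℝ f x‖) 2 (mu (dn Q φ)) ∧
      ProbabilityTheory.variance f (mu (dn Q φ)) ≤ 1376256 * ((q : ℝ) + 2) ^ 4 * κ ^ 2 * s *
        ∫ x, ‖fderiv ℝ f x‖ ^ 2 ∂(mu (dn Q φ)) := by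
  obtain ⟨R, hR⟩ := bk_fam hφ
  have hnn : ∀ x, 0 ≤ dn Q φ x := fun x => Finset.prod_nonneg fun i _ => (hφ i).nonneg _
  have hmeas : Measurable (dn Q φ) :=
    Finset.measurable_prod _ fun i _ => (hφ i).meas.comp (Q i).continuous.measurable
  have hint : ∀ g : EuclideanSpace ℝ α → ℝ, Continuous g → Integrable g (mu (dn Q φ)) := by
    intro g hg
    have h1 := gen_int hQ hR g hg
    have hmm : Measurable fun x => ENNReal.ofReal (dn Q φ x) :=
      ENNReal.measurable_ofReal.comp hmeas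
    unfold mu
    rw [integrable_withDensity_iff_integrable_smul' hmm
      (Filter.Eventually.of_forall fun x => ENNReal.ofReal_lt_top)]
    refine h1.congr (Filter.Eventually.of_forall fun x => ?_)
    simp only [smul_eq_mul]
    rw [ENNReal.toReal_ofReal (hnn x), mul_comm]
  have hL2 : ∀ g : EuclideanSpace ℝ α → ℝ, Continuous g → MemLp g 2 (mu (dn Q φ)) := by
    intro g hg
    rw [memLp_two_iff_integrable_sq hg.aestronglyMeasurable]
    exact hint _ (hg.pow 2)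
  have hev : ∀ x, dn Q φ (-x) = dn Q φ x := by
    intro x
    unfold dn
    refine Finset.prod_congr rfl fun i _ => ?_
    rw [map_neg, (hφ i).even]
  have hone : ∫ x, dn Q φ x = 1 := by
    have h1 := int_mu' hnn hmeas (fun _ => (1 : ℝ))
    simp only [one_mul] at h1
    rw [← h1, integral_const, probReal_univ, one_smul]
  have hodd : ∀ θ : EuclideanSpace ℝ α, ∫ x, ⟪θ, x⟫_ℝ ∂(mu (dn Q φ)) = 0 := by
    intro θ
    rw [int_mu' hnn hmeas]
    have h1 : ∫ x, ⟪θ, -x⟫_ℝ * dn Q φ (-x) = ∫ x, ⟪θ, x⟫_ℝ * dn Q φ x :=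
      integral_neg_eq_self (fun x => ⟪θ, x⟫_ℝ * dn Q φ x) volume
    have h2 : ∀ x, ⟪θ, -x⟫_ℝ * dn Q φ (-x) = -(⟪θ, x⟫_ℝ * dn Q φ x) := fun x => by
      rw [hev, inner_neg_right, neg_mul]
    simp only [h2] at h1
    rw [integral_neg] at h1
    linarith
  have hcov' : ∀ e : EuclideanSpace ℝ α, ∫ x, ⟪e, x⟫_ℝ ^ 2 * dn Q φ x ≤
      s * ‖e‖ ^ 2 * ∫ x, dn Q φ x := by
    intro e
    have hc : Continuous fun x : EuclideanSpace ℝ α => ⟪e, x⟫_ℝ := by fun_prop
    have h1 := hcov e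
    rw [← ProbabilityTheory.ofReal_variance (hL2 _ hc),
      ENNReal.ofReal_le_ofReal_iff (by positivity),
      ProbabilityTheory.variance_of_integral_eq_zero hc.aemeasurable (hodd e),
      int_mu' hnn hmeas] at h1
    rw [hone, mul_one]
    exact h1
  refine ⟨hL2 f hf.continuous, hL2 _ (hf.continuous_fderiv (by norm_num)).norm, ?_⟩
  obtain ⟨a, ha⟩ : ∃ a : ℝ, a = ∫ x, f x ∂(mu (dn Q φ)) := ⟨_, rfl⟩
  have h0 : ∫ x, (f x - a) * dn Q φ x = 0 := by
    rw [← int_mu' hnn hmeas (fun x => f x - a), integral_sub (hint f hf.continuous)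
      (integrable_const a), integral_const, probReal_univ, one_smul, ha, sub_self]
  have h1 := dens_poincare hQ hκ hφ q hq s hs hcov' (fun x => f x - a) (hf.sub contDiff_const) h0
  have e1 : ∀ x, fderiv ℝ (fun x => f x - a) x = fderiv ℝ f x := fun x => by
    rw [fderiv_sub_const]
  simp only [e1] at h1
  rw [ProbabilityTheory.variance_eq_integral hf.continuous.aemeasurable, ← ha,
    int_mu' hnn hmeas (fun x => (f x - a) ^ 2), int_mu' hnn hmeas]
  exact h1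

end Pool.Agent.Y506.KS
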