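import Pool.Agent.Y506.KS.Par
import Pool.Agent.Y506.KS.Crit

/-!
# Families of block densities
-/

set_option autoImplicit false
set_option linter.unusedSectionVars false

namespace Pool.Agent.Y506.KS

open MeasureTheory Set
open scoped ENNReal InnerProductSpace
open Pool.Agent.H212R2.KLS (mu Bdd)
open Pool.Agent.H888R2.KT

/-- log-concave bounded densities of bounded support, positive near the origin -/
structure Fam {ι : Type} {m : ι → ℕ} (φ : ∀ i, Xb m i → ℝ) (R : ℝ) : Prop where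
  nonneg : ∀ i s, 0 ≤ φ i s
  meas : ∀ i, Measurable (φ i)
  logc : ∀ i (s u : Xb m i) (t : ℝ), 0 < t → t < 1 →
    φ i s ^ (1 - t) * φ i u ^ t ≤ φ i ((1 - t) • s + t • u)
  supp : ∀ i s, R < ‖s‖ → φ i s = 0
  bdd : ∃ B : ℝ, 0 < B ∧ ∀ i s, φ i s ≤ B
  pos : ∃ δ r : ℝ, 0 < δ ∧ 0 < r ∧ ∀ i s, ‖s‖ < r → δ ≤ φ i s

variable {ι : Type} [Fintype ι] [DecidableEq ι] {m : ι → ℕ} {κ : Type} [Fintype κ]

/-- modification by a Gaussian and an exponential factor -/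
noncomputable def md (φ : ∀ i, Xb m i → ℝ) (a c : ∀ i, Xb m i) (b : ℝ) (i : ι) (s : Xb m i) : ℝ :=
  φ i s * Real.exp (⟪a i, s⟫_ℝ - b * ‖s - c i‖ ^ 2)

theorem sq_conv {X : Type} [NormedAddCommGroup X] [InnerProductSpace ℝ X] (s u c : X) (t : ℝ)
    (h0 : 0 < t) (h1 : t < 1) : ‖((1 - t) • s + t • u) - c‖ ^ 2 ≤
      (1 - t) * ‖s - c‖ ^ 2 + t * ‖u - c‖ ^ 2 := by
  have e : ((1 - t) • s + t • u) - c = (1 - t) • (s - c) + t • (u - c) := by
    module
  rw [e, norm_add_sq_real, norm_smul, norm_smul, real_inner_smul_left, real_inner_smul_right,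
    Real.norm_of_nonneg (by linarith : 0 ≤ 1 - t), Real.norm_of_nonneg h0.le]
  have h2 : ⟪s - c, u - c⟫_ℝ ≤ ‖s - c‖ * ‖u - c‖ := real_inner_le_norm _ _
  have h3 : 0 < (1 - t) * t := mul_pos (by linarith) h0
  nlinarith [mul_nonneg h3.le (sq_nonneg (‖s - c‖ - ‖u - c‖)), mul_le_mul_of_nonneg_left h2 h3.le]

theorem Fam.md {φ : ∀ i, Xb m i → ℝ} {R : ℝ} (h : Fam φ R) (a c : ∀ i, Xb m i) (b : ℝ)
    (hb : 0 ≤ b) : Fam (md φ a c b) R := by
  obtain ⟨B, hB0, hB⟩ := h.bdd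
  obtain ⟨δ, r, hδ, hr, hp⟩ := h.pos
  have ha : ∀ i, ‖a i‖ ≤ ∑ j, ‖a j‖ := fun i =>
    Finset.single_le_sum (f := fun j => ‖a j‖) (fun _ _ => norm_nonneg _) (Finset.mem_univ i)
  have hc : ∀ i, ‖c i‖ ≤ ∑ j, ‖c j‖ := fun i =>
    Finset.single_le_sum (f := fun j => ‖c j‖) (fun _ _ => norm_nonneg _) (Finset.mem_univ i)
  have ha0 : 0 ≤ ∑ j, ‖a j‖ := Finset.sum_nonneg fun _ _ => norm_nonneg _
  have hc0 : 0 ≤ ∑ j, ‖c j‖ := Finset.sum_nonneg fun _ _ => norm_nonneg _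
  refine ⟨fun i s => mul_nonneg (h.nonneg i s) (Real.exp_pos _).le, fun i => ?_, ?_, ?_, ?_, ?_⟩
  · have h1 : Continuous fun s : Xb m i => Real.exp (⟪a i, s⟫_ℝ - b * ‖s - c i‖ ^ 2) := by
      fun_prop
    exact (h.meas i).mul h1.measurable
  · intro i s u t h0 h1
    have h1' : 0 < 1 - t := by linarith
    have e1 : Real.exp (⟪a i, s⟫_ℝ - b * ‖s - c i‖ ^ 2) ^ (1 - t) *
        Real.exp (⟪a i, u⟫_ℝ - b * ‖u - c i‖ ^ 2) ^ t ≤
        Real.exp (⟪a i, (1 - t) • s + t • u⟫_ℝ - b * ‖((1 - t) • s + t • u) - c i‖ ^ 2) := by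
      rw [← Real.exp_mul, ← Real.exp_mul, ← Real.exp_add]
      refine Real.exp_le_exp.2 ?_
      rw [inner_add_right, real_inner_smul_right, real_inner_smul_right]
      nlinarith [mul_le_mul_of_nonneg_left (sq_conv s u (c i) t h0 h1) hb]
    simp only [KS.md]
    rw [Real.mul_rpow (h.nonneg _ _) (Real.exp_pos _).le,
      Real.mul_rpow (h.nonneg _ _) (Real.exp_pos _).le]
    calc _ = (φ i s ^ (1 - t) * φ i u ^ t) *
          (Real.exp (⟪a i, s⟫_ℝ - b * ‖s - c i‖ ^ 2) ^ (1 - t) *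
          Real.exp (⟪a i, u⟫_ℝ - b * ‖u - c i‖ ^ 2) ^ t) := by ring
      _ ≤ _ := mul_le_mul (h.logc i s u t h0 h1) e1 (by positivity) (h.nonneg _ _)
  · intro i s hs
    simp only [KS.md]
    rw [h.supp i s hs, zero_mul]
  · refine ⟨B * Real.exp ((∑ j, ‖a j‖) * |R|), by positivity, fun i s => ?_⟩
    simp only [KS.md]
    rcases le_or_gt ‖s‖ R with hs | hs
    · refine mul_le_mul (hB i s) (Real.exp_le_exp.2 ?_) (Real.exp_pos _).le hB0.le
      have h2 : ⟪a i, s⟫_ℝ ≤ ‖a i‖ * ‖s‖ := real_inner_le_norm _ _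
      have h3 : ‖a i‖ * ‖s‖ ≤ (∑ j, ‖a j‖) * |R| :=
        mul_le_mul (ha i) (hs.trans (le_abs_self _)) (norm_nonneg _) ha0
      have h4 : 0 ≤ b * ‖s - c i‖ ^ 2 := by positivity
      linarith
    · rw [h.supp i s hs, zero_mul]
      positivity
  · refine ⟨δ * Real.exp (-((∑ j, ‖a j‖) * r + b * (r + ∑ j, ‖c j‖) ^ 2)), r, by positivity, hr,
      fun i s hs => ?_⟩
    simp only [KS.md]
    refine mul_le_mul (hp i s hs) (Real.exp_le_exp.2 ?_) (Real.exp_pos _).le (h.nonneg _ _)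
    have h2 : |⟪a i, s⟫_ℝ| ≤ ‖a i‖ * ‖s‖ := abs_real_inner_le_norm _ _
    have h3 : ‖a i‖ * ‖s‖ ≤ (∑ j, ‖a j‖) * r := mul_le_mul (ha i) hs.le (norm_nonneg _) ha0
    have h4 : ‖s - c i‖ ^ 2 ≤ (r + ∑ j, ‖c j‖) ^ 2 := by
      refine pow_le_pow_left₀ (norm_nonneg _) ?_ 2
      have := norm_sub_le s (c i)
      linarith [hc i]
    have h5 := mul_le_mul_of_nonneg_left h4 hb
    have h6 := neg_abs_le ⟪a i, s⟫_ℝ
    linarith

/-- continuous functions are integrable against the block densities -/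
theorem Fam.int {φ : ∀ i, Xb m i → ℝ} {R : ℝ} (h : Fam φ R) (i : ι) (g : Xb m i → ℝ)
    (hg : Continuous g) : Integrable fun s => g s * φ i s := by
  obtain ⟨B, hB0, hB⟩ := h.bdd
  obtain ⟨C, hC⟩ := (isCompact_closedBall (0 : Xb m i) R).exists_bound_of_continuousOn
    hg.continuousOn
  have h1 : IntegrableOn (fun s => g s * φ i s) (Metric.closedBall (0 : Xb m i) R) := by
    refine Measure.integrableOn_of_bounded (M := C * B) ?_ ?_ ?_
    · exact (isCompact_closedBall _ _).measure_lt_top.ne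
    · exact (hg.measurable.mul (h.meas i)).aestronglyMeasurable
    · refine ae_restrict_of_forall_mem measurableSet_closedBall fun s hs => ?_
      rw [norm_mul, Real.norm_of_nonneg (h.nonneg i s)]
      exact mul_le_mul (hC s hs) (hB i s) (h.nonneg _ _) ((norm_nonneg _).trans (hC s hs))
  refine (integrableOn_iff_integrable_of_support_subset ?_).1 h1
  intro s hs
  rw [Metric.mem_closedBall, dist_zero_right]
  by_contra hn
  exact hs (by simp only [h.supp i s (not_le.1 hn), mul_zero])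

theorem Fam.int0 {φ : ∀ i, Xb m i → ℝ} {R : ℝ} (h : Fam φ R) (i : ι) : Integrable (φ i) := by
  have := h.int i (fun _ => 1) continuous_const
  simpa using this

theorem Fam.ipos {φ : ∀ i, Xb m i → ℝ} {R : ℝ} (h : Fam φ R) (i : ι) : 0 < ∫ s, φ i s := by
  obtain ⟨δ, r, hδ, hr, hp⟩ := h.pos
  have h1 : (∫ s in Metric.ball (0 : Xb m i) r, δ) ≤ ∫ s in Metric.ball (0 : Xb m i) r, φ i s := by
    refine setIntegral_mono_on ?_ (h.int0 i).integrableOn measurableSet_ball fun s hs => hp i s ?_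
    · exact integrableOn_const (Metric.isBounded_ball.measure_lt_top).ne
    · simpa using hs
  have h2 : (∫ s in Metric.ball (0 : Xb m i) r, φ i s) ≤ ∫ s, φ i s :=
    setIntegral_le_integral (h.int0 i) (Filter.Eventually.of_forall fun s => h.nonneg i s)
  refine lt_of_lt_of_le ?_ (h1.trans h2)
  rw [setIntegral_const, smul_eq_mul]
  refine mul_pos ?_ hδ
  exact ENNReal.toReal_pos (Metric.measure_ball_pos _ _ hr).ne'
    (Metric.isBounded_ball.measure_lt_top).ne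

/-! ### the density on the product -/

/-- the product density in the coordinates `(x, z)` -/
noncomputable def rh (P : ∀ i, EuclideanSpace ℝ κ →L[ℝ] Xb m i) (φ : ∀ i, Xb m i → ℝ)
    (x : EuclideanSpace ℝ κ) (z : Fc P) : ℝ≥0∞ :=
  ∏ i, ENNReal.ofReal (φ i (P i x + (z : ∀ i, Xb m i) i))

/-- the density `∏ φ i (P i x)` -/
noncomputable def dn (P : ∀ i, EuclideanSpace ℝ κ →L[ℝ] Xb m i) (φ : ∀ i, Xb m i → ℝ)
    (x : EuclideanSpace ℝ κ) : ℝ := ∏ i, φ i (P i x)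

theorem rh_zero {P : ∀ i, EuclideanSpace ℝ κ →L[ℝ] Xb m i} {φ : ∀ i, Xb m i → ℝ} {R : ℝ}
    (h : Fam φ R) (x : EuclideanSpace ℝ κ) : rh P φ x 0 = ENNReal.ofReal (dn P φ x) := by
  unfold rh dn
  rw [ENNReal.ofReal_prod_of_nonneg fun i _ => h.nonneg i _]
  refine Finset.prod_congr rfl fun i _ => ?_
  have : ((0 : Fc P) : ∀ i, Xb m i) i = 0 := rfl
  rw [this, add_zero]

theorem rh_meas (P : ∀ i, EuclideanSpace ℝ κ →L[ℝ] Xb m i) {φ : ∀ i, Xb m i → ℝ} {R : ℝ}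
    (h : Fam φ R) : Measurable (Function.uncurry (rh P φ)) := by
  unfold rh Function.uncurry
  refine Finset.measurable_prod _ fun i _ => ?_
  refine ENNReal.measurable_ofReal.comp ((h.meas i).comp ?_)
  have h1 : Continuous fun p : EuclideanSpace ℝ κ × Fc P => P i p.1 + (p.2 : ∀ i, Xb m i) i := by
    have h2 : Continuous fun p : EuclideanSpace ℝ κ × Fc P => (p.2 : ∀ i, Xb m i) i :=
      (continuous_apply i).comp (continuous_subtype_val.comp continuous_snd)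
    exact ((P i).continuous.comp continuous_fst).add h2
  exact h1.measurable

theorem rh_lce (P : ∀ i, EuclideanSpace ℝ κ →L[ℝ] Xb m i) {φ : ∀ i, Xb m i → ℝ} {R : ℝ}
    (h : Fam φ R) : LCE (rh P φ) := by
  intro x y z w t ht0 ht1
  have ht1' : 0 < 1 - t := by linarith
  unfold rh
  rw [← ENNReal.prod_rpow_of_nonneg ht1'.le, ← ENNReal.prod_rpow_of_nonneg ht0.le,
    ← Finset.prod_mul_distrib]
  refine Finset.prod_le_prod' fun i _ => ?_
  rw [ENNReal.ofReal_rpow_of_nonneg (h.nonneg _ _) ht1'.le,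
    ENNReal.ofReal_rpow_of_nonneg (h.nonneg _ _) ht0.le, ← ENNReal.ofReal_mul
      (Real.rpow_nonneg (h.nonneg _ _) _)]
  refine ENNReal.ofReal_le_ofReal ((h.logc i _ _ t ht0 ht1).trans (le_of_eq ?_))
  congr 1
  have e2 : (((1 - t) • z + t • w : Fc P) : ∀ i, Xb m i) i =
      (1 - t) • (z : ∀ i, Xb m i) i + t • (w : ∀ i, Xb m i) i := rfl
  rw [e2, map_add, map_smul, map_smul]
  module

theorem norm_P_le {P : ∀ i, EuclideanSpace ℝ κ →L[ℝ] Xb m i} (hP : Pars P) (i : ι)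
    (x : EuclideanSpace ℝ κ) : ‖P i x‖ ≤ ‖x‖ := by
  have h1 : ‖P i x‖ ^ 2 ≤ ‖x‖ ^ 2 := by
    rw [← hP x]
    exact Finset.single_le_sum (f := fun i => ‖P i x‖ ^ 2) (fun _ _ => sq_nonneg _)
      (Finset.mem_univ i)
  exact (pow_le_pow_iff_left₀ (norm_nonneg _) (norm_nonneg _) two_ne_zero).1 h1

theorem norm_sq_pz {P : ∀ i, EuclideanSpace ℝ κ →L[ℝ] Xb m i} (hP : Pars P)
    (x : EuclideanSpace ℝ κ) (z : Fc P) :
    ‖x‖ ^ 2 ≤ ∑ i, ‖P i x + (z : ∀ i, Xb m i) i‖ ^ 2 := by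
  have h1 : ∀ i, ‖P i x + (z : ∀ i, Xb m i) i‖ ^ 2 = ‖P i x‖ ^ 2 +
      2 * ⟪(z : ∀ i, Xb m i) i, P i x⟫_ℝ + ‖(z : ∀ i, Xb m i) i‖ ^ 2 := by
    intro i
    rw [norm_add_sq_real, real_inner_comm]
  simp only [h1, Finset.sum_add_distrib, ← Finset.mul_sum]
  rw [hP x, Fc_mem z x]
  have : 0 ≤ ∑ i, ‖(z : ∀ i, Xb m i) i‖ ^ 2 := Finset.sum_nonneg fun _ _ => sq_nonneg _
  linarith

theorem rh_supp {P : ∀ i, EuclideanSpace ℝ κ →L[ℝ] Xb m i} (hP : Pars P) {φ : ∀ i, Xb m i → ℝ}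
    {R : ℝ} (h : Fam φ R) (x : EuclideanSpace ℝ κ) (z : Fc P)
    (hx : (Fintype.card ι : ℝ) * R ^ 2 < ‖x‖ ^ 2) : rh P φ x z = 0 := by
  unfold rh
  by_contra hn
  rw [Finset.prod_eq_zero_iff] at hn
  push Not at hn
  have h1 : ∀ i, ‖P i x + (z : ∀ i, Xb m i) i‖ ^ 2 ≤ R ^ 2 := by
    intro i
    have h2 := hn i (Finset.mem_univ i)
    have h3 : ‖P i x + (z : ∀ i, Xb m i) i‖ ≤ R := by
      by_contra h4
      exact h2 (by rw [h.supp i _ (not_le.1 h4), ENNReal.ofReal_zero])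
    exact pow_le_pow_left₀ (norm_nonneg _) h3 2
  have h2 := norm_sq_pz hP x z
  have h3 : ∑ i, ‖P i x + (z : ∀ i, Xb m i) i‖ ^ 2 ≤ ∑ _i : ι, R ^ 2 :=
    Finset.sum_le_sum fun i _ => h1 i
  rw [Finset.sum_const, Finset.card_univ, nsmul_eq_mul] at h3
  linarith

theorem rh_bdd (P : ∀ i, EuclideanSpace ℝ κ →L[ℝ] Xb m i) {φ : ∀ i, Xb m i → ℝ} {R : ℝ}
    (h : Fam φ R) : ∃ B : ℝ, 0 < B ∧ ∀ x z, rh P φ x z ≤ ENNReal.ofReal B := by
  obtain ⟨B, hB0, hB⟩ := h.bdd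
  refine ⟨B ^ Fintype.card ι, by positivity, fun x z => ?_⟩
  unfold rh
  rw [ENNReal.ofReal_pow hB0.le, ← Finset.card_univ, ← Finset.prod_const]
  exact Finset.prod_le_prod' fun i _ => ENNReal.ofReal_le_ofReal (hB i _)

theorem rh_pos {P : ∀ i, EuclideanSpace ℝ κ →L[ℝ] Xb m i} (hP : Pars P) {φ : ∀ i, Xb m i → ℝ}
    {R : ℝ} (h : Fam φ R) : ∃ δ r : ℝ, 0 < δ ∧ 0 < r ∧ ∀ (x : EuclideanSpace ℝ κ) (z : Fc P),
      ‖x‖ < r → ‖z‖ < r → ENNReal.ofReal δ ≤ rh P φ x z := by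
  obtain ⟨δ, r, hδ, hr, hp⟩ := h.pos
  refine ⟨δ ^ Fintype.card ι, r / 2, by positivity, by positivity, fun x z hx hz => ?_⟩
  unfold rh
  rw [ENNReal.ofReal_pow hδ.le, ← Finset.card_univ, ← Finset.prod_const]
  refine Finset.prod_le_prod' fun i _ => ENNReal.ofReal_le_ofReal (hp i _ ?_)
  have h1 := norm_add_le (P i x) ((z : ∀ i, Xb m i) i)
  have h2 := norm_P_le hP i x
  have h3 : ‖(z : ∀ i, Xb m i) i‖ ≤ ‖z‖ := norm_le_pi_norm (z : ∀ i, Xb m i) i
  linarith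

/-- fibre masses with an exponential weight are finite and bounded below near `0` -/
theorem hh_fin {P : ∀ i, EuclideanSpace ℝ κ →L[ℝ] Xb m i} (hP : Pars P) {φ : ∀ i, Xb m i → ℝ}
    {R : ℝ} (h : Fam φ R) (g : EuclideanSpace ℝ κ → ℝ) (hg : Continuous g) :
    ∃ C : ℝ≥0∞, C ≠ ∞ ∧ ∀ z : Fc P, ∫⁻ x, rh P φ x z * ENNReal.ofReal (g x) ≤ C := by
  obtain ⟨B, hB0, hB⟩ := rh_bdd P h
  let D : Set (EuclideanSpace ℝ κ) := {x | ‖x‖ ^ 2 ≤ (Fintype.card ι : ℝ) * R ^ 2}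
  have hD : D ⊆ Metric.closedBall 0 (Real.sqrt ((Fintype.card ι : ℝ) * R ^ 2)) := by
    intro x hx
    rw [Metric.mem_closedBall, dist_zero_right]
    exact Real.le_sqrt_of_sq_le hx
  obtain ⟨C, hC⟩ := (isCompact_closedBall (0 : EuclideanSpace ℝ κ)
    (Real.sqrt ((Fintype.card ι : ℝ) * R ^ 2))).exists_bound_of_continuousOn hg.continuousOn
  have hDm : MeasurableSet D :=
    measurableSet_le (continuous_norm.pow 2).measurable measurable_const
  refine ⟨ENNReal.ofReal B * ENNReal.ofReal C * volume D, ?_, fun z => ?_⟩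
  · refine ENNReal.mul_ne_top (ENNReal.mul_ne_top ENNReal.ofReal_ne_top ENNReal.ofReal_ne_top) ?_
    exact ((measure_mono hD).trans_lt (isCompact_closedBall _ _).measure_lt_top).ne
  · calc ∫⁻ x, rh P φ x z * ENNReal.ofReal (g x)
        ≤ ∫⁻ x, D.indicator (fun _ => ENNReal.ofReal B * ENNReal.ofReal C) x := by
          refine lintegral_mono fun x => ?_
          by_cases hx : x ∈ D
          · rw [indicator_of_mem hx]
            refine mul_le_mul' (hB x z) (ENNReal.ofReal_le_ofReal ?_)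
            exact (le_abs_self _).trans (hC x (hD hx))
          · rw [rh_supp hP h x z (not_le.1 hx), zero_mul]
            exact zero_le
      _ = _ := by rw [lintegral_indicator_const hDm]

theorem hh_low {P : ∀ i, EuclideanSpace ℝ κ →L[ℝ] Xb m i} (hP : Pars P) {φ : ∀ i, Xb m i → ℝ}
    {R : ℝ} (h : Fam φ R) (g : EuclideanSpace ℝ κ → ℝ) (hg : Continuous g) (hg0 : ∀ x, 0 < g x) :
    ∃ δ r : ℝ, 0 < δ ∧ 0 < r ∧ ∀ z : Fc P, ‖z‖ < r → ENNReal.ofReal δ ≤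
      ∫⁻ x, rh P φ x z * ENNReal.ofReal (g x) := by
  obtain ⟨δ, r, hδ, hr, hp⟩ := rh_pos hP h
  obtain ⟨x0, -, hx0⟩ := (isCompact_closedBall (0 : EuclideanSpace ℝ κ) r).exists_isMinOn
    ⟨0, by simp [hr.le]⟩ hg.continuousOn
  have hb0 : volume (Metric.ball (0 : EuclideanSpace ℝ κ) r) ≠ 0 :=
    (Metric.measure_ball_pos _ _ hr).ne'
  have hb1 : volume (Metric.ball (0 : EuclideanSpace ℝ κ) r) ≠ ∞ :=
    (Metric.isBounded_ball.measure_lt_top).ne
  refine ⟨δ * g x0 * (volume (Metric.ball (0 : EuclideanSpace ℝ κ) r)).toReal, r, ?_, hr,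
    fun z hz => ?_⟩
  · exact mul_pos (mul_pos hδ (hg0 _)) (ENNReal.toReal_pos hb0 hb1)
  · rw [ENNReal.ofReal_mul (mul_pos hδ (hg0 _)).le, ENNReal.ofReal_toReal hb1]
    calc _ = ∫⁻ x, (Metric.ball (0 : EuclideanSpace ℝ κ) r).indicator
          (fun _ => ENNReal.ofReal (δ * g x0)) x := by
          rw [lintegral_indicator_const measurableSet_ball]
      _ ≤ _ := by
          refine lintegral_mono fun x => ?_
          by_cases hx : x ∈ Metric.ball (0 : EuclideanSpace ℝ κ) r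
          · rw [indicator_of_mem hx, ENNReal.ofReal_mul hδ.le]
            refine mul_le_mul' (hp x z (by simpa using hx) hz) (ENNReal.ofReal_le_ofReal ?_)
            exact hx0 (Metric.ball_subset_closedBall hx)
          · rw [indicator_of_notMem hx]
            exact zero_le

end Pool.Agent.Y506.KS
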