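import Mathlib

/-!
# A log-concave function lies below an exponential
-/

set_option autoImplicit false

namespace Pool.Agent.Y506.KS

open Set

theorem supergrad {F : Type*} [NormedAddCommGroup F] [NormedSpace ℝ F] (h : F → ℝ)
    (h0 : ∀ z, 0 ≤ h z)
    (hlc : ∀ x y : F, ∀ t : ℝ, 0 < t → t < 1 → h x ^ (1 - t) * h y ^ t ≤ h ((1 - t) • x + t • y))
    (δ r : ℝ) (hδ : 0 < δ) (hr : 0 < r) (hpos : ∀ z, ‖z‖ < r → δ ≤ h z) :
    ∃ θ : F →L[ℝ] ℝ, ∀ z, h z ≤ h 0 * Real.exp (θ z) := by
  have hh0 : 0 < h 0 := hδ.trans_le (hpos 0 (by simpa using hr))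
  let C : Set (F × ℝ) := {p | 0 < h p.1 ∧ p.2 < Real.log (h p.1)}
  have hC : Convex ℝ C := by
    intro p hp q hq a b ha hb hab
    rcases ha.eq_or_lt with ha | ha
    · have hb1 : b = 1 := by linarith
      subst hb1
      rw [← ha]; simpa using hq
    rcases hb.eq_or_lt with hb | hb
    · have ha1 : a = 1 := by linarith
      subst ha1
      rw [← hb]; simpa using hp
    have ha1 : a = 1 - b := by linarith
    have key := hlc p.1 q.1 b hb (by linarith)
    rw [← ha1] at key
    have hpos' : 0 < h p.1 ^ a * h q.1 ^ b :=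
      mul_pos (Real.rpow_pos_of_pos hp.1 _) (Real.rpow_pos_of_pos hq.1 _)
    refine ⟨?_, ?_⟩
    · exact lt_of_lt_of_le hpos' key
    · have h1 : Real.log (h p.1 ^ a * h q.1 ^ b) ≤ Real.log (h (a • p.1 + b • q.1)) :=
        Real.log_le_log hpos' key
      rw [Real.log_mul (Real.rpow_pos_of_pos hp.1 _).ne' (Real.rpow_pos_of_pos hq.1 _).ne',
        Real.log_rpow hp.1, Real.log_rpow hq.1] at h1
      have h2 : (a • p + b • q).2 = a * p.2 + b * q.2 := rfl
      have h3 : (a • p + b • q).1 = a • p.1 + b • q.1 := rfl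
      rw [h2, h3]
      have h4 := mul_lt_mul_of_pos_left hp.2 ha
      have h5 := mul_lt_mul_of_pos_left hq.2 hb
      linarith
  have hint : ((0 : F), Real.log δ - 1) ∈ interior C := by
    rw [mem_interior_iff_mem_nhds]
    have h1 : Metric.ball (0 : F) r ×ˢ Iio (Real.log δ) ∈ nhds ((0 : F), Real.log δ - 1) :=
      prod_mem_nhds (Metric.ball_mem_nhds _ hr) (Iio_mem_nhds (by linarith))
    refine Filter.mem_of_superset h1 ?_
    rintro ⟨z, y⟩ ⟨hz, hy⟩
    have hz' := hpos z (by simpa using hz)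
    refine ⟨hδ.trans_le hz', ?_⟩
    exact lt_of_lt_of_le hy (Real.log_le_log hδ hz')
  have hnot : ((0 : F), Real.log (h 0)) ∉ C := fun hp => lt_irrefl _ hp.2
  obtain ⟨f, u, hf0, hfC, hfu⟩ := geometric_hahn_banach_of_nonempty_interior hC
    (convex_singleton ((0 : F), Real.log (h 0)))
    (Set.disjoint_singleton_right.2 fun hp => hnot (interior_subset hp)) ⟨_, hint⟩
    (Set.singleton_nonempty _)
  have hu : u ≤ f (0, Real.log (h 0)) := hfu _ rfl
  -- decompose
  have hdec : ∀ z y, f (z, y) = f (z, 0) + y * f (0, 1) := by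
    intro z y
    have : ((z, y) : F × ℝ) = (z, 0) + y • ((0 : F), (1 : ℝ)) := by
      ext <;> simp
    rw [this, map_add, map_smul, smul_eq_mul]
  -- the vertical component is positive
  set κ := f (0, 1) with hκ
  have hfC' : ∀ z y, 0 < h z → y < Real.log (h z) → f (z, 0) + y * κ ≤ Real.log (h 0) * κ := by
    intro z y hz hy
    have h1 := (hfC (z, y) ⟨hz, hy⟩).trans hu
    rw [hdec, hdec 0] at h1
    have h2 : f ((0 : F), (0 : ℝ)) = 0 := by
      have : ((0 : F), (0 : ℝ)) = 0 := rfl
      rw [this, map_zero]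
    linarith
  have hf00 : f ((0 : F), (0 : ℝ)) = 0 := by
    have : ((0 : F), (0 : ℝ)) = 0 := rfl
    rw [this, map_zero]
  have hκ0 : 0 ≤ κ := by
    have h1 := hfC' 0 (Real.log (h 0) - 1) hh0 (by linarith)
    rw [hf00] at h1
    linarith
  have hκ1 : 0 < κ := by
    rcases hκ0.eq_or_lt with hk | hk
    · exfalso
      -- f vanishes
      apply hf0
      have h1 : ∀ z : F, ‖z‖ < r → f (z, 0) ≤ 0 := by
        intro z hz
        have h2 := hpos z hz
        have h3 := hfC' z (Real.log (h z) - 1) (hδ.trans_le h2) (by linarith)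
        rw [← hk] at h3
        linarith
      have h2 : ∀ z : F, ‖z‖ < r → f (z, 0) = 0 := by
        intro z hz
        have h3 := h1 z hz
        have h4 := h1 (-z) (by simpa using hz)
        have h5 : f (-z, 0) = - f (z, 0) := by
          have : ((-z, 0) : F × ℝ) = -(z, 0) := by simp
          rw [this, map_neg]
        linarith
      have h3 : ∀ z : F, f (z, 0) = 0 := by
        intro z
        by_cases hz : z = 0
        · rw [hz, hf00]
        have hz' : 0 < ‖z‖ := norm_pos_iff.2 hz
        have h4 := h2 ((r / (2 * ‖z‖)) • z) (by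
          rw [norm_smul, Real.norm_of_nonneg (by positivity)]
          field_simp
          linarith)
        have h5 : (((r / (2 * ‖z‖)) • z, 0) : F × ℝ) = (r / (2 * ‖z‖)) • (z, 0) := by simp
        rw [h5, map_smul, smul_eq_mul] at h4
        rcases mul_eq_zero.1 h4 with h6 | h6
        · exfalso
          have : 0 < r / (2 * ‖z‖) := by positivity
          linarith
        · exact h6
      refine ContinuousLinearMap.ext fun p => ?_
      have h4 : f p = f (p.1, 0) + p.2 * κ := hdec p.1 p.2
      rw [h4, h3, ← hk]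
      simp
    · exact hk
  refine ⟨-(κ⁻¹ • f.comp (ContinuousLinearMap.inl ℝ F ℝ)), fun z => ?_⟩
  rcases (h0 z).eq_or_lt with hz | hz
  · rw [← hz]; positivity
  · have h1 : f (z, 0) + Real.log (h z) * κ ≤ Real.log (h 0) * κ := by
      by_contra hcon
      push Not at hcon
      obtain ⟨ε, hε, hε'⟩ : ∃ ε : ℝ, 0 < ε ∧ Real.log (h 0) * κ < f (z, 0) +
          (Real.log (h z) - ε) * κ := by
        refine ⟨(f (z, 0) + Real.log (h z) * κ - Real.log (h 0) * κ) / (2 * κ), ?_, ?_⟩
        · apply div_pos _ (by positivity)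
          linarith
        · have : (f (z, 0) + Real.log (h z) * κ - Real.log (h 0) * κ) / (2 * κ) * κ =
            (f (z, 0) + Real.log (h z) * κ - Real.log (h 0) * κ) / 2 := by
            field_simp
          rw [sub_mul, this]
          linarith
      have := hfC' z (Real.log (h z) - ε) hz (by linarith)
      linarith
    have h2 : Real.log (h z) ≤ Real.log (h 0) - κ⁻¹ * f (z, 0) := by
      have h3 : (f (z, 0) + Real.log (h z) * κ) * κ⁻¹ ≤ Real.log (h 0) * κ * κ⁻¹ :=
        mul_le_mul_of_nonneg_right h1 (by positivity)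
      have h4 : Real.log (h 0) * κ * κ⁻¹ = Real.log (h 0) := by field_simp
      have h5 : (f (z, 0) + Real.log (h z) * κ) * κ⁻¹ = κ⁻¹ * f (z, 0) + Real.log (h z) := by
        field_simp
      rw [h4, h5] at h3
      linarith
    calc h z = Real.exp (Real.log (h z)) := (Real.exp_log hz).symm
      _ ≤ Real.exp (Real.log (h 0) - κ⁻¹ * f (z, 0)) := Real.exp_le_exp.2 h2
      _ = h 0 * Real.exp (-(κ⁻¹ * f (z, 0))) := by
        rw [sub_eq_add_neg, Real.exp_add, Real.exp_log hh0]
      _ = _ := by simp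

end Pool.Agent.Y506.KS
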