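import Pool.Agent.Y506.KS.Up
import Pool.Agent.Y506.KS.Grad

/-!
# Even log-concave functions: a linear function small on the central section is small after a shear
-/

set_option autoImplicit false

namespace Pool.Agent.Y506.KS

open MeasureTheory Set
open scoped ENNReal

variable {E F : Type*} [NormedAddCommGroup E] [NormedSpace ℝ E] [FiniteDimensional ℝ E]
  [MeasurableSpace E] [BorelSpace E] [NormedAddCommGroup F] [NormedSpace ℝ F]
  [FiniteDimensional ℝ F] [MeasurableSpace F] [BorelSpace F]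

theorem hh_lc (μ : Measure E) [μ.IsAddHaarMeasure] (ρ : E → F → ℝ≥0∞)
    (hm : Measurable (Function.uncurry ρ)) (hlc : LCE ρ) (z w : F) (t : ℝ) (ht0 : 0 < t)
    (ht1 : t < 1) : hh μ ρ z ^ (1 - t) * hh μ ρ w ^ t ≤ hh μ ρ ((1 - t) • z + t • w) :=
  Pool.Agent.H212R2.KLS.PL μ t ht0 ht1 (fun x => ρ x z) (fun x => ρ x w)
    (fun x => ρ x ((1 - t) • z + t • w)) (hm.comp (measurable_id.prodMk measurable_const))
    (hm.comp (measurable_id.prodMk measurable_const))
    (hm.comp (measurable_id.prodMk measurable_const)) fun x y => hlc x y z w t ht0 ht1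

theorem hh_neg (μ : Measure E) [μ.IsAddHaarMeasure] (ρ : E → F → ℝ≥0∞)
    (hev : ∀ x z, ρ (-x) (-z) = ρ x z) (z : F) : hh μ ρ (-z) = hh μ ρ z := by
  unfold hh
  rw [← lintegral_neg_eq_self (μ := μ) (fun x => ρ x (-z))]
  refine lintegral_congr fun x => ?_
  rw [hev]

theorem hh_mode (μ : Measure E) [μ.IsAddHaarMeasure] (ρ : E → F → ℝ≥0∞)
    (hm : Measurable (Function.uncurry ρ)) (hlc : LCE ρ) (hev : ∀ x z, ρ (-x) (-z) = ρ x z)
    (z : F) : hh μ ρ z ≤ hh μ ρ 0 := by
  have h1 := hh_lc μ ρ hm hlc z (-z) (1 / 2) (by norm_num) (by norm_num)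
  rw [hh_neg μ ρ hev, ← ENNReal.rpow_add_of_nonneg _ _ (by norm_num) (by norm_num)] at h1
  have e : ((1 - 1 / 2 : ℝ) • z + (1 / 2 : ℝ) • -z) = 0 := by
    rw [smul_neg, ← sub_eq_add_neg, ← sub_smul]; norm_num
  rw [e] at h1
  norm_num at h1
  exact h1

/-- multiplication by an exponential of a linear function -/
theorem lce_exp (ρ : E → F → ℝ≥0∞) (hlc : LCE ρ) (l : E →L[ℝ] ℝ) (θ : F →L[ℝ] ℝ) :
    LCE fun x z => ρ x z * ENNReal.ofReal (Real.exp (l x + θ z)) := by
  intro x y z w t ht0 ht1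
  have ht1' : 0 < 1 - t := by linarith
  have e1 : ENNReal.ofReal (Real.exp (l ((1 - t) • x + t • y) + θ ((1 - t) • z + t • w))) =
      ENNReal.ofReal (Real.exp (l x + θ z)) ^ (1 - t) *
      ENNReal.ofReal (Real.exp (l y + θ w)) ^ t := by
    rw [ENNReal.ofReal_rpow_of_pos (Real.exp_pos _), ENNReal.ofReal_rpow_of_pos (Real.exp_pos _),
      ← ENNReal.ofReal_mul (by positivity), ← Real.exp_mul, ← Real.exp_mul, ← Real.exp_add]
    congr 2
    simp only [map_add, map_smul, smul_eq_mul]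
    ring
  simp only
  rw [ENNReal.mul_rpow_of_nonneg _ _ ht1'.le, ENNReal.mul_rpow_of_nonneg _ _ ht0.le, e1]
  calc _ = (ρ x z ^ (1 - t) * ρ y w ^ t) * (ENNReal.ofReal (Real.exp (l x + θ z)) ^ (1 - t) *
      ENNReal.ofReal (Real.exp (l y + θ w)) ^ t) := by ring
    _ ≤ _ := mul_le_mul' (hlc x y z w t ht0 ht1) le_rfl

theorem supergradE (h : F → ℝ≥0∞) (hfin : ∀ z, h z ≠ ∞)
    (hlc : ∀ x y : F, ∀ t : ℝ, 0 < t → t < 1 → h x ^ (1 - t) * h y ^ t ≤ h ((1 - t) • x + t • y))
    (δ r : ℝ) (hδ : 0 < δ) (hr : 0 < r) (hpos : ∀ z, ‖z‖ < r → ENNReal.ofReal δ ≤ h z) :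
    ∃ θ : F →L[ℝ] ℝ, ∀ z, h z ≤ h 0 * ENNReal.ofReal (Real.exp (θ z)) := by
  obtain ⟨θ, hθ⟩ := supergrad (fun z => (h z).toReal) (fun z => ENNReal.toReal_nonneg)
    (by
      intro x y t ht0 ht1
      have h1 := ENNReal.toReal_mono (hfin _) (hlc x y t ht0 ht1)
      rw [ENNReal.toReal_mul, ← ENNReal.toReal_rpow, ← ENNReal.toReal_rpow] at h1
      exact h1) δ r hδ hr (by
      intro z hz
      have h1 := ENNReal.toReal_mono (hfin _) (hpos z hz)
      rwa [ENNReal.toReal_ofReal hδ.le] at h1)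
  refine ⟨θ, fun z => ?_⟩
  have h1 := hθ z
  have h2 := ENNReal.ofReal_le_ofReal h1
  rw [ENNReal.ofReal_mul ENNReal.toReal_nonneg, ENNReal.ofReal_toReal (hfin _),
    ENNReal.ofReal_toReal (hfin _)] at h2
  exact h2

theorem sq_le_aux (y L : ℝ) (hL : 0 ≤ L) :
    y ^ 2 ≤ 2 * L ^ 2 + 4 * Real.exp (-L) * (Real.exp y + Real.exp (-y)) := by
  have h1 : Real.exp |y| ≤ Real.exp y + Real.exp (-y) := by
    rcases abs_cases y with ⟨h, _⟩ | ⟨h, _⟩ <;> rw [h]
    · linarith [Real.exp_pos (-y)]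
    · linarith [Real.exp_pos y]
  have h2 : y ^ 2 ≤ 2 * L ^ 2 + 4 * Real.exp (|y| - L) := by
    rcases le_or_gt |y| L with h | h
    · have : y ^ 2 ≤ L ^ 2 := by
        rw [← sq_abs y]
        exact pow_le_pow_left₀ (abs_nonneg _) h 2
      nlinarith [Real.exp_pos (|y| - L), sq_nonneg L]
    · have h3 := Real.quadratic_le_exp_of_nonneg (by linarith : 0 ≤ |y| - L)
      rw [← sq_abs y]
      nlinarith [sq_nonneg (|y| - L - L), sq_nonneg (|y| - 2 * L)]
  have h3 : Real.exp (|y| - L) = Real.exp (-L) * Real.exp |y| := by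
    rw [← Real.exp_add]; ring_nf
  rw [h3] at h2
  have h4 : Real.exp (-L) * Real.exp |y| ≤ Real.exp (-L) * (Real.exp y + Real.exp (-y)) :=
    mul_le_mul_of_nonneg_left h1 (Real.exp_pos _).le
  linarith

theorem log_sq_aux (a b t : ℝ) (ha : 0 < a) (hab : a ≤ b) (ht1 : t < 1) :
    Real.log (b / a) ^ 2 * a ≤ 4 * (1 - t)⁻¹ ^ 2 * (a ^ t * b ^ (1 - t)) := by
  have hε : 0 < 1 - t := by linarith
  have hb : 0 < b := ha.trans_le hab
  have hu : 1 ≤ b / a := by rwa [le_div_iff₀ ha, one_mul]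
  have h1 := Real.log_le_rpow_div (by positivity : 0 ≤ b / a) (by linarith : 0 < (1 - t) / 2)
  have h0 : 0 ≤ Real.log (b / a) := Real.log_nonneg hu
  have h2 : Real.log (b / a) ^ 2 ≤ ((b / a) ^ ((1 - t) / 2) / ((1 - t) / 2)) ^ 2 :=
    pow_le_pow_left₀ h0 h1 2
  have h3 : ((b / a) ^ ((1 - t) / 2) / ((1 - t) / 2)) ^ 2 = 4 * (1 - t)⁻¹ ^ 2 *
      (b / a) ^ (1 - t) := by
    rw [div_pow, ← Real.rpow_natCast ((b / a) ^ ((1 - t) / 2)) 2, ← Real.rpow_mul (by positivity)]
    have : (1 - t) / 2 * ((2 : ℕ) : ℝ) = 1 - t := by push_cast; ring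
    rw [this]
    field_simp
    norm_num
  have h4 : (b / a) ^ (1 - t) * a = a ^ t * b ^ (1 - t) := by
    rw [Real.div_rpow hb.le ha.le]
    have h5 : a ^ (1 - t) * a ^ t = a := by
      rw [← Real.rpow_add ha, sub_add_cancel, Real.rpow_one]
    have h6 : 0 < a ^ (1 - t) := Real.rpow_pos_of_pos ha _
    rw [div_mul_eq_mul_div, div_eq_iff h6.ne']
    calc b ^ (1 - t) * a = b ^ (1 - t) * (a ^ (1 - t) * a ^ t) := by rw [h5]
      _ = _ := by ring
  rw [h3] at h2
  calc Real.log (b / a) ^ 2 * a ≤ (4 * (1 - t)⁻¹ ^ 2 * (b / a) ^ (1 - t)) * a :=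
        mul_le_mul_of_nonneg_right h2 ha.le
    _ = 4 * (1 - t)⁻¹ ^ 2 * ((b / a) ^ (1 - t) * a) := by ring
    _ = _ := by rw [h4]

/-- if `l` has a bounded exponential moment on the central section of an even log-concave function
then the second moment of `l - θ` is bounded for some linear function `θ` of the normal variable -/
theorem lower (μ : Measure E) [μ.IsAddHaarMeasure] (ν : Measure F) [ν.IsAddHaarMeasure]
    (l : E →L[ℝ] ℝ) (ρ : E → F → ℝ≥0∞) (hm : Measurable (Function.uncurry ρ)) (hlc : LCE ρ)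
    (hev : ∀ x z, ρ (-x) (-z) = ρ x z) (t : ℝ) (ht0 : 0 < t) (ht1 : t < 1)
    (hfin : ∀ z, hh μ ρ z ≠ ∞)
    (hfin' : ∀ z, hh μ (fun x z => ρ x z * ENNReal.ofReal (Real.exp (l x))) z ≠ ∞)
    (δ r : ℝ) (hδ : 0 < δ) (hr : 0 < r)
    (hpos : ∀ z, ‖z‖ < r → ENNReal.ofReal δ ≤
      hh μ (fun x z => ρ x z * ENNReal.ofReal (Real.exp (l x))) z) (K : ℝ≥0∞)
    (hK : hh μ (fun x z => ρ x z * ENNReal.ofReal (Real.exp (l x))) (0 : F) ≤ K * hh μ ρ 0) :
    ∃ θ : F →L[ℝ] ℝ, ∫⁻ z, ∫⁻ x, ENNReal.ofReal ((l x - θ z) ^ 2) * ρ x z ∂μ ∂ν ≤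
      (8 * (ENNReal.ofReal ((1 - t)⁻¹ ^ 2) * ENNReal.ofReal (t⁻¹ ^ Module.finrank ℝ F)) +
        8 * K) * ∫⁻ z, hh μ ρ z ∂ν := by
  have ht1' : 0 < 1 - t := by linarith
  have hl : Measurable l := l.continuous.measurable
  let R : E → F → ℝ≥0∞ := fun x z => ρ x z * ENNReal.ofReal (Real.exp (l x))
  have hRm : Measurable (Function.uncurry R) :=
    hm.mul (ENNReal.measurable_ofReal.comp (Real.measurable_exp.comp (hl.comp measurable_fst)))
  have hRlc : LCE R := by
    have := lce_exp ρ hlc l 0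
    simpa [R] using this
  obtain ⟨θ, hθ⟩ := supergradE (hh μ R) hfin' (fun z w t h1 h2 => hh_lc μ R hRm hRlc z w t h1 h2)
    δ r hδ hr hpos
  refine ⟨θ, ?_⟩
  have mh : Measurable fun z => hh μ ρ z := by
    unfold hh
    exact Measurable.lintegral_prod_left' hm
  -- the two exponential moments
  have P1 : ∀ z, ∫⁻ x, ρ x z * ENNReal.ofReal (Real.exp (l x - θ z)) ∂μ ≤ K * hh μ ρ 0 := by
    intro z
    have e1 : ∀ x, ρ x z * ENNReal.ofReal (Real.exp (l x - θ z)) =
        R x z * ENNReal.ofReal (Real.exp (-θ z)) := by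
      intro x
      simp only [R]
      rw [sub_eq_add_neg, Real.exp_add, ENNReal.ofReal_mul (Real.exp_pos _).le, mul_assoc]
    simp only [e1]
    have mRz : Measurable fun x => R x z := hRm.comp (measurable_id.prodMk measurable_const)
    rw [lintegral_mul_const _ mRz]
    refine le_trans (mul_le_mul' (hθ z) le_rfl) ?_
    rw [mul_assoc, ← ENNReal.ofReal_mul (Real.exp_pos _).le, ← Real.exp_add, add_neg_cancel,
      Real.exp_zero, ENNReal.ofReal_one, mul_one]
    exact hK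
  have P2 : ∀ z, ∫⁻ x, ρ x z * ENNReal.ofReal (Real.exp (-(l x - θ z))) ∂μ ≤ K * hh μ ρ 0 := by
    intro z
    have h1 := P1 (-z)
    rw [← lintegral_neg_eq_self (μ := μ)] at h1
    refine le_trans (le_of_eq (lintegral_congr fun x => ?_)) h1
    rw [hev]
    congr 3
    simp only [map_neg]
    ring
  have e0 : ∀ z, hh μ ρ z ≤ hh μ ρ 0 := hh_mode μ ρ hm hlc hev
  -- fibrewise
  have P3 : ∀ z, ∫⁻ x, ENNReal.ofReal ((l x - θ z) ^ 2) * ρ x z ∂μ ≤
      8 * ENNReal.ofReal ((1 - t)⁻¹ ^ 2) * hh μ ρ (t • z) + 8 * K * hh μ ρ z := by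
    intro z
    have mρz : Measurable fun x => ρ x z := hm.comp (measurable_id.prodMk measurable_const)
    by_cases hz : hh μ ρ z = 0
    · have h1 : (fun x => ρ x z) =ᵐ[μ] 0 := (lintegral_eq_zero_iff mρz).1 hz
      have h2 : ∫⁻ x, ENNReal.ofReal ((l x - θ z) ^ 2) * ρ x z ∂μ = 0 := by
        rw [lintegral_congr_ae (g := fun _ => 0)]
        · simp
        · filter_upwards [h1] with x hx
          have : ρ x z = 0 := hx
          rw [this, mul_zero]
      rw [h2]; exact zero_le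
    · have h0' : hh μ ρ 0 ≠ 0 := fun h => hz (le_antisymm (h ▸ e0 z) zero_le)
      set a := (hh μ ρ z).toReal with ha
      set b := (hh μ ρ 0).toReal with hb
      have ha0 : 0 < a := ENNReal.toReal_pos hz (hfin z)
      have hb0 : 0 < b := ENNReal.toReal_pos h0' (hfin 0)
      have hab : a ≤ b := ENNReal.toReal_mono (hfin 0) (e0 z)
      have ea : hh μ ρ z = ENNReal.ofReal a := (ENNReal.ofReal_toReal (hfin z)).symm
      have eb : hh μ ρ 0 = ENNReal.ofReal b := (ENNReal.ofReal_toReal (hfin 0)).symm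
      set L := Real.log (b / a) with hL
      have hL0 : 0 ≤ L := Real.log_nonneg (by rwa [le_div_iff₀ ha0, one_mul])
      have hexpL : Real.exp (-L) = a / b := by
        rw [Real.exp_neg, hL, Real.exp_log (by positivity), inv_div]
      have h1 : ∀ x, ENNReal.ofReal ((l x - θ z) ^ 2) * ρ x z ≤
          ENNReal.ofReal (2 * L ^ 2) * ρ x z + ENNReal.ofReal (4 * Real.exp (-L)) *
          (ρ x z * ENNReal.ofReal (Real.exp (l x - θ z)) +
            ρ x z * ENNReal.ofReal (Real.exp (-(l x - θ z)))) := by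
        intro x
        have h2 := sq_le_aux (l x - θ z) L hL0
        have h3 := ENNReal.ofReal_le_ofReal h2
        rw [ENNReal.ofReal_add (by positivity) (by positivity),
          ENNReal.ofReal_mul (by positivity : 0 ≤ 4 * Real.exp (-L)),
          ENNReal.ofReal_add (Real.exp_pos _).le (Real.exp_pos _).le] at h3
        calc _ ≤ _ := mul_le_mul' h3 le_rfl
          _ = _ := by ring
      have m1 : Measurable fun x => ρ x z * ENNReal.ofReal (Real.exp (l x - θ z)) :=
        mρz.mul (ENNReal.measurable_ofReal.comp (Real.measurable_exp.comp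
          (hl.sub measurable_const)))
      have m2 : Measurable fun x => ρ x z * ENNReal.ofReal (Real.exp (-(l x - θ z))) :=
        mρz.mul (ENNReal.measurable_ofReal.comp (Real.measurable_exp.comp
          (hl.sub measurable_const).neg))
      have h4 : ∫⁻ x, ENNReal.ofReal ((l x - θ z) ^ 2) * ρ x z ∂μ ≤
          ENNReal.ofReal (2 * L ^ 2) * hh μ ρ z + ENNReal.ofReal (4 * Real.exp (-L)) *
          (K * hh μ ρ 0 + K * hh μ ρ 0) := by
        refine (lintegral_mono h1).trans ?_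
        have m12 : Measurable fun x => ρ x z * ENNReal.ofReal (Real.exp (l x - θ z)) +
            ρ x z * ENNReal.ofReal (Real.exp (-(l x - θ z))) := m1.add m2
        rw [lintegral_add_left (mρz.const_mul _), lintegral_const_mul _ mρz,
          lintegral_const_mul _ m12, lintegral_add_left m1]
        gcongr
        · exact le_rfl
        · exact P1 z
        · exact P2 z
      refine h4.trans (add_le_add ?_ ?_)
      · have h5 := log_sq_aux a b t ha0 hab ht1
        have h6 : hh μ ρ z ^ t * hh μ ρ 0 ^ (1 - t) ≤ hh μ ρ (t • z) := by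
          have := hh_lc μ ρ hm hlc 0 z t ht0 ht1
          rw [smul_zero, zero_add, mul_comm] at this
          exact this
        calc ENNReal.ofReal (2 * L ^ 2) * hh μ ρ z = ENNReal.ofReal (2 * (L ^ 2 * a)) := by
              rw [ea, ← ENNReal.ofReal_mul (by positivity)]; ring_nf
          _ ≤ ENNReal.ofReal (2 * (4 * (1 - t)⁻¹ ^ 2 * (a ^ t * b ^ (1 - t)))) :=
              ENNReal.ofReal_le_ofReal (by linarith)
          _ = 8 * ENNReal.ofReal ((1 - t)⁻¹ ^ 2) * (hh μ ρ z ^ t * hh μ ρ 0 ^ (1 - t)) := by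
              rw [ea, eb, ENNReal.ofReal_rpow_of_pos ha0, ENNReal.ofReal_rpow_of_pos hb0,
                ← ENNReal.ofReal_mul (by positivity), ← ENNReal.ofReal_ofNat 8,
                ← ENNReal.ofReal_mul (by norm_num), ← ENNReal.ofReal_mul (by positivity)]
              ring_nf
          _ ≤ _ := by gcongr
      · rw [hexpL, eb, ea]
        calc ENNReal.ofReal (4 * (a / b)) * (K * ENNReal.ofReal b + K * ENNReal.ofReal b)
            = K * (2 * (ENNReal.ofReal (4 * (a / b)) * ENNReal.ofReal b)) := by ring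
          _ = K * ENNReal.ofReal (8 * a) := by
              rw [← ENNReal.ofReal_mul (by positivity), ← ENNReal.ofReal_ofNat 2,
                ← ENNReal.ofReal_mul (by norm_num)]
              congr 2
              field_simp
              norm_num
          _ ≤ 8 * K * ENNReal.ofReal a := by
              rw [ENNReal.ofReal_mul (by norm_num : (0 : ℝ) ≤ 8), ENNReal.ofReal_ofNat]
              exact le_of_eq (by ring)
  calc ∫⁻ z, ∫⁻ x, ENNReal.ofReal ((l x - θ z) ^ 2) * ρ x z ∂μ ∂ν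
      ≤ ∫⁻ z, (8 * ENNReal.ofReal ((1 - t)⁻¹ ^ 2) * hh μ ρ (t • z) + 8 * K * hh μ ρ z) ∂ν :=
        lintegral_mono P3
    _ = 8 * ENNReal.ofReal ((1 - t)⁻¹ ^ 2) * ∫⁻ z, hh μ ρ (t • z) ∂ν +
        8 * K * ∫⁻ z, hh μ ρ z ∂ν := by
        have m3 : Measurable fun z : F => hh μ ρ (t • z) := mh.comp (measurable_const_smul t)
        rw [lintegral_add_left (m3.const_mul _), lintegral_const_mul _ m3, lintegral_const_mul _ mh]
    _ = _ := by
        have h2 := lintegral_map (μ := ν) mh (measurable_const_smul t)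
        rw [Measure.map_addHaar_smul ν ht0.ne', lintegral_smul_measure] at h2
        rw [← h2, smul_eq_mul, abs_of_pos (by positivity), inv_pow]
        ring

end Pool.Agent.Y506.KS
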