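import Mathlib

/-!
# One-dimensional estimates for `exp (- β |s| ^ p + a s - b s ^ 2)`, `p ≥ 2`
-/

set_option autoImplicit false

namespace Pool.Agent.Y506.KS

open MeasureTheory Set

theorem rpow_superadd {x y r : ℝ} (hx : 0 ≤ x) (hy : 0 ≤ y) (hr : 1 ≤ r) :
    x ^ r + y ^ r ≤ (x + y) ^ r := by
  have h := NNReal.add_rpow_le_rpow_add (⟨x, hx⟩ : NNReal) ⟨y, hy⟩ hr
  exact_mod_cast h

theorem sg_pos {x p : ℝ} (hx : 0 ≤ x) (hp : 2 ≤ p) : |x| ^ (p - 2) * x = x ^ (p - 1) := by
  rcases eq_or_lt_of_le hx with h | h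
  · rw [← h, mul_zero, Real.zero_rpow (by linarith)]
  · rw [abs_of_pos h]
    have : p - 1 = (p - 2) + 1 := by ring
    rw [this, Real.rpow_add_one h.ne']

theorem sg_le_aux {p u z : ℝ} (hp : 2 ≤ p) (hu : 0 ≤ u) (hz : 0 ≤ z) :
    2 * (|u| ^ (p - 2) * u) ≤ |u + z| ^ (p - 2) * (u + z) + |u - z| ^ (p - 2) * (u - z) := by
  have hr : 1 ≤ p - 1 := by linarith
  rw [sg_pos hu hp, sg_pos (add_nonneg hu hz) hp]
  rcases le_total z u with h | h
  · rw [sg_pos (sub_nonneg.2 h) hp]
    have hm1 : u + z ∈ Ici (0 : ℝ) := add_nonneg hu hz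
    have hm2 : u - z ∈ Ici (0 : ℝ) := sub_nonneg.2 h
    have h1 := (convexOn_rpow hr).2 hm1 hm2 (by norm_num : (0 : ℝ) ≤ 1 / 2)
      (by norm_num : (0 : ℝ) ≤ 1 / 2) (by norm_num)
    simp only [smul_eq_mul] at h1
    have e : 1 / 2 * (u + z) + 1 / 2 * (u - z) = u := by ring
    rw [e] at h1
    linarith
  · have e : |u - z| ^ (p - 2) * (u - z) = -(z - u) ^ (p - 1) := by
      rw [← sg_pos (sub_nonneg.2 h) hp, abs_sub_comm]
      ring
    rw [e]
    have h1 := rpow_superadd (sub_nonneg.2 h) (by linarith : 0 ≤ 2 * u) hr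
    have e2 : z - u + 2 * u = u + z := by ring
    rw [e2] at h1
    have h2 : 2 * u ^ (p - 1) ≤ (2 * u) ^ (p - 1) := by
      have h3 := rpow_superadd hu hu hr
      have e3 : u + u = 2 * u := by ring
      rw [e3] at h3
      linarith
    linarith

theorem sg_le {p u z : ℝ} (hp : 2 ≤ p) (hu : 0 ≤ u) :
    2 * (|u| ^ (p - 2) * u) ≤ |u + z| ^ (p - 2) * (u + z) + |u - z| ^ (p - 2) * (u - z) := by
  rcases le_total 0 z with h | h
  · exact sg_le_aux hp hu h
  · have h1 := sg_le_aux hp hu (neg_nonneg.2 h)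
    rw [sub_neg_eq_add, ← sub_eq_add_neg] at h1
    linarith

/-- the defect in the Clarkson inequality -/
noncomputable def DD (p z u : ℝ) : ℝ := |z + u| ^ p + |z - u| ^ p - 2 * |u| ^ p

theorem DD_mono_aux {p z : ℝ} (hp : 2 ≤ p) : MonotoneOn (DD p z) (Ici 0) := by
  have hp1 : 1 < p := by linarith
  have hd : ∀ u, HasDerivAt (DD p z) (p * |z + u| ^ (p - 2) * (z + u) -
      p * |z - u| ^ (p - 2) * (z - u) - 2 * (p * |u| ^ (p - 2) * u)) u := by
    intro u
    have h1 : HasDerivAt (fun u => |z + u| ^ p) (p * |z + u| ^ (p - 2) * (z + u)) u := by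
      have := (hasDerivAt_abs_rpow (z + u) hp1).comp u ((hasDerivAt_id u).const_add z)
      simp only [mul_one] at this
      exact this
    have h2 : HasDerivAt (fun u => |z - u| ^ p) (-(p * |z - u| ^ (p - 2) * (z - u))) u := by
      have := (hasDerivAt_abs_rpow (z - u) hp1).comp u ((hasDerivAt_id u).const_sub z)
      simp only [mul_neg, mul_one] at this
      exact this
    have h3 := (hasDerivAt_abs_rpow u hp1).const_mul 2
    have h4 := (h1.add h2).sub h3
    exact h4
  refine monotoneOn_of_deriv_nonneg (convex_Ici 0) (fun u _ => (hd u).continuousAt.continuousWithinAt)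
    (fun u _ => (hd u).differentiableAt.differentiableWithinAt) ?_
  intro u hu
  rw [interior_Ici] at hu
  rw [(hd u).deriv]
  have h1 := sg_le (z := z) hp (le_of_lt hu)
  have e1 : p * |z + u| ^ (p - 2) * (z + u) = p * (|u + z| ^ (p - 2) * (u + z)) := by
    rw [add_comm z u]; ring
  have e2 : p * |z - u| ^ (p - 2) * (z - u) = -(p * (|u - z| ^ (p - 2) * (u - z))) := by
    rw [abs_sub_comm z u]; ring
  rw [e1, e2]
  nlinarith

theorem DD_even (p z u : ℝ) : DD p z |u| = DD p z u := by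
  unfold DD
  rw [abs_abs]
  rcases abs_cases u with ⟨h, -⟩ | ⟨h, -⟩
  · rw [h]
  · rw [h, sub_neg_eq_add, ← sub_eq_add_neg]
    ring

theorem DD_mono {p z u u' : ℝ} (hp : 2 ≤ p) (h : |u| ≤ |u'|) : DD p z u ≤ DD p z u' := by
  rw [← DD_even p z u, ← DD_even p z u']
  exact DD_mono_aux hp (abs_nonneg u) (abs_nonneg u') h

theorem sq_le_one_add {p s : ℝ} (hp : 2 ≤ p) : s ^ 2 ≤ 1 + |s| ^ p := by
  rcases le_total |s| 1 with h | h
  · have h1 : s ^ 2 ≤ 1 := by rw [← sq_abs]; nlinarith [abs_nonneg s]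
    have h2 : 0 ≤ |s| ^ p := by positivity
    linarith
  · have h1 : |s| ^ (2 : ℝ) ≤ |s| ^ p := Real.rpow_le_rpow_of_exponent_le h hp
    rw [Real.rpow_two, sq_abs] at h1
    linarith

/-- a Gaussian bound -/
theorem gbound {p β a b : ℝ} (hp : 2 ≤ p) (hβ : 0 < β) (hb : 0 ≤ b) (s : ℝ) :
    Real.exp (-(β * |s| ^ p) + a * s - b * s ^ 2) ≤
      Real.exp (β + a ^ 2 / (2 * β)) * Real.exp (-(β / 2) * s ^ 2) := by
  rw [← Real.exp_add]
  refine Real.exp_le_exp.2 ?_
  have h1 := mul_le_mul_of_nonneg_left (sq_le_one_add (s := s) hp) hβ.le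
  have h2 : a * s ≤ a ^ 2 / (2 * β) + β / 2 * s ^ 2 := by
    have h3 : 0 ≤ (a - β * s) ^ 2 / (2 * β) := by positivity
    have h4 : (a - β * s) ^ 2 / (2 * β) = a ^ 2 / (2 * β) + β / 2 * s ^ 2 - a * s := by
      field_simp
      ring
    linarith
  have h3 : 0 ≤ b * s ^ 2 := by positivity
  nlinarith

theorem int_one {p β a b : ℝ} (hp : 2 ≤ p) (hβ : 0 < β) (hb : 0 ≤ b) (n : ℕ) :
    Integrable fun s : ℝ => s ^ n * Real.exp (-(β * |s| ^ p) + a * s - b * s ^ 2) := by
  have h1 : Integrable fun s : ℝ => s ^ ((n : ℕ) : ℝ) * Real.exp (-(β / 2) * s ^ 2) :=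
    integrable_rpow_mul_exp_neg_mul_sq (by positivity)
      (lt_of_lt_of_le (by norm_num) (Nat.cast_nonneg n))
  simp only [Real.rpow_natCast] at h1
  have h2 := (h1.norm.const_mul (Real.exp (β + a ^ 2 / (2 * β))))
  have hp0 : 0 ≤ p := by linarith
  have hc : Continuous fun s : ℝ => |s| ^ p := by
    exact (continuous_abs).rpow_const fun _ => Or.inr hp0
  refine h2.mono' ?_ ?_
  · exact (by fun_prop : Continuous fun s : ℝ =>
      s ^ n * Real.exp (-(β * |s| ^ p) + a * s - b * s ^ 2)).aestronglyMeasurable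
  · refine Filter.Eventually.of_forall fun s => ?_
    rw [norm_mul, norm_mul, Real.norm_of_nonneg (Real.exp_pos _).le,
      Real.norm_of_nonneg (Real.exp_pos _).le]
    calc _ ≤ ‖s ^ n‖ * (Real.exp (β + a ^ 2 / (2 * β)) * Real.exp (-(β / 2) * s ^ 2)) :=
          mul_le_mul_of_nonneg_left (gbound hp hβ hb s) (norm_nonneg _)
      _ = _ := by ring

theorem half_p {p c : ℝ} (hp : 2 ≤ p) (hc : 0 < c) :
    ∫ s in Ioi (0 : ℝ), s ^ p * Real.exp (-c * s ^ p) =
      (p * c)⁻¹ * ∫ s in Ioi (0 : ℝ), Real.exp (-c * s ^ p) := by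
  have hp0 : 0 < p := by linarith
  have h1 := integral_rpow_mul_exp_neg_mul_rpow (q := p) hp0 (by linarith) hc
  have h2 := integral_rpow_mul_exp_neg_mul_rpow (q := 0) hp0 (by norm_num) hc
  simp only [Real.rpow_zero, one_mul] at h2
  rw [h1, h2]
  have e1 : (p + 1) / p = 1 / p + 1 := by field_simp; ring
  have e2 : (0 + 1) / p = 1 / p := by ring
  have e3 : -(p + 1) / p = -(0 + 1) / p + (-1) := by field_simp; ring
  rw [e1, e2, Real.Gamma_add_one (by positivity), e3, Real.rpow_add hc, Real.rpow_neg_one]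
  field_simp

theorem mom_one {p c : ℝ} (hp : 2 ≤ p) (hc : 1 / 2 ≤ c) :
    ∫ s : ℝ, s ^ 2 * Real.exp (-(c * |s| ^ p)) ≤ 2 * ∫ s : ℝ, Real.exp (-(c * |s| ^ p)) := by
  have hc0 : 0 < c := by linarith
  have hp0 : 0 < p := by linarith
  have i0 := int_one (a := 0) (b := 0) hp hc0 le_rfl 0
  have i2 := int_one (a := 0) (b := 0) hp hc0 le_rfl 2
  simp only [zero_mul, add_zero, sub_zero, pow_zero, one_mul] at i0 i2
  have a0 : ∫ s : ℝ, Real.exp (-(c * |s| ^ p)) = 2 * ∫ s in Ioi (0 : ℝ), Real.exp (-c * s ^ p) := by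
    rw [integral_comp_abs (f := fun s => Real.exp (-(c * s ^ p)))]
    simp only [neg_mul]
  have hpI : ∫ s : ℝ, |s| ^ p * Real.exp (-(c * |s| ^ p)) =
      (p * c)⁻¹ * ∫ s : ℝ, Real.exp (-(c * |s| ^ p)) := by
    rw [integral_comp_abs (f := fun s => s ^ p * Real.exp (-(c * s ^ p))), a0]
    have h1 := half_p hp hc0
    simp only [neg_mul] at h1 ⊢
    rw [h1]
    ring
  have ip : Integrable fun s : ℝ => |s| ^ p * Real.exp (-(c * |s| ^ p)) := by
    by_contra hn
    have h1 := integral_undef hn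
    rw [hpI] at h1
    have h2 : 0 < ∫ s : ℝ, Real.exp (-(c * |s| ^ p)) := integral_exp_pos i0
    have h3 : 0 < (p * c)⁻¹ := by positivity
    exact absurd h1 (mul_pos h3 h2).ne'
  have h2 : 0 < ∫ s : ℝ, Real.exp (-(c * |s| ^ p)) := integral_exp_pos i0
  calc ∫ s : ℝ, s ^ 2 * Real.exp (-(c * |s| ^ p))
      ≤ ∫ s : ℝ, (Real.exp (-(c * |s| ^ p)) + |s| ^ p * Real.exp (-(c * |s| ^ p))) := by
        refine integral_mono i2 (i0.add ip) fun s => ?_
        simp only
        have h3 := mul_le_mul_of_nonneg_right (sq_le_one_add (s := s) hp)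
          (Real.exp_pos (-(c * |s| ^ p))).le
        linarith
    _ = (1 + (p * c)⁻¹) * ∫ s : ℝ, Real.exp (-(c * |s| ^ p)) := by
        rw [integral_add i0 ip, hpI]
        ring
    _ ≤ _ := by
        refine mul_le_mul_of_nonneg_right ?_ h2.le
        have : (p * c)⁻¹ ≤ 1 := by
          refine inv_le_one_of_one_le₀ ?_
          nlinarith
        linarith

/-- the second moment in the pair estimate -/
theorem mom_pair {p β b : ℝ} (hp : 2 ≤ p) (hβ : 1 / 4 ≤ β) (hb : 0 ≤ b) (z : ℝ) :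
    Integrable (fun u : ℝ => Real.exp (-(β * (|z + u| ^ p + |z - u| ^ p)) - 2 * b * u ^ 2)) ∧
    Integrable (fun u : ℝ => u * Real.exp (-(β * (|z + u| ^ p + |z - u| ^ p)) - 2 * b * u ^ 2)) ∧
    Integrable (fun u : ℝ => u ^ 2 *
      Real.exp (-(β * (|z + u| ^ p + |z - u| ^ p)) - 2 * b * u ^ 2)) ∧
    ∫ u : ℝ, u ^ 2 * Real.exp (-(β * (|z + u| ^ p + |z - u| ^ p)) - 2 * b * u ^ 2) ≤
      2 * ∫ u : ℝ, Real.exp (-(β * (|z + u| ^ p + |z - u| ^ p)) - 2 * b * u ^ 2) := by
  have hp0 : 0 ≤ p := by linarith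
  have hβ0 : 0 < β := by linarith
  have hc0 : 0 < 2 * β := by linarith
  obtain ⟨r, hr⟩ : ∃ r : ℝ → ℝ, r = fun u => Real.exp (-(β * DD p z u) - 2 * b * u ^ 2) :=
    ⟨_, rfl⟩
  have e : ∀ u, Real.exp (-(β * (|z + u| ^ p + |z - u| ^ p)) - 2 * b * u ^ 2) =
      r u * Real.exp (-(2 * β * |u| ^ p)) := by
    intro u
    rw [hr]
    simp only
    rw [← Real.exp_add]
    congr 1
    unfold DD
    ring
  have hcont : ∀ z' : ℝ, Continuous fun s : ℝ => |z' + s| ^ p := fun z' =>
    (continuous_const.add continuous_id).abs.rpow_const fun _ => Or.inr hp0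
  have hcont' : ∀ z' : ℝ, Continuous fun s : ℝ => |z' - s| ^ p := fun z' =>
    (continuous_const.sub continuous_id).abs.rpow_const fun _ => Or.inr hp0
  have hcr : Continuous r := by
    rw [hr]
    unfold DD
    have h1 := hcont z
    have h2 := hcont' z
    have h3 : Continuous fun s : ℝ => |s| ^ p := continuous_abs.rpow_const fun _ => Or.inr hp0
    fun_prop
  have hrle : ∀ u u', |u| ≤ |u'| → r u' ≤ r u := by
    intro u u' h
    rw [hr]
    refine Real.exp_le_exp.2 ?_
    have h1 := mul_le_mul_of_nonneg_left (DD_mono (z := z) hp h) hβ0.le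
    have h2 : u ^ 2 ≤ u' ^ 2 := sq_le_sq.2 h
    have h3 := mul_le_mul_of_nonneg_left h2 (by positivity : 0 ≤ 2 * b)
    linarith
  have hr0 : ∀ u, 0 < r u := fun u => by rw [hr]; exact Real.exp_pos _
  have hr1 : ∀ u, r u ≤ r 0 := fun u => hrle 0 u (by rw [abs_zero]; exact abs_nonneg u)
  have base : ∀ n : ℕ, Integrable fun u : ℝ => u ^ n * Real.exp (-(2 * β * |u| ^ p)) := by
    intro n
    have := int_one (a := 0) (b := 0) hp hc0 le_rfl n
    simpa only [zero_mul, add_zero, sub_zero] using this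
  have dom : ∀ n : ℕ, Integrable fun u : ℝ => u ^ n * (r u * Real.exp (-(2 * β * |u| ^ p))) := by
    intro n
    have h3 : Continuous fun s : ℝ => |s| ^ p := continuous_abs.rpow_const fun _ => Or.inr hp0
    refine ((base n).norm.const_mul (r 0)).mono' ?_ ?_
    · exact (by fun_prop : Continuous fun u : ℝ =>
        u ^ n * (r u * Real.exp (-(2 * β * |u| ^ p)))).aestronglyMeasurable
    · refine Filter.Eventually.of_forall fun u => ?_
      rw [norm_mul, norm_mul, norm_mul, Real.norm_of_nonneg (hr0 u).le,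
        Real.norm_of_nonneg (Real.exp_pos _).le]
      calc ‖u ^ n‖ * (r u * Real.exp (-(2 * β * |u| ^ p)))
          ≤ ‖u ^ n‖ * (r 0 * Real.exp (-(2 * β * |u| ^ p))) := by
            gcongr
            exact hr1 u
        _ = _ := by ring
  simp only [e]
  have d0 := dom 0
  have d1 := dom 1
  have d2 := dom 2
  simp only [pow_zero, one_mul] at d0
  simp only [pow_one] at d1
  refine ⟨d0, d1, d2, ?_⟩
  have b0 := base 0
  have b2 := base 2
  simp only [pow_zero, one_mul] at b0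
  have h1 : ∫ u, (u ^ 2 - 2) * (r u * Real.exp (-(2 * β * |u| ^ p))) ≤
      ∫ u, r (Real.sqrt 2) * ((u ^ 2 - 2) * Real.exp (-(2 * β * |u| ^ p))) := by
    refine integral_mono ?_ ?_ fun u => ?_
    · refine (d2.sub (d0.const_mul 2)).congr (Filter.Eventually.of_forall fun u => ?_)
      simp only [Pi.sub_apply]
      ring
    · refine ((b2.sub (b0.const_mul 2)).const_mul (r (Real.sqrt 2))).congr
        (Filter.Eventually.of_forall fun u => ?_)
      simp only [Pi.sub_apply]
      ring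
    · simp only
      have hE : 0 < Real.exp (-(2 * β * |u| ^ p)) := Real.exp_pos _
      have h2 : (u ^ 2 - 2) * r u ≤ (u ^ 2 - 2) * r (Real.sqrt 2) := by
        rcases le_total (u ^ 2) 2 with h | h
        · have h3 : |u| ≤ |Real.sqrt 2| := by
            rw [abs_of_nonneg (Real.sqrt_nonneg 2)]
            exact Real.abs_le_sqrt h
          nlinarith [hrle u (Real.sqrt 2) h3]
        · have h3 : |Real.sqrt 2| ≤ |u| := by
            rw [abs_of_nonneg (Real.sqrt_nonneg 2)]
            exact Real.sqrt_le_iff.2 ⟨abs_nonneg u, by rw [sq_abs]; exact h⟩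
          nlinarith [hrle (Real.sqrt 2) u h3]
      nlinarith [mul_le_mul_of_nonneg_right h2 hE.le]
  rw [integral_const_mul] at h1
  have h2 : ∫ u, (u ^ 2 - 2) * Real.exp (-(2 * β * |u| ^ p)) ≤ 0 := by
    have h3 := mom_one hp (by linarith : 1 / 2 ≤ 2 * β)
    have h4 : ∀ u : ℝ, (u ^ 2 - 2) * Real.exp (-(2 * β * |u| ^ p)) =
      u ^ 2 * Real.exp (-(2 * β * |u| ^ p)) - 2 * Real.exp (-(2 * β * |u| ^ p)) := fun u => by ring
    simp only [h4]
    rw [integral_sub b2 (b0.const_mul 2), integral_const_mul]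
    linarith
  have h3 : r (Real.sqrt 2) * ∫ u, (u ^ 2 - 2) * Real.exp (-(2 * β * |u| ^ p)) ≤ 0 :=
    mul_nonpos_of_nonneg_of_nonpos (hr0 _).le h2
  have h4 : ∫ u, (u ^ 2 - 2) * (r u * Real.exp (-(2 * β * |u| ^ p))) =
      (∫ u, u ^ 2 * (r u * Real.exp (-(2 * β * |u| ^ p)))) -
        2 * ∫ u, r u * Real.exp (-(2 * β * |u| ^ p)) := by
    rw [← integral_const_mul, ← integral_sub d2 (d0.const_mul 2)]
    refine integral_congr_ae (Filter.Eventually.of_forall fun u => ?_)
    simp only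
    ring
  linarith

/-- a lower bound for the second moment -/
theorem mom_low {p : ℝ} (hp : 2 ≤ p) :
    (1 / 20) * ∫ s : ℝ, Real.exp (-(1 * |s| ^ p)) ≤ ∫ s : ℝ, s ^ 2 * Real.exp (-(1 * |s| ^ p)) := by
  have hp0 : 0 ≤ p := by linarith
  have i0 := int_one (a := 0) (b := 0) hp one_pos le_rfl 0
  have i2 := int_one (a := 0) (b := 0) hp one_pos le_rfl 2
  simp only [zero_mul, add_zero, sub_zero, pow_zero, one_mul] at i0 i2
  simp only [one_mul]
  have hg : Integrable fun s : ℝ => Real.exp (-1 * s ^ 2) := integrable_exp_neg_mul_sq one_pos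
  have hpt : ∀ s : ℝ, Real.exp (-(|s| ^ p)) ≤
      (Icc (-1 : ℝ) 1).indicator (fun _ => (1 : ℝ)) s + Real.exp (-1 * s ^ 2) := by
    intro s
    by_cases h : s ∈ Icc (-1 : ℝ) 1
    · rw [indicator_of_mem h]
      have h1 : Real.exp (-(|s| ^ p)) ≤ 1 := by
        rw [Real.exp_le_one_iff]
        have : 0 ≤ |s| ^ p := by positivity
        linarith
      have := Real.exp_pos (-1 * s ^ 2)
      linarith
    · rw [indicator_of_notMem h, zero_add]
      refine Real.exp_le_exp.2 ?_
      have h1 : 1 ≤ |s| := by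
        by_contra hn
        exact h (abs_le.1 (not_le.1 hn).le)
      have h2 : |s| ^ (2 : ℝ) ≤ |s| ^ p := Real.rpow_le_rpow_of_exponent_le h1 hp
      rw [Real.rpow_two, sq_abs] at h2
      linarith
  have hI : Integrable ((Icc (-1 : ℝ) 1).indicator fun _ => (1 : ℝ)) :=
    (integrable_indicator_iff measurableSet_Icc).2 (integrableOn_const (by simp))
  have hup : ∫ s : ℝ, Real.exp (-(|s| ^ p)) ≤ 4 := by
    have h1 := integral_mono i0 (hI.add hg) hpt
    have h2 : ∫ s : ℝ, ((Icc (-1 : ℝ) 1).indicator (fun _ => (1 : ℝ)) s + Real.exp (-1 * s ^ 2)) =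
        2 + Real.sqrt (Real.pi / 1) := by
      rw [integral_add hI hg, integral_gaussian, integral_indicator measurableSet_Icc,
        setIntegral_const]
      simp
      norm_num
    have h3 : Real.sqrt (Real.pi / 1) ≤ 2 := by
      rw [div_one]
      refine Real.sqrt_le_iff.2 ⟨by norm_num, ?_⟩
      linarith [Real.pi_lt_four]
    have h4 : ∫ s : ℝ, Real.exp (-(|s| ^ p)) ≤
      ∫ s : ℝ, ((Icc (-1 : ℝ) 1).indicator (fun _ => (1 : ℝ)) s + Real.exp (-1 * s ^ 2)) := h1
    linarith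
  have hlo : 1 / 5 ≤ ∫ s : ℝ, s ^ 2 * Real.exp (-(|s| ^ p)) := by
    -- on `[1/2, 1]` and `[-1, -1/2]` the integrand is large
    have hJ : Integrable ((Icc (0 : ℝ) 1).indicator fun s => s ^ 2) :=
      (integrable_indicator_iff measurableSet_Icc).2
        ((continuous_pow 2).integrableOn_Icc)
    have hJ' : Integrable ((Icc (-1 : ℝ) 0).indicator fun s => s ^ 2) :=
      (integrable_indicator_iff measurableSet_Icc).2
        ((continuous_pow 2).integrableOn_Icc)
    have h37 : (3 / 10 : ℝ) ≤ Real.exp (-1) := by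
      have h1 : Real.exp 1 < 2.7182818286 := Real.exp_one_lt_d9
      rw [Real.exp_neg]
      rw [le_inv_comm₀ (by norm_num) (Real.exp_pos 1)]
      norm_num at h1 ⊢
      linarith
    have hpt2 : ∀ s : ℝ, (3 / 10) * ((Icc (0 : ℝ) 1).indicator (fun s => s ^ 2) s +
        (Icc (-1 : ℝ) 0).indicator (fun s => s ^ 2) s) ≤ s ^ 2 * Real.exp (-(|s| ^ p)) := by
      intro s
      by_cases h : |s| ≤ 1
      · have h1 : |s| ^ p ≤ 1 := Real.rpow_le_one (abs_nonneg s) h hp0
        have h2 : Real.exp (-1) ≤ Real.exp (-(|s| ^ p)) := Real.exp_le_exp.2 (by linarith)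
        have h3 : (Icc (0 : ℝ) 1).indicator (fun s => s ^ 2) s +
            (Icc (-1 : ℝ) 0).indicator (fun s => s ^ 2) s ≤ s ^ 2 := by
          by_cases hs : s ∈ Icc (0 : ℝ) 1
          · by_cases hs' : s ∈ Icc (-1 : ℝ) 0
            · have : s = 0 := le_antisymm hs'.2 hs.1
              rw [this]
              simp
            · rw [indicator_of_mem hs, indicator_of_notMem hs', add_zero]
          · rw [indicator_of_notMem hs, zero_add]
            by_cases hs' : s ∈ Icc (-1 : ℝ) 0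
            · rw [indicator_of_mem hs']
            · rw [indicator_of_notMem hs']
              positivity
        calc _ ≤ (3 / 10) * s ^ 2 := by linarith
          _ ≤ Real.exp (-(|s| ^ p)) * s ^ 2 := by
              refine mul_le_mul_of_nonneg_right (by linarith) (sq_nonneg s)
          _ = _ := by ring
      · have h1 : s ∉ Icc (0 : ℝ) 1 := fun hs => h (abs_le.2 ⟨by linarith [hs.1], hs.2⟩)
        have h2 : s ∉ Icc (-1 : ℝ) 0 := fun hs => h (abs_le.2 ⟨hs.1, by linarith [hs.2]⟩)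
        rw [indicator_of_notMem h1, indicator_of_notMem h2, add_zero, mul_zero]
        positivity
    have h1 := integral_mono ((hJ.add hJ').const_mul (3 / 10)) i2 hpt2
    have h2 : ∫ s : ℝ, (3 / 10) * ((Icc (0 : ℝ) 1).indicator (fun s => s ^ 2) s +
        (Icc (-1 : ℝ) 0).indicator (fun s => s ^ 2) s) = 1 / 5 := by
      rw [integral_const_mul, integral_add hJ hJ', integral_indicator measurableSet_Icc,
        integral_indicator measurableSet_Icc, integral_Icc_eq_integral_Ioc,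
        integral_Icc_eq_integral_Ioc, ← intervalIntegral.integral_of_le (by norm_num),
        ← intervalIntegral.integral_of_le (by norm_num), integral_pow, integral_pow]
      norm_num
    rw [← h2]
    exact h1
  have h0 : 0 ≤ ∫ s : ℝ, Real.exp (-(|s| ^ p)) := integral_nonneg fun s => (Real.exp_pos _).le
  linarith

end Pool.Agent.Y506.KS
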