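import Pool.Agent.Y506.KS.Low
import Pool.Agent.Y506.KS.Base

/-!
# Densities `∏ φ i (P i x)` in Parseval position as central sections of product densities
-/

set_option autoImplicit false
set_option linter.unusedSectionVars false

namespace Pool.Agent.Y506.KS

open MeasureTheory Set
open scoped ENNReal InnerProductSpace

variable {ι : Type} [Fintype ι] [DecidableEq ι] {m : ι → ℕ} {κ : Type} [Fintype κ]

/-- the blocks -/
abbrev Xb (m : ι → ℕ) (i : ι) : Type := EuclideanSpace ℝ (Fin (m i))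

/-- Parseval position -/
def Pars (P : ∀ i, EuclideanSpace ℝ κ →L[ℝ] Xb m i) : Prop :=
  ∀ x, ∑ i, ‖P i x‖ ^ 2 = ‖x‖ ^ 2

/-- the orthogonal complement of the range of `P` -/
def Fc (P : ∀ i, EuclideanSpace ℝ κ →L[ℝ] Xb m i) : Submodule ℝ (∀ i, Xb m i) where
  carrier := {z | ∀ x, ∑ i, ⟪z i, P i x⟫_ℝ = 0}
  add_mem' := by
    intro a b ha hb x
    simp only [Pi.add_apply, inner_add_left, Finset.sum_add_distrib]
    rw [ha x, hb x, add_zero]
  zero_mem' := by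
    intro x
    simp
  smul_mem' := by
    intro c a ha x
    simp only [Pi.smul_apply, real_inner_smul_left, ← Finset.mul_sum]
    rw [ha x, mul_zero]

theorem Fc_mem {P : ∀ i, EuclideanSpace ℝ κ →L[ℝ] Xb m i} (z : Fc P) (x : EuclideanSpace ℝ κ) :
    ∑ i, ⟪(z : ∀ i, Xb m i) i, P i x⟫_ℝ = 0 := z.2 x

theorem pars_inner {P : ∀ i, EuclideanSpace ℝ κ →L[ℝ] Xb m i} (hP : Pars P)
    (x y : EuclideanSpace ℝ κ) : ∑ i, ⟪P i x, P i y⟫_ℝ = ⟪x, y⟫_ℝ := by
  have h1 := hP (x + y)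
  have h2 := hP x
  have h3 := hP y
  have h4 : ∀ i, ‖P i (x + y)‖ ^ 2 = ‖P i x‖ ^ 2 + 2 * ⟪P i x, P i y⟫_ℝ + ‖P i y‖ ^ 2 := by
    intro i
    rw [map_add, norm_add_sq_real]
  simp only [h4, Finset.sum_add_distrib, ← Finset.mul_sum] at h1
  rw [h2, h3, norm_add_sq_real] at h1
  linarith

theorem exists_repr {P : ∀ i, EuclideanSpace ℝ κ →L[ℝ] Xb m i} (g : ∀ i, Xb m i) :
    ∃ x : EuclideanSpace ℝ κ, ∀ y, ⟪x, y⟫_ℝ = ∑ i, ⟪g i, P i y⟫_ℝ := by
  let L : EuclideanSpace ℝ κ →L[ℝ] ℝ := ∑ i, (innerSL ℝ (g i)).comp (P i)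
  refine ⟨(InnerProductSpace.toDual ℝ (EuclideanSpace ℝ κ)).symm L, fun y => ?_⟩
  rw [InnerProductSpace.toDual_symm_apply]
  simp [L]

/-- `(x, z) ↦ P x + z` -/
noncomputable def PsiL (P : ∀ i, EuclideanSpace ℝ κ →L[ℝ] Xb m i) :
    (EuclideanSpace ℝ κ × Fc P) →ₗ[ℝ] (∀ i, Xb m i) :=
  LinearMap.coprod (LinearMap.pi fun i => (P i).toLinearMap) (Fc P).subtype

theorem PsiL_apply (P : ∀ i, EuclideanSpace ℝ κ →L[ℝ] Xb m i)
    (p : EuclideanSpace ℝ κ × Fc P) (i : ι) :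
    PsiL P p i = P i p.1 + (p.2 : ∀ i, Xb m i) i := by
  simp [PsiL]

theorem PsiL_bij {P : ∀ i, EuclideanSpace ℝ κ →L[ℝ] Xb m i} (hP : Pars P) :
    Function.Bijective (PsiL P) := by
  constructor
  · rw [injective_iff_map_eq_zero]
    rintro ⟨x, z⟩ h
    have h1 : ∀ i, P i x + (z : ∀ i, Xb m i) i = 0 := fun i => by
      have := congrFun h i
      rw [PsiL_apply] at this
      exact this
    have h2 : ‖x‖ ^ 2 = 0 := by
      have h3 : ∑ i, ⟪P i x + (z : ∀ i, Xb m i) i, P i x⟫_ℝ = 0 := by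
        refine Finset.sum_eq_zero fun i _ => ?_
        rw [h1 i, inner_zero_left]
      simp only [inner_add_left, Finset.sum_add_distrib] at h3
      rw [Fc_mem z x, pars_inner hP, add_zero, real_inner_self_eq_norm_sq] at h3
      exact h3
    have hx : x = 0 := by
      have : ‖x‖ = 0 := by simpa using h2
      exact norm_eq_zero.1 this
    subst hx
    have hz : z = 0 := by
      ext i : 2
      have := h1 i
      rw [map_zero, zero_add] at this
      exact this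
    rw [hz]
    rfl
  · intro g
    obtain ⟨x, hx⟩ := exists_repr (P := P) g
    have hz : (fun i => g i - P i x) ∈ Fc P := by
      intro y
      simp only [inner_sub_left, Finset.sum_sub_distrib]
      rw [← hx y, pars_inner hP, sub_self]
    refine ⟨(x, ⟨_, hz⟩), ?_⟩
    funext i
    rw [PsiL_apply]
    simp

/-- `(x, z) ↦ P x + z` as an equivalence -/
noncomputable def Psi {P : ∀ i, EuclideanSpace ℝ κ →L[ℝ] Xb m i} (hP : Pars P) :
    (EuclideanSpace ℝ κ × Fc P) ≃L[ℝ] (∀ i, Xb m i) :=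
  (LinearEquiv.ofBijective (PsiL P) (PsiL_bij hP)).toContinuousLinearEquiv

theorem Psi_apply {P : ∀ i, EuclideanSpace ℝ κ →L[ℝ] Xb m i} (hP : Pars P)
    (p : EuclideanSpace ℝ κ × Fc P) (i : ι) :
    Psi hP p i = P i p.1 + (p.2 : ∀ i, Xb m i) i := PsiL_apply P p i

theorem finrank_Fc {P : ∀ i, EuclideanSpace ℝ κ →L[ℝ] Xb m i} (hP : Pars P) :
    Fintype.card κ + Module.finrank ℝ (Fc P) = ∑ i, m i := by
  have h1 := (Psi hP).toLinearEquiv.finrank_eq
  rw [Module.finrank_prod, Module.finrank_pi_fintype] at h1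
  simpa using h1

/-- change of variables -/
theorem cov {P : ∀ i, EuclideanSpace ℝ κ →L[ℝ] Xb m i} (hP : Pars P) (ν : Measure (Fc P))
    [ν.IsAddHaarMeasure] : ∃ c : ℝ≥0∞, c ≠ 0 ∧ c ≠ ∞ ∧ ∀ f : (∀ i, Xb m i) → ℝ≥0∞,
      Measurable f → ∫⁻ z, ∫⁻ x, f (Psi hP (x, z)) ∂(volume : Measure (EuclideanSpace ℝ κ)) ∂ν =
        c * ∫⁻ s, f s ∂(Measure.pi fun i => (volume : Measure (Xb m i))) := by
  obtain ⟨μ, hμ⟩ : ∃ μ : Measure (EuclideanSpace ℝ κ × Fc P), μ =
    (volume : Measure (EuclideanSpace ℝ κ)).prod ν := ⟨_, rfl⟩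
  obtain ⟨p, hp⟩ : ∃ p : Measure (∀ i, Xb m i), p =
    Measure.pi fun i => (volume : Measure (Xb m i)) := ⟨_, rfl⟩
  have i1 : μ.IsAddHaarMeasure := by rw [hμ]; exact Measure.prod.instIsAddHaarMeasure _ _
  have i2 : p.IsAddHaarMeasure := by rw [hp]; infer_instance
  have hH : (Measure.map (Psi hP) μ).IsAddHaarMeasure := (Psi hP).isAddHaarMeasure_map μ
  have hc := Measure.isAddLeftInvariant_eq_smul (Measure.map (Psi hP) μ) p
  have hcp := Measure.addHaarScalarFactor_pos_of_isAddHaarMeasure (Measure.map (Psi hP) μ) p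
  refine ⟨_, ENNReal.coe_ne_zero.mpr hcp.ne', ENNReal.coe_ne_top, fun f hf => ?_⟩
  have hm : Measurable (Psi hP) := (Psi hP).continuous.measurable
  have h1 := lintegral_map (μ := μ) hf hm
  rw [hc] at h1
  have h2 : ∫⁻ s, f s ∂(Measure.addHaarScalarFactor (Measure.map (Psi hP) μ) p • p) =
      (Measure.addHaarScalarFactor (Measure.map (Psi hP) μ) p : ℝ≥0∞) * ∫⁻ s, f s ∂p :=
    lintegral_smul_measure (μ := p)
      (Measure.addHaarScalarFactor (Measure.map (Psi hP) μ) p : ℝ≥0∞) f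
  rw [h2] at h1
  rw [← hp, h1, hμ]
  exact (lintegral_prod_symm' _ (hf.comp hm)).symm

end Pool.Agent.Y506.KS
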