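import Pool.Agent.Y506.KS.Pr
import Pool.Agent.Y506.KS.Pa

/-!
# Gaussian tilts of products of the densities `exp (- β |s| ^ p)`, `p ≥ 2`
-/

set_option autoImplicit false

namespace Pool.Agent.Y506.KS

open MeasureTheory Set
open scoped ENNReal InnerProductSpace

variable {k : ℕ}

theorem VB_of_pair' (f : EuclideanSpace ℝ (Fin k) → ℝ) (h0 : ∀ s, 0 ≤ f s) (hm : Measurable f)
    (i0 : Integrable f) (hi1 : ∀ w : EuclideanSpace ℝ (Fin k), Integrable fun s => ⟪w, s⟫_ℝ * f s)
    (hi2 : ∀ w : EuclideanSpace ℝ (Fin k), Integrable fun s => ⟪w, s⟫_ℝ ^ 2 * f s)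
    (hpos : 0 < ∫ s, f s) (R : ℝ)
    (hp : ∀ z w : EuclideanSpace ℝ (Fin k),
      ∫⁻ u, ENNReal.ofReal (⟪w, u⟫_ℝ ^ 2) * (ENNReal.ofReal (f (z + u)) *
        ENNReal.ofReal (f (z - u))) ≤ ENNReal.ofReal (R ^ 2 / 2 * ‖w‖ ^ 2) *
      ∫⁻ u, ENNReal.ofReal (f (z + u)) * ENNReal.ofReal (f (z - u))) : VB f R := by
  intro w
  obtain ⟨M, hM⟩ : ∃ M : ℝ, M = ∫ s, f s := ⟨_, rfl⟩
  obtain ⟨c, hc⟩ : ∃ c : ℝ, c = (∫ s, ⟪w, s⟫_ℝ * f s) / ∫ s, f s := ⟨_, rfl⟩
  obtain ⟨V, hV⟩ : ∃ V : ℝ, V = ∫ s, (⟪w, s⟫_ℝ - c) ^ 2 * f s := ⟨_, rfl⟩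
  rw [← hc, ← hM, ← hV]
  rw [← hM] at hpos
  have i1 := hi1 w
  have iv : Integrable fun s => (⟪w, s⟫_ℝ - c) ^ 2 * f s := by
    refine (((hi2 w).sub (i1.const_mul (2 * c))).add (i0.const_mul (c ^ 2))).congr
      (Filter.Eventually.of_forall fun s => ?_)
    simp only [Pi.add_apply, Pi.sub_apply]
    ring
  have ic : Integrable fun s => (⟪w, s⟫_ℝ - c) * f s := by
    refine (i1.sub (i0.const_mul c)).congr (Filter.Eventually.of_forall fun s => ?_)
    simp only [Pi.sub_apply]
    ring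
  have hz : ∫ s, (⟪w, s⟫_ℝ - c) * f s = 0 := by
    have e : ∀ s, (⟪w, s⟫_ℝ - c) * f s = ⟪w, s⟫_ℝ * f s - c * f s := fun s => by ring
    simp only [e]
    rw [integral_sub i1 (i0.const_mul c), integral_const_mul, hc, ← hM,
      div_mul_cancel₀ _ hpos.ne', sub_self]
  have hV0 : 0 ≤ V := by
    rw [hV]
    exact integral_nonneg fun s => mul_nonneg (sq_nonneg _) (h0 s)
  -- the double integral
  have hin : ∀ x, ∫⁻ y, ENNReal.ofReal (⟪w, x - y⟫_ℝ ^ 2) * (ENNReal.ofReal (f x) *
      ENNReal.ofReal (f y)) = ENNReal.ofReal (f x * ((⟪w, x⟫_ℝ - c) ^ 2 * M + V)) := by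
    intro x
    have e1 : ∀ y, ENNReal.ofReal (⟪w, x - y⟫_ℝ ^ 2) * (ENNReal.ofReal (f x) *
        ENNReal.ofReal (f y)) = ENNReal.ofReal (f x * (⟪w, x - y⟫_ℝ ^ 2 * f y)) := by
      intro y
      rw [← ENNReal.ofReal_mul (h0 x), ← ENNReal.ofReal_mul (sq_nonneg _)]
      congr 1
      ring
    simp only [e1]
    have e2 : ∀ y, f x * (⟪w, x - y⟫_ℝ ^ 2 * f y) = f x * ((⟪w, x⟫_ℝ - c) ^ 2 * f y -
        2 * (⟪w, x⟫_ℝ - c) * ((⟪w, y⟫_ℝ - c) * f y) + (⟪w, y⟫_ℝ - c) ^ 2 * f y) := by
      intro y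
      rw [inner_sub_right]
      ring
    have i3 : Integrable fun y => (⟪w, x⟫_ℝ - c) ^ 2 * f y -
        2 * (⟪w, x⟫_ℝ - c) * ((⟪w, y⟫_ℝ - c) * f y) := (i0.const_mul _).sub (ic.const_mul _)
    have i4 : Integrable fun y => f x * ((⟪w, x⟫_ℝ - c) ^ 2 * f y -
        2 * (⟪w, x⟫_ℝ - c) * ((⟪w, y⟫_ℝ - c) * f y) + (⟪w, y⟫_ℝ - c) ^ 2 * f y) :=
      (i3.add iv).const_mul _
    have e3 : ∫ y, f x * (⟪w, x - y⟫_ℝ ^ 2 * f y) = f x * ((⟪w, x⟫_ℝ - c) ^ 2 * M + V) := by
      simp only [e2]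
      rw [integral_const_mul, integral_add i3 iv, integral_sub (i0.const_mul _)
        (ic.const_mul _), integral_const_mul, integral_const_mul, hz, ← hM, ← hV]
      ring
    rw [← e3, ofReal_integral_eq_lintegral_ofReal]
    · simp only [e2]
      exact i4
    · exact Filter.Eventually.of_forall fun y => mul_nonneg (h0 x)
        (mul_nonneg (sq_nonneg _) (h0 y))
  have hout : ∫⁻ x, ∫⁻ y, ENNReal.ofReal (⟪w, x - y⟫_ℝ ^ 2) * (ENNReal.ofReal (f x) *
      ENNReal.ofReal (f y)) = ENNReal.ofReal (2 * (V * M)) := by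
    simp only [hin]
    have e1 : ∀ x, f x * ((⟪w, x⟫_ℝ - c) ^ 2 * M + V) =
        M * ((⟪w, x⟫_ℝ - c) ^ 2 * f x) + V * f x := fun x => by ring
    have e2 : ∫ x, f x * ((⟪w, x⟫_ℝ - c) ^ 2 * M + V) = 2 * (V * M) := by
      simp only [e1]
      rw [integral_add (iv.const_mul _) (i0.const_mul _), integral_const_mul, integral_const_mul,
        ← hM, ← hV]
      ring
    rw [← e2, ofReal_integral_eq_lintegral_ofReal]
    · simp only [e1]
      exact (iv.const_mul _).add (i0.const_mul _)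
    · exact Filter.Eventually.of_forall fun x => mul_nonneg (h0 x)
        (add_nonneg (mul_nonneg (sq_nonneg _) hpos.le) hV0)
  have hmass : ∫⁻ x, ∫⁻ y, ENNReal.ofReal (f x) * ENNReal.ofReal (f y) =
      ENNReal.ofReal (M * M) := by
    have e1 : ∀ x, ∫⁻ y, ENNReal.ofReal (f x) * ENNReal.ofReal (f y) =
        ENNReal.ofReal (f x) * ENNReal.ofReal M := by
      intro x
      rw [lintegral_const_mul _ hm.ennreal_ofReal, hM,
        ofReal_integral_eq_lintegral_ofReal i0 (Filter.Eventually.of_forall h0)]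
    simp only [e1]
    rw [lintegral_mul_const _ hm.ennreal_ofReal,
      ← ofReal_integral_eq_lintegral_ofReal i0 (Filter.Eventually.of_forall h0), ← hM,
      ENNReal.ofReal_mul hpos.le]
  have hmf : Measurable fun s => ENNReal.ofReal (f s) := ENNReal.measurable_ofReal.comp hm
  have hmp : Measurable (Function.uncurry fun x y : EuclideanSpace ℝ (Fin k) =>
      ENNReal.ofReal (f x) * ENNReal.ofReal (f y)) :=
    (hmf.comp measurable_fst).mul (hmf.comp measurable_snd)
  have hmq : Measurable (Function.uncurry fun x y : EuclideanSpace ℝ (Fin k) =>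
      ENNReal.ofReal (⟪w, x - y⟫_ℝ ^ 2) * (ENNReal.ofReal (f x) * ENNReal.ofReal (f y))) := by
    have hc1 : Continuous fun p : EuclideanSpace ℝ (Fin k) × EuclideanSpace ℝ (Fin k) =>
      ⟪w, p.1 - p.2⟫_ℝ ^ 2 := by fun_prop
    exact (ENNReal.measurable_ofReal.comp hc1.measurable).mul hmp
  rw [pair_cov _ hmq] at hout
  rw [pair_cov _ hmp] at hmass
  have hle : ENNReal.ofReal (2 * (V * M)) ≤ ENNReal.ofReal (2 * R ^ 2 * ‖w‖ ^ 2 * (M * M)) := by
    rw [← hout, ENNReal.ofReal_mul (by positivity : 0 ≤ 2 * R ^ 2 * ‖w‖ ^ 2), ← hmass,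
      mul_left_comm]
    refine mul_le_mul' le_rfl ?_
    have hmr : Measurable fun z : EuclideanSpace ℝ (Fin k) =>
        ∫⁻ u, ENNReal.ofReal (f (z + u)) * ENNReal.ofReal (f (z - u)) := by
      have : Measurable (Function.uncurry fun z u : EuclideanSpace ℝ (Fin k) =>
          ENNReal.ofReal (f (z + u)) * ENNReal.ofReal (f (z - u))) :=
        (hmf.comp (measurable_fst.add measurable_snd)).mul
          (hmf.comp (measurable_fst.sub measurable_snd))
      exact this.lintegral_prod_right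
    rw [← lintegral_const_mul _ hmr]
    refine lintegral_mono fun z => ?_
    have e1 : ∀ u, ENNReal.ofReal (⟪w, z + u - (z - u)⟫_ℝ ^ 2) * (ENNReal.ofReal (f (z + u)) *
        ENNReal.ofReal (f (z - u))) = ENNReal.ofReal 4 * (ENNReal.ofReal (⟪w, u⟫_ℝ ^ 2) *
          (ENNReal.ofReal (f (z + u)) * ENNReal.ofReal (f (z - u)))) := by
      intro u
      have e0 : z + u - (z - u) = (2 : ℝ) • u := by
        rw [two_smul]
        abel
      have e3 : ENNReal.ofReal 4 * ENNReal.ofReal (⟪w, u⟫_ℝ ^ 2) =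
          ENNReal.ofReal (4 * ⟪w, u⟫_ℝ ^ 2) := (ENNReal.ofReal_mul (by norm_num)).symm
      rw [← mul_assoc (ENNReal.ofReal 4), e3, e0, real_inner_smul_right]
      congr 2
      ring
    simp only [e1]
    rw [lintegral_const_mul' _ _ ENNReal.ofReal_ne_top]
    refine (mul_le_mul' le_rfl (hp z w)).trans (le_of_eq ?_)
    rw [← mul_assoc, ← ENNReal.ofReal_mul (by norm_num)]
    congr 2
    ring
  have h3 := (ENNReal.ofReal_le_ofReal_iff (by positivity)).1 hle
  have h4 : M * V ≤ M * (R ^ 2 * ‖w‖ ^ 2 * M) := by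
    calc M * V = (2 * (V * M)) / 2 := by ring
      _ ≤ (2 * R ^ 2 * ‖w‖ ^ 2 * (M * M)) / 2 := by linarith
      _ = _ := by ring
  exact le_of_mul_le_mul_left h4 hpos

/-! ### the product density -/

/-- the one-dimensional factor -/
noncomputable def f1 (p β a b s : ℝ) : ℝ := Real.exp (-(β * |s| ^ p) + a * s - b * s ^ 2)

/-- the product density -/
noncomputable def PF (p : Fin k → ℝ) (β : ℝ) (a : EuclideanSpace ℝ (Fin k)) (b : ℝ)
    (s : EuclideanSpace ℝ (Fin k)) : ℝ :=
  Real.exp (-(β * ∑ j, |s j| ^ p j)) * Real.exp (⟪a, s⟫_ℝ - b * ‖s‖ ^ 2)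

theorem PF_prod (p : Fin k → ℝ) (β : ℝ) (a : EuclideanSpace ℝ (Fin k)) (b : ℝ)
    (s : EuclideanSpace ℝ (Fin k)) : PF p β a b s = ∏ j, f1 (p j) β (a j) b (s j) := by
  unfold PF f1
  rw [← Real.exp_add, ← Real.exp_sum]
  congr 1
  rw [Finset.sum_sub_distrib, Finset.sum_add_distrib, Finset.sum_neg_distrib, Finset.mul_sum,
    EuclideanSpace.real_norm_sq_eq, Finset.mul_sum, PiLp.inner_apply]
  simp only [RCLike.inner_apply, conj_trivial]
  have : ∑ x, s x * a x = ∑ x, a x * s x := Finset.sum_congr rfl fun x _ => mul_comm _ _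
  rw [this]
  ring

theorem PF_pos (p : Fin k → ℝ) (β : ℝ) (a : EuclideanSpace ℝ (Fin k)) (b : ℝ)
    (s : EuclideanSpace ℝ (Fin k)) : 0 < PF p β a b s := mul_pos (Real.exp_pos _) (Real.exp_pos _)

theorem cont_rpow {p : ℝ} (hp : 2 ≤ p) : Continuous fun s : ℝ => |s| ^ p :=
  continuous_abs.rpow_const fun _ => Or.inr (by linarith)

theorem PF_cont {p : Fin k → ℝ} (hp : ∀ j, 2 ≤ p j) (β : ℝ) (a : EuclideanSpace ℝ (Fin k)) (b : ℝ) :
    Continuous (PF p β a b) := by
  unfold PF
  have h1 : Continuous fun s : EuclideanSpace ℝ (Fin k) => ∑ j, |s j| ^ p j :=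
    continuous_finsetSum _ fun j _ => (cont_rpow (hp j)).comp (by fun_prop)
  fun_prop

/-- integrals over Euclidean space and over the product -/
theorem lint_pi (Φ : EuclideanSpace ℝ (Fin k) → ℝ≥0∞) :
    ∫⁻ s, Φ s = ∫⁻ y : Fin k → ℝ, Φ (WithLp.toLp 2 y) :=
  ((PiLp.volume_preserving_toLp (Fin k)).lintegral_comp_emb
    (MeasurableEquiv.toLp 2 (Fin k → ℝ)).measurableEmbedding Φ).symm

theorem int_pi (Φ : EuclideanSpace ℝ (Fin k) → ℝ) :
    ∫ s, Φ s = ∫ y : Fin k → ℝ, Φ (WithLp.toLp 2 y) :=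
  ((PiLp.volume_preserving_toLp (Fin k)).integral_comp
    (MeasurableEquiv.toLp 2 (Fin k → ℝ)).measurableEmbedding Φ).symm

theorem intg_pi (Φ : EuclideanSpace ℝ (Fin k) → ℝ) :
    Integrable Φ ↔ Integrable fun y : Fin k → ℝ => Φ (WithLp.toLp 2 y) :=
  ((PiLp.volume_preserving_toLp (Fin k)).integrable_comp_emb
    (MeasurableEquiv.toLp 2 (Fin k → ℝ)).measurableEmbedding).symm

theorem inner_toLp (w : EuclideanSpace ℝ (Fin k)) (y : Fin k → ℝ) :
    ⟪w, WithLp.toLp 2 y⟫_ℝ = ∑ j, w j * y j := by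
  rw [PiLp.inner_apply]
  simp only [RCLike.inner_apply, conj_trivial]
  exact Finset.sum_congr rfl fun x _ => mul_comm _ _

/-- products of three families of one-dimensional functions -/
theorem prod_intg (f : Fin k → ℝ → ℝ) (h0 : ∀ j, Integrable (f j))
    (h1 : ∀ j, Integrable fun t => t * f j t) (h2 : ∀ j, Integrable fun t => t ^ 2 * f j t)
    (w : EuclideanSpace ℝ (Fin k)) :
    Integrable (fun y : Fin k → ℝ => ∏ j, f j (y j)) ∧
    Integrable (fun y : Fin k → ℝ => (∑ j, w j * y j) * ∏ j, f j (y j)) ∧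
    Integrable (fun y : Fin k → ℝ => (∑ j, w j * y j) ^ 2 * ∏ j, f j (y j)) := by
  have hP := Integrable.fintype_prod h0
  -- moments of two coordinates
  have key : ∀ i j : Fin k, Integrable fun y : Fin k → ℝ => (y i * y j) * ∏ l, f l (y l) := by
    intro i j
    have hg : ∀ l, Integrable fun t : ℝ => (if l = i then t else 1) * (if l = j then t else 1) *
        f l t := by
      intro l
      by_cases hi : l = i
      · by_cases hj : l = j
        · simp only [if_pos hi, if_pos hj]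
          exact (h2 l).congr (Filter.Eventually.of_forall fun t => by simp only; ring)
        · simp only [if_pos hi, if_neg hj, mul_one]
          exact h1 l
      · by_cases hj : l = j
        · simp only [if_neg hi, if_pos hj, one_mul]
          exact h1 l
        · simp only [if_neg hi, if_neg hj, one_mul]
          exact h0 l
    refine (Integrable.fintype_prod hg).congr (Filter.Eventually.of_forall fun y => ?_)
    simp only
    rw [Finset.prod_mul_distrib, Finset.prod_mul_distrib, Finset.prod_ite_eq',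
      Finset.prod_ite_eq']
    simp
  have key1 : ∀ i : Fin k, Integrable fun y : Fin k → ℝ => y i * ∏ l, f l (y l) := by
    intro i
    have hg : ∀ l, Integrable fun t : ℝ => (if l = i then t else 1) * f l t := by
      intro l
      by_cases hi : l = i
      · simp only [if_pos hi]
        exact h1 l
      · simp only [if_neg hi, one_mul]
        exact h0 l
    refine (Integrable.fintype_prod hg).congr (Filter.Eventually.of_forall fun y => ?_)
    simp only
    rw [Finset.prod_mul_distrib, Finset.prod_ite_eq']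
    simp
  refine ⟨hP, ?_, ?_⟩
  · refine (integrable_finsetSum Finset.univ fun i _ => (key1 i).const_mul (w i)).congr
      (Filter.Eventually.of_forall fun y => ?_)
    simp only
    rw [Finset.sum_mul]
    exact Finset.sum_congr rfl fun i _ => by ring
  · refine (integrable_finsetSum Finset.univ fun i _ => integrable_finsetSum Finset.univ
      fun j _ => (key i j).const_mul (w i * w j)).congr (Filter.Eventually.of_forall fun y => ?_)
    simp only
    rw [sq, Finset.sum_mul_sum, Finset.sum_mul]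
    refine Finset.sum_congr rfl fun i _ => ?_
    rw [Finset.sum_mul]
    exact Finset.sum_congr rfl fun j _ => by ring

theorem PF_intg {p : Fin k → ℝ} (hp : ∀ j, 2 ≤ p j) {β : ℝ} (hβ : 0 < β)
    (a : EuclideanSpace ℝ (Fin k)) {b : ℝ} (hb : 0 ≤ b) (w : EuclideanSpace ℝ (Fin k)) :
    Integrable (PF p β a b) ∧ Integrable (fun s => ⟪w, s⟫_ℝ * PF p β a b s) ∧
      Integrable (fun s => ⟪w, s⟫_ℝ ^ 2 * PF p β a b s) := by
  have h0 : ∀ j, Integrable (f1 (p j) β (a j) b) := fun j => by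
    have := int_one (a := a j) (hp j) hβ hb 0
    simp only [pow_zero, one_mul] at this
    exact this
  have h1 : ∀ j, Integrable fun t => t * f1 (p j) β (a j) b t := fun j => by
    have := int_one (a := a j) (hp j) hβ hb 1
    simp only [pow_one] at this
    exact this
  have h2 : ∀ j, Integrable fun t => t ^ 2 * f1 (p j) β (a j) b t := fun j =>
    int_one (a := a j) (hp j) hβ hb 2
  obtain ⟨g0, g1, g2⟩ := prod_intg (fun j => f1 (p j) β (a j) b) h0 h1 h2 w
  refine ⟨?_, ?_, ?_⟩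
  · rw [intg_pi]
    simp only [PF_prod]
    exact g0
  · rw [intg_pi]
    simp only [PF_prod, inner_toLp]
    exact g1
  · rw [intg_pi]
    simp only [PF_prod, inner_toLp]
    exact g2

theorem PF_VB {p : Fin k → ℝ} (hp : ∀ j, 2 ≤ p j) {β : ℝ} (hβ : 1 / 4 ≤ β)
    (a : EuclideanSpace ℝ (Fin k)) {b : ℝ} (hb : 0 ≤ b) : VB (PF p β a b) 2 := by
  have hβ0 : 0 < β := by linarith
  have hI := fun w => PF_intg hp hβ0 a hb w
  refine VB_of_pair' _ (fun s => (PF_pos p β a b s).le) (PF_cont hp β a b).measurable (hI 0).1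
    (fun w => (hI w).2.1) (fun w => (hI w).2.2) ?_ 2 ?_
  · have h1 := (hI 0).1
    unfold PF at h1 ⊢
    simp only [← Real.exp_add] at h1 ⊢
    exact integral_exp_pos h1
  · intro z w
    obtain ⟨K, hK⟩ : ∃ K : ℝ, K = Real.exp (2 * ⟪a, z⟫_ℝ - 2 * b * ‖z‖ ^ 2) := ⟨_, rfl⟩
    have hK0 : 0 < K := by rw [hK]; exact Real.exp_pos _
    let κ : Fin k → ℝ → ℝ := fun j t =>
      Real.exp (-(β * (|z j + t| ^ p j + |z j - t| ^ p j)) - 2 * b * t ^ 2)
    have e1 : ∀ u : EuclideanSpace ℝ (Fin k), ENNReal.ofReal (PF p β a b (z + u)) *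
        ENNReal.ofReal (PF p β a b (z - u)) = ENNReal.ofReal K * ∏ j, ENNReal.ofReal (κ j (u j)) := by
      intro u
      rw [← ENNReal.ofReal_prod_of_nonneg fun j _ => (Real.exp_pos _).le,
        ← ENNReal.ofReal_mul hK0.le, ← ENNReal.ofReal_mul (PF_pos _ _ _ _ _).le]
      congr 1
      unfold PF
      simp only [κ]
      rw [hK, ← Real.exp_sum, ← Real.exp_add, ← Real.exp_add, ← Real.exp_add, ← Real.exp_add]
      congr 1
      have n1 : ‖z + u‖ ^ 2 + ‖z - u‖ ^ 2 = 2 * ‖z‖ ^ 2 + 2 * ‖u‖ ^ 2 := by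
        have := parallelogram_law_with_norm ℝ z u
        nlinarith
      rw [Finset.sum_sub_distrib, Finset.sum_neg_distrib, ← Finset.mul_sum, ← Finset.mul_sum,
        Finset.sum_add_distrib, ← EuclideanSpace.real_norm_sq_eq, inner_add_right,
        inner_sub_right]
      have s1 : ∑ j, |(z + u) j| ^ p j = ∑ j, |z j + u j| ^ p j := rfl
      have s2 : ∑ j, |(z - u) j| ^ p j = ∑ j, |z j - u j| ^ p j := rfl
      rw [s1, s2]
      linear_combination (-b) * n1
    simp only [e1]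
    have hk0 : ∀ j, 0 ≤ κ j := fun j t => (Real.exp_pos _).le
    have m := fun j => mom_pair (hp j) hβ hb (z j)
    have hkm : ∀ j, Measurable (κ j) := fun j => by
      have hp0 : 0 ≤ p j := by linarith [hp j]
      have c1 : Continuous fun s : ℝ => |z j + s| ^ p j :=
        (continuous_const.add continuous_id).abs.rpow_const fun _ => Or.inr hp0
      have c2 : Continuous fun s : ℝ => |z j - s| ^ p j :=
        (continuous_const.sub continuous_id).abs.rpow_const fun _ => Or.inr hp0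
      exact (by fun_prop : Continuous (κ j)).measurable
    have hmm : Measurable fun u : EuclideanSpace ℝ (Fin k) => ∏ j, ENNReal.ofReal (κ j (u j)) :=
      Finset.measurable_prod _ fun j _ => ENNReal.measurable_ofReal.comp
        ((hkm j).comp (by fun_prop : Continuous fun u : EuclideanSpace ℝ (Fin k) => u j).measurable)
    have hmw : Measurable fun u : EuclideanSpace ℝ (Fin k) => ENNReal.ofReal (⟪w, u⟫_ℝ ^ 2) *
        ∏ j, ENNReal.ofReal (κ j (u j)) :=
      (ENNReal.measurable_ofReal.comp (by fun_prop : Continuous fun u : EuclideanSpace ℝ (Fin k) =>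
        ⟪w, u⟫_ℝ ^ 2).measurable).mul hmm
    have e2 : ∀ u : EuclideanSpace ℝ (Fin k), ENNReal.ofReal (⟪w, u⟫_ℝ ^ 2) *
        (ENNReal.ofReal K * ∏ j, ENNReal.ofReal (κ j (u j))) = ENNReal.ofReal K *
        (ENNReal.ofReal (⟪w, u⟫_ℝ ^ 2) * ∏ j, ENNReal.ofReal (κ j (u j))) := fun u => by ring
    simp only [e2]
    rw [lintegral_const_mul _ hmw, lintegral_const_mul _ hmm, mul_left_comm]
    refine mul_le_mul' le_rfl ?_
    rw [lint_pi, lint_pi]
    have hmass := base_mass (fun _ : Fin k => (volume : Measure ℝ)) κ (fun j t => hk0 j t)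
      fun j => (m j).1
    have hup := base_upper (fun _ : Fin k => (volume : Measure ℝ)) κ (fun j t => w j * t)
      (fun j t => hk0 j t) (fun j => (m j).1)
      (fun j => ((m j).2.1.const_mul (w j)).congr (Filter.Eventually.of_forall fun t => by
        simp only [κ]; ring))
      (fun j => ((m j).2.2.1.const_mul (w j ^ 2)).congr (Filter.Eventually.of_forall fun t => by
        simp only [κ]; ring))
      (fun j => by
        have h1 := integral_neg_eq_self (fun t : ℝ => w j * t * κ j t) volume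
        have h2 : ∀ t : ℝ, w j * (-t) * κ j (-t) = -(w j * t * κ j t) := fun t => by
          simp only [κ]
          rw [sub_neg_eq_add, ← sub_eq_add_neg, add_comm (|z j - t| ^ p j), neg_sq]
          ring
        simp only [h2] at h1
        rw [integral_neg] at h1
        linarith)
      (fun j => 2 * w j ^ 2)
      (fun j => by
        have h1 := (m j).2.2.2
        have h2 : ∀ t : ℝ, (w j * t) ^ 2 * κ j t = w j ^ 2 * (t ^ 2 * κ j t) := fun t => by ring
        simp only [h2]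
        rw [integral_const_mul]
        calc w j ^ 2 * ∫ t, t ^ 2 * κ j t ≤ w j ^ 2 * (2 * ∫ t, κ j t) :=
              mul_le_mul_of_nonneg_left h1 (sq_nonneg _)
          _ = _ := by ring)
    have e3 : ∑ j, 2 * w j ^ 2 = 2 * ‖w‖ ^ 2 := by
      rw [← Finset.mul_sum, EuclideanSpace.real_norm_sq_eq]
    rw [e3] at hup
    have e4 : ENNReal.ofReal ((2 : ℝ) ^ 2 / 2 * ‖w‖ ^ 2) = ENNReal.ofReal (2 * ‖w‖ ^ 2) := by
      congr 1
      norm_num
    rw [e4]
    have e5 : (∫⁻ y : Fin k → ℝ, ∏ j, ENNReal.ofReal (κ j ((WithLp.toLp 2 y :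
        EuclideanSpace ℝ (Fin k)) j))) = ENNReal.ofReal (∏ j, ∫ t, κ j t) := hmass
    rw [e5, ← ENNReal.ofReal_mul (by positivity)]
    refine le_trans (le_of_eq ?_) hup
    refine lintegral_congr fun y => ?_
    rw [inner_toLp]

end Pool.Agent.Y506.KS
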