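import Pool.Agent.Y506.KS.Pb
import Pool.Agent.Y506.KS.Rv

/-!
# Sublevel sets as sections: comparison with the product density
-/

set_option autoImplicit false

namespace Pool.Agent.Y506.KS

open MeasureTheory Set
open scoped ENNReal InnerProductSpace

variable {k : ℕ}

theorem VB_of_ex (f : EuclideanSpace ℝ (Fin k) → ℝ) (i0 : Integrable f)
    (i1 : ∀ w : EuclideanSpace ℝ (Fin k), Integrable fun s => ⟪w, s⟫_ℝ * f s)
    (i2 : ∀ w : EuclideanSpace ℝ (Fin k), Integrable fun s => ⟪w, s⟫_ℝ ^ 2 * f s)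
    (hpos : 0 < ∫ s, f s) (R : ℝ)
    (h : ∀ w : EuclideanSpace ℝ (Fin k), ∃ c : ℝ, ∫ s, (⟪w, s⟫_ℝ - c) ^ 2 * f s ≤
      R ^ 2 * ‖w‖ ^ 2 * ∫ s, f s) : VB f R := by
  intro w
  obtain ⟨c, hc⟩ := h w
  refine le_trans ?_ hc
  obtain ⟨M, hM⟩ : ∃ M : ℝ, M = ∫ s, f s := ⟨_, rfl⟩
  obtain ⟨A, hA⟩ : ∃ A : ℝ, A = ∫ s, ⟪w, s⟫_ℝ * f s := ⟨_, rfl⟩
  rw [← hM, ← hA]
  rw [← hM] at hpos
  have ex : ∀ d : ℝ, ∫ s, (⟪w, s⟫_ℝ - d) ^ 2 * f s =
      (∫ s, ⟪w, s⟫_ℝ ^ 2 * f s) - 2 * d * A + d ^ 2 * M := by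
    intro d
    have i3 : Integrable fun s => ⟪w, s⟫_ℝ ^ 2 * f s - 2 * d * (⟪w, s⟫_ℝ * f s) :=
      (i2 w).sub ((i1 w).const_mul _)
    rw [hA, hM, ← integral_const_mul, ← integral_const_mul,
      ← integral_sub (i2 w) ((i1 w).const_mul _), ← integral_add i3 (i0.const_mul _)]
    refine integral_congr_ae (Filter.Eventually.of_forall fun s => ?_)
    simp only
    ring
  rw [ex, ex]
  have e1 : 2 * (A / M) * A = 2 * (A / M) ^ 2 * M := by field_simp
  have e2 : 2 * c * A = 2 * c * (A / M) * M := by field_simp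
  rw [e1, e2]
  nlinarith [mul_nonneg (sq_nonneg (c - A / M)) hpos.le]

theorem IJ.lcr {J : ℝ → ℝ} (h : IJ J) (x y t : ℝ) (h0 : 0 < t) (h1 : t < 1) :
    J x ^ (1 - t) * J y ^ t ≤ J ((1 - t) * x + t * y) := by
  have hn : ∀ t, 0 ≤ J t := fun t => by
    rcases h.or t with h1 | h1 <;> rw [h1]
    norm_num
  have h2 : 0 < 1 - t := by linarith
  rcases h.or x with hx | hx
  · rw [hx, Real.zero_rpow h2.ne', zero_mul]
    exact hn _
  · rcases h.or y with hy | hy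
    · rw [hy, Real.zero_rpow h0.ne', mul_zero]
      exact hn _
    · rw [hx, hy, Real.one_rpow, Real.one_rpow, mul_one]
      rcases le_total x y with hxy | hxy
      · exact hy.ge.trans (h.anti (by nlinarith))
      · exact hx.ge.trans (h.anti (by nlinarith))

theorem IJ.nn {J : ℝ → ℝ} (h : IJ J) (t : ℝ) : 0 ≤ J t := by
  rcases h.or t with h1 | h1 <;> rw [h1]
  norm_num

theorem IJ.one' {J : ℝ → ℝ} (h : IJ J) {t : ℝ} (ht : t < 1) : J t = 1 := by
  rcases h.or t with h1 | h1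
  · rcases le_or_gt 0 t with h2 | h2
    · exact h.one t h2 ht
    · have h3 := h.anti h2.le
      rw [h.one 0 le_rfl one_pos] at h3
      rw [h1] at h3
      linarith
  · exact h1

/-- the joint density -/
noncomputable def rj (J : ℝ → ℝ) (G τ : EuclideanSpace ℝ (Fin k) → ℝ) (α : ℝ)
    (x : EuclideanSpace ℝ (Fin k)) (z : ℝ) : ℝ≥0∞ :=
  ENNReal.ofReal (Real.exp (-(α * z)) * (J (G x - z) * τ x))

theorem rj_meas {J : ℝ → ℝ} (hJ : IJ J) {G τ : EuclideanSpace ℝ (Fin k) → ℝ} (hG : Continuous G)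
    (hτ : Continuous τ) (α : ℝ) : Measurable (Function.uncurry (rj J G τ α)) := by
  unfold rj Function.uncurry
  have h1 : Measurable fun p : EuclideanSpace ℝ (Fin k) × ℝ => J (G p.1 - p.2) :=
    hJ.anti.measurable.comp (by fun_prop : Continuous fun p : EuclideanSpace ℝ (Fin k) × ℝ =>
      G p.1 - p.2).measurable
  have h2 : Measurable fun p : EuclideanSpace ℝ (Fin k) × ℝ => Real.exp (-(α * p.2)) :=
    (by fun_prop : Continuous fun p : EuclideanSpace ℝ (Fin k) × ℝ =>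
      Real.exp (-(α * p.2))).measurable
  have h3 : Measurable fun p : EuclideanSpace ℝ (Fin k) × ℝ => τ p.1 :=
    (by fun_prop : Continuous fun p : EuclideanSpace ℝ (Fin k) × ℝ => τ p.1).measurable
  exact ENNReal.measurable_ofReal.comp (h2.mul (h1.mul h3))

theorem rj_lce {J : ℝ → ℝ} (hJ : IJ J) {G τ : EuclideanSpace ℝ (Fin k) → ℝ}
    (hG : ∀ (x y : EuclideanSpace ℝ (Fin k)) (t : ℝ), 0 < t → t < 1 →
      G ((1 - t) • x + t • y) ≤ (1 - t) * G x + t * G y) (hτ0 : ∀ x, 0 < τ x)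
    (hτ : ∀ (x y : EuclideanSpace ℝ (Fin k)) (t : ℝ), 0 < t → t < 1 →
      τ x ^ (1 - t) * τ y ^ t ≤ τ ((1 - t) • x + t • y)) (α : ℝ) : LCE (rj J G τ α) := by
  intro x y z w t ht0 ht1
  have h2 : 0 < 1 - t := by linarith
  unfold rj
  have n1 : ∀ (x : EuclideanSpace ℝ (Fin k)) (z : ℝ), 0 ≤ J (G x - z) * τ x := fun x z =>
    mul_nonneg (hJ.nn _) (hτ0 _).le
  rw [ENNReal.ofReal_rpow_of_nonneg (mul_nonneg (Real.exp_pos _).le (n1 _ _)) h2.le,
    ENNReal.ofReal_rpow_of_nonneg (mul_nonneg (Real.exp_pos _).le (n1 _ _)) ht0.le,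
    ← ENNReal.ofReal_mul (Real.rpow_nonneg (mul_nonneg (Real.exp_pos _).le (n1 _ _)) _)]
  refine ENNReal.ofReal_le_ofReal ?_
  rw [Real.mul_rpow (Real.exp_pos _).le (n1 _ _), Real.mul_rpow (Real.exp_pos _).le (n1 _ _),
    Real.mul_rpow (hJ.nn _) (hτ0 _).le, Real.mul_rpow (hJ.nn _) (hτ0 _).le]
  have e1 : Real.exp (-(α * z)) ^ (1 - t) * Real.exp (-(α * w)) ^ t =
      Real.exp (-(α * ((1 - t) • z + t • w))) := by
    rw [← Real.exp_mul, ← Real.exp_mul, ← Real.exp_add]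
    congr 1
    simp only [smul_eq_mul]
    ring
  have e2 : J (G x - z) ^ (1 - t) * J (G y - w) ^ t ≤
      J (G ((1 - t) • x + t • y) - ((1 - t) • z + t • w)) := by
    refine (hJ.lcr _ _ t ht0 ht1).trans (hJ.anti ?_)
    have := hG x y t ht0 ht1
    simp only [smul_eq_mul]
    linarith
  calc _ = (Real.exp (-(α * z)) ^ (1 - t) * Real.exp (-(α * w)) ^ t) *
        ((J (G x - z) ^ (1 - t) * J (G y - w) ^ t) * (τ x ^ (1 - t) * τ y ^ t)) := by ring
    _ ≤ _ := by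
        rw [e1]
        refine mul_le_mul_of_nonneg_left ?_ (Real.exp_pos _).le
        exact mul_le_mul e2 (hτ x y t ht0 ht1) (mul_nonneg (Real.rpow_nonneg (hτ0 x).le _)
          (Real.rpow_nonneg (hτ0 y).le _)) (hJ.nn _)

theorem fib {J : ℝ → ℝ} (hJ : IJ J) {G τ : EuclideanSpace ℝ (Fin k) → ℝ} {α : ℝ} (hα : 0 < α)
    (hτ0 : ∀ x, 0 < τ x) (x : EuclideanSpace ℝ (Fin k)) :
    ∫⁻ z, rj J G τ α x z =
      ENNReal.ofReal (α⁻¹ * Real.exp α * (Real.exp (-(α * G x)) * τ x)) := by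
  have hα' : -α < 0 := by linarith
  have h1 : ∫⁻ z, rj J G τ α x z = ∫⁻ z, (Ioi (G x - 1)).indicator
      (fun z => ENNReal.ofReal (Real.exp (-α * z) * τ x)) z := by
    refine lintegral_congr_ae ?_
    have h2 : ∀ᵐ z : ℝ, z ≠ G x - 1 := compl_mem_ae_iff.2 (measure_singleton _)
    filter_upwards [h2] with z hz
    unfold rj
    by_cases h : z ∈ Ioi (G x - 1)
    · rw [indicator_of_mem h, hJ.one' (by have := mem_Ioi.1 h; linarith), one_mul, neg_mul]
    · rw [indicator_of_notMem h, hJ.zero _ ?_, zero_mul, mul_zero, ENNReal.ofReal_zero]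
      have h3 : z ≤ G x - 1 := not_lt.1 h
      have h4 : z < G x - 1 := lt_of_le_of_ne h3 hz
      linarith
  rw [h1, lintegral_indicator measurableSet_Ioi]
  have i1 : IntegrableOn (fun z : ℝ => Real.exp (-α * z) * τ x) (Ioi (G x - 1)) :=
    (integrableOn_exp_mul_Ioi hα' _).mul_const _
  rw [← ofReal_integral_eq_lintegral_ofReal i1 (Filter.Eventually.of_forall fun z =>
    mul_nonneg (Real.exp_pos _).le (hτ0 x).le), integral_mul_const, integral_exp_mul_Ioi hα']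
  congr 1
  have e : Real.exp (-α * (G x - 1)) = Real.exp α * Real.exp (-(α * G x)) := by
    rw [← Real.exp_add]
    congr 1
    ring
  rw [e]
  field_simp

theorem sec_main {J : ℝ → ℝ} (hJ : IJ J) {G τ : EuclideanSpace ℝ (Fin k) → ℝ}
    (hGc : Continuous G) (hG : ∀ (x y : EuclideanSpace ℝ (Fin k)) (t : ℝ), 0 < t → t < 1 →
      G ((1 - t) • x + t • y) ≤ (1 - t) * G x + t * G y) (hτc : Continuous τ)
    (hτ0 : ∀ x, 0 < τ x) (hτ : ∀ (x y : EuclideanSpace ℝ (Fin k)) (t : ℝ), 0 < t → t < 1 →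
      τ x ^ (1 - t) * τ y ^ t ≤ τ ((1 - t) • x + t • y)) {α : ℝ} (hα : 0 < α)
    (F : EuclideanSpace ℝ (Fin k) → ℝ) (hF : ∀ x, F x = Real.exp (-(α * G x)) * τ x)
    (j0 : Integrable F)
    (j1 : ∀ w : EuclideanSpace ℝ (Fin k), Integrable fun s => ⟪w, s⟫_ℝ * F s)
    (j2 : ∀ w : EuclideanSpace ℝ (Fin k), Integrable fun s => ⟪w, s⟫_ℝ ^ 2 * F s)
    (R : ℝ) (hV : VB F R)
    (hmode : ∀ z : ℝ, ∫⁻ x, ENNReal.ofReal (J (G x - z) * τ x) ≤
      (∫⁻ x, ENNReal.ofReal (J (G x) * τ x)) * ENNReal.ofReal (Real.exp (α * z)))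
    (h0 : ∫⁻ x, ENNReal.ofReal (J (G x) * τ x) ≠ 0)
    (h1 : ∫⁻ x, ENNReal.ofReal (J (G x) * τ x) ≠ ∞) (w : EuclideanSpace ℝ (Fin k)) :
    ∃ c : ℝ, ∫⁻ x, ENNReal.ofReal ((⟪w, x⟫_ℝ - c) ^ 2) * ENNReal.ofReal (J (G x) * τ x) ≤
      ENNReal.ofReal (128 * R ^ 2 * ‖w‖ ^ 2) * ∫⁻ x, ENNReal.ofReal (J (G x) * τ x) := by
  obtain ⟨ρ, hρ⟩ : ∃ ρ : EuclideanSpace ℝ (Fin k) → ℝ → ℝ≥0∞, ρ = rj J G τ α := ⟨_, rfl⟩
  have hm : Measurable (Function.uncurry ρ) := by rw [hρ]; exact rj_meas hJ hGc hτc α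
  have hlc : LCE ρ := by rw [hρ]; exact rj_lce hJ hG hτ0 hτ α
  have hF0 : ∀ x, 0 ≤ F x := fun x => by
    rw [hF]
    exact mul_nonneg (Real.exp_pos _).le (hτ0 x).le
  have e0 : ∀ x, ρ x 0 = ENNReal.ofReal (J (G x) * τ x) := fun x => by
    rw [hρ]
    unfold rj
    rw [mul_zero, neg_zero, Real.exp_zero, one_mul, sub_zero]
  have ez : ∀ z x, ρ x z = ENNReal.ofReal (Real.exp (-(α * z))) *
      ENNReal.ofReal (J (G x - z) * τ x) := fun z x => by
    rw [hρ]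
    unfold rj
    rw [ENNReal.ofReal_mul (Real.exp_pos _).le]
  have hh0 : hh volume ρ 0 = ∫⁻ x, ENNReal.ofReal (J (G x) * τ x) := by
    unfold hh
    simp only [e0]
  have hJm : ∀ z : ℝ, Measurable fun x => ENNReal.ofReal (J (G x - z) * τ x) := fun z =>
    ENNReal.measurable_ofReal.comp ((hJ.anti.measurable.comp
      (hGc.sub continuous_const).measurable).mul hτc.measurable)
  have hmode' : ∀ z, hh volume ρ z ≤ hh volume ρ 0 := by
    intro z
    rw [hh0]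
    unfold hh
    simp only [ez]
    rw [lintegral_const_mul _ (hJm z)]
    refine (mul_le_mul' le_rfl (hmode z)).trans (le_of_eq ?_)
    rw [mul_left_comm, ← ENNReal.ofReal_mul (Real.exp_pos _).le, ← Real.exp_add,
      neg_add_cancel, Real.exp_zero, ENNReal.ofReal_one, mul_one]
  obtain ⟨K, hK⟩ : ∃ K : ℝ, K = α⁻¹ * Real.exp α := ⟨_, rfl⟩
  have hK0 : 0 < K := by rw [hK]; positivity
  have hfib : ∀ x, ∫⁻ z, ρ x z = ENNReal.ofReal K * ENNReal.ofReal (F x) := fun x => by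
    rw [hρ, fib hJ hα hτ0 x, ← hF, ← hK, ENNReal.ofReal_mul hK0.le]
  have hmz : ∀ x, Measurable fun z => ρ x z := fun x =>
    hm.comp (measurable_const.prodMk measurable_id)
  have hFm : AEMeasurable (fun x => ENNReal.ofReal (F x)) :=
    j0.aestronglyMeasurable.aemeasurable.ennreal_ofReal
  obtain ⟨m, hmm⟩ : ∃ m : ℝ, m = (∫ s, ⟪w, s⟫_ℝ * F s) / ∫ s, F s := ⟨_, rfl⟩
  have hA : ∫⁻ z, hh volume ρ z = ENNReal.ofReal K * ENNReal.ofReal (∫ x, F x) := by
    unfold hh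
    rw [lintegral_lintegral_swap (f := fun z x => ρ x z) (hm.comp measurable_swap).aemeasurable]
    simp only [hfib]
    rw [lintegral_const_mul'' _ hFm, ofReal_integral_eq_lintegral_ofReal j0
      (Filter.Eventually.of_forall hF0)]
  have j3 : Integrable fun x => (⟪w, x⟫_ℝ - m) ^ 2 * F x := by
    refine (((j2 w).sub ((j1 w).const_mul (2 * m))).add (j0.const_mul (m ^ 2))).congr
      (Filter.Eventually.of_forall fun s => ?_)
    simp only [Pi.add_apply, Pi.sub_apply]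
    ring
  have hwm : Measurable fun x : EuclideanSpace ℝ (Fin k) =>
      ENNReal.ofReal ((innerSL ℝ w x - m) ^ 2) :=
    (by fun_prop : Continuous fun x : EuclideanSpace ℝ (Fin k) =>
      (innerSL ℝ w x - m) ^ 2).measurable.ennreal_ofReal
  have hB : ∫⁻ z, WW volume (innerSL ℝ w) m ρ z = ENNReal.ofReal K *
      ENNReal.ofReal (∫ x, (⟪w, x⟫_ℝ - m) ^ 2 * F x) := by
    unfold WW
    have hm2 : Measurable (Function.uncurry fun (z : ℝ) (x : EuclideanSpace ℝ (Fin k)) =>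
        ENNReal.ofReal ((innerSL ℝ w x - m) ^ 2) * ρ x z) :=
      (hwm.comp measurable_snd).mul (hm.comp measurable_swap)
    rw [lintegral_lintegral_swap hm2.aemeasurable]
    have e2 : ∀ x, ∫⁻ z, ENNReal.ofReal ((innerSL ℝ w x - m) ^ 2) * ρ x z =
        ENNReal.ofReal K * ENNReal.ofReal ((⟪w, x⟫_ℝ - m) ^ 2 * F x) := by
      intro x
      rw [lintegral_const_mul _ (hmz x), hfib, innerSL_apply_apply,
        ENNReal.ofReal_mul (sq_nonneg _), mul_left_comm]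
    simp only [e2]
    rw [lintegral_const_mul'' _ j3.aestronglyMeasurable.aemeasurable.ennreal_ofReal,
      ofReal_integral_eq_lintegral_ofReal j3 (Filter.Eventually.of_forall fun x =>
        mul_nonneg (sq_nonneg _) (hF0 x))]
  have hFpos : 0 < ∫ x, F x := by
    have h3 : ∀ x, 0 < F x := fun x => by
      rw [hF]
      exact mul_pos (Real.exp_pos _) (hτ0 x)
    refine (integral_pos_iff_support_of_nonneg hF0 j0).2 ?_
    have h4 : Function.support F = univ := by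
      ext x
      simp [(h3 x).ne']
    rw [h4]
    exact Measure.measure_univ_pos.2 (NeZero.ne _)
  have hM0 : ∫⁻ z, hh volume ρ z ≠ 0 := by
    rw [hA]
    exact mul_ne_zero (ENNReal.ofReal_pos.2 hK0).ne' (ENNReal.ofReal_pos.2 hFpos).ne'
  have hM1 : ∫⁻ z, hh volume ρ z ≠ ∞ := by
    rw [hA]
    exact ENNReal.mul_ne_top ENNReal.ofReal_ne_top ENNReal.ofReal_ne_top
  have hS : ∫⁻ z, WW volume (innerSL ℝ w) m ρ z ≤ ENNReal.ofReal (R ^ 2 * ‖w‖ ^ 2) *
      ∫⁻ z, hh volume ρ z := by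
    rw [hA, hB, mul_left_comm]
    refine mul_le_mul' le_rfl ?_
    rw [← ENNReal.ofReal_mul (by positivity)]
    refine ENNReal.ofReal_le_ofReal ?_
    rw [hmm]
    exact hV w
  obtain ⟨c, hc⟩ := upper volume (volume : Measure ℝ) (innerSL ℝ w) ρ hm hlc (1 / 2)
    (by norm_num) (by norm_num) (fun _ => m) measurable_const hmode' (by rw [hh0]; exact h0)
    (by rw [hh0]; exact h1) hM0 hM1 _ hS
  refine ⟨c, ?_⟩
  rw [hh0] at hc
  have e3 : WW volume (innerSL ℝ w) c ρ 0 = ∫⁻ x, ENNReal.ofReal ((⟪w, x⟫_ℝ - c) ^ 2) *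
      ENNReal.ofReal (J (G x) * τ x) := by
    unfold WW
    simp only [e0, innerSL_apply_apply]
  rw [e3] at hc
  refine hc.trans (mul_le_mul' (le_of_eq ?_) le_rfl)
  have h8 : (8 : ℝ≥0∞) = ENNReal.ofReal 8 := by norm_num
  rw [Module.finrank_self, h8, ← ENNReal.ofReal_mul (by positivity),
    ← ENNReal.ofReal_mul (by positivity), ← ENNReal.ofReal_mul (by positivity)]
  congr 1
  ring

end Pool.Agent.Y506.KS
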