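import Pool.Agent.Y506.KS.Pc

/-!
# The bodies `∑ |s_j| ^ (p_j) ≤ M`
-/

set_option autoImplicit false
set_option linter.unusedSectionVars false

namespace Pool.Agent.Y506.KS

open MeasureTheory Set
open scoped ENNReal InnerProductSpace

variable {k : ℕ}

/-- sum of the reciprocals of the exponents -/
noncomputable def MM (p : Fin k → ℝ) : ℝ := ∑ j, (p j)⁻¹

/-- the gauge function -/
noncomputable def GG (p : Fin k → ℝ) (s : EuclideanSpace ℝ (Fin k)) : ℝ :=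
  (∑ j, |s j| ^ p j) / MM p

theorem MM_pos {p : Fin k → ℝ} (hk : 0 < k) (hp : ∀ j, 2 ≤ p j) : 0 < MM p := by
  have : Nonempty (Fin k) := ⟨⟨0, hk⟩⟩
  exact Finset.sum_pos (fun j _ => inv_pos.2 (by linarith [hp j])) Finset.univ_nonempty

theorem GG_cont {p : Fin k → ℝ} (hp : ∀ j, 2 ≤ p j) : Continuous (GG p) := by
  unfold GG
  exact (continuous_finsetSum _ fun j _ => (cont_rpow (hp j)).comp (by fun_prop)).div_const _

theorem GG_nonneg {p : Fin k → ℝ} (hk : 0 < k) (hp : ∀ j, 2 ≤ p j)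
    (s : EuclideanSpace ℝ (Fin k)) : 0 ≤ GG p s :=
  div_nonneg (Finset.sum_nonneg fun j _ => Real.rpow_nonneg (abs_nonneg _) _) (MM_pos hk hp).le

theorem GG_zero {p : Fin k → ℝ} (hp : ∀ j, 2 ≤ p j) : GG p 0 = 0 := by
  unfold GG
  have : ∀ j, |(0 : EuclideanSpace ℝ (Fin k)) j| ^ p j = 0 := fun j => by
    have h1 : (0 : EuclideanSpace ℝ (Fin k)) j = 0 := rfl
    rw [h1, abs_zero, Real.zero_rpow (by linarith [hp j])]
  simp only [this, Finset.sum_const_zero, zero_div]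

theorem GG_conv {p : Fin k → ℝ} (hk : 0 < k) (hp : ∀ j, 2 ≤ p j)
    (x y : EuclideanSpace ℝ (Fin k)) (t : ℝ) (h0 : 0 < t) (h1 : t < 1) :
    GG p ((1 - t) • x + t • y) ≤ (1 - t) * GG p x + t * GG p y := by
  unfold GG
  rw [← mul_div_assoc, ← mul_div_assoc, ← add_div]
  refine div_le_div_of_nonneg_right ?_ (MM_pos hk hp).le
  rw [Finset.mul_sum, Finset.mul_sum, ← Finset.sum_add_distrib]
  refine Finset.sum_le_sum fun j _ => ?_
  have h2 : 0 ≤ 1 - t := by linarith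
  have e : ((1 - t) • x + t • y) j = (1 - t) * x j + t * y j := rfl
  rw [e]
  have h3 : |(1 - t) * x j + t * y j| ≤ (1 - t) * |x j| + t * |y j| := by
    refine (abs_add_le _ _).trans ?_
    rw [abs_mul, abs_mul, abs_of_nonneg h2, abs_of_pos h0]
  have hpj : 1 ≤ p j := by linarith [hp j]
  refine (Real.rpow_le_rpow (abs_nonneg _) h3 (by linarith)).trans ?_
  have h4 := (convexOn_rpow hpj).2 (mem_Ici.2 (abs_nonneg (x j))) (mem_Ici.2 (abs_nonneg (y j)))
    h2 h0.le (by ring)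
  simpa only [smul_eq_mul] using h4

theorem GG_even {p : Fin k → ℝ} (s : EuclideanSpace ℝ (Fin k)) : GG p (-s) = GG p s := by
  unfold GG
  have : ∀ j, |(-s) j| = |s j| := fun j => abs_neg _
  simp only [this]

theorem GG_fl {p : Fin k → ℝ} (i : Fin k) (s : EuclideanSpace ℝ (Fin k)) :
    GG p (fl i s) = GG p s := by
  unfold GG
  congr 1
  refine Finset.sum_congr rfl fun j _ => ?_
  rw [fl_apply]
  split_ifs
  · rw [abs_neg]
  · rfl

theorem GG_sq {p : Fin k → ℝ} (hk : 0 < k) (hp : ∀ j, 2 ≤ p j)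
    (s : EuclideanSpace ℝ (Fin k)) : ‖s‖ ^ 2 ≤ k + MM p * GG p s := by
  unfold GG
  rw [mul_div_cancel₀ _ (MM_pos hk hp).ne', EuclideanSpace.real_norm_sq_eq]
  calc ∑ j, s j ^ 2 ≤ ∑ j, (1 + |s j| ^ p j) :=
        Finset.sum_le_sum fun j _ => sq_le_one_add (hp j)
    _ = _ := by
        rw [Finset.sum_add_distrib, Finset.sum_const, Finset.card_univ, Fintype.card_fin,
          nsmul_eq_mul, mul_one]

section family

variable {ι : Type} [Fintype ι] [DecidableEq ι] {m : ι → ℕ}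

/-- the family of indicators -/
noncomputable def pd (J : ℝ → ℝ) (p : ∀ i, Fin (m i) → ℝ) (i : ι) (s : Xb m i) : ℝ :=
  J (GG (p i) s)

theorem pd_fam {J : ℝ → ℝ} (hJ : IJ J) {p : ∀ i, Fin (m i) → ℝ} (hm : ∀ i, 0 < m i)
    (hp : ∀ i j, 2 ≤ p i j) : ∃ R : ℝ, Fam (pd J p) R := by
  refine ⟨∑ i, Real.sqrt (m i + MM (p i)), fun i s => hJ.nn _, fun i =>
    hJ.anti.measurable.comp (GG_cont (hp i)).measurable, ?_, ?_, ?_, ?_⟩
  · intro i s u t ht0 ht1
    refine (hJ.lcr _ _ t ht0 ht1).trans (hJ.anti ?_)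
    exact GG_conv (hm i) (hp i) s u t ht0 ht1
  · intro i s hs
    have h1 : Real.sqrt (m i + MM (p i)) < ‖s‖ := lt_of_le_of_lt
      (Finset.single_le_sum (f := fun i => Real.sqrt (m i + MM (p i)))
        (fun j _ => Real.sqrt_nonneg _) (Finset.mem_univ i)) hs
    have h2 := (Real.sqrt_lt' (lt_of_le_of_lt (Real.sqrt_nonneg _) h1)).1 h1
    refine hJ.zero _ ?_
    by_contra hn
    have h3 := GG_sq (hm i) (hp i) s
    have h4 := mul_le_mul_of_nonneg_left (not_lt.1 hn) (MM_pos (hm i) (hp i)).le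
    linarith
  · refine ⟨1, one_pos, fun i s => ?_⟩
    unfold pd
    rcases hJ.or (GG (p i) s) with h | h <;> rw [h]
    norm_num
  · have h1 : ∀ i, ∃ δ : ℝ, 0 < δ ∧ ∀ s : Xb m i, ‖s‖ < δ → 1 ≤ pd J p i s := fun i => by
      have h2 : ∀ᶠ s in nhds (0 : Xb m i), GG (p i) s < 1 :=
        (GG_cont (hp i)).continuousAt.eventually_lt continuousAt_const
          (by rw [GG_zero (hp i)]; exact one_pos)
      obtain ⟨δ, hδ, h3⟩ := Metric.eventually_nhds_iff.1 h2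
      refine ⟨δ, hδ, fun s hs => ?_⟩
      exact (hJ.one' (h3 (by rwa [dist_zero_right]))).ge
    choose δ hδ hp' using h1
    have h2 : ∀ᶠ x in nhdsWithin (0 : ℝ) (Ioi 0), ∀ i, x < δ i := by
      rw [Filter.eventually_all]
      intro i
      exact Filter.mem_of_superset (Ioo_mem_nhdsGT (hδ i)) fun x hx => hx.2
    obtain ⟨x, hx, hx0⟩ := (h2.and self_mem_nhdsWithin).exists
    exact ⟨1, x, one_pos, hx0, fun i s hs => hp' i s (hs.trans (hx i))⟩

end family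

theorem JG_int {J : ℝ → ℝ} (hJ : IJ J) {p : Fin k → ℝ} (hk : 0 < k) (hp : ∀ j, 2 ≤ p j)
    (g : EuclideanSpace ℝ (Fin k) → ℝ) (hg : Continuous g) :
    Integrable fun s => g s * J (GG p s) := by
  obtain ⟨R, hR⟩ := pd_fam (ι := Unit) (m := fun _ => k) hJ (p := fun _ => p) (fun _ => hk)
    (fun _ => hp)
  exact hR.int () g hg

theorem JG_bdd {J : ℝ → ℝ} (hJ : IJ J) {p : Fin k → ℝ} (hk : 0 < k) (hp : ∀ j, 2 ≤ p j) :
    ∃ R : ℝ, ∀ s : EuclideanSpace ℝ (Fin k), R < ‖s‖ → J (GG p s) = 0 := by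
  obtain ⟨R, hR⟩ := pd_fam (ι := Unit) (m := fun _ => k) hJ (p := fun _ => p) (fun _ => hk)
    (fun _ => hp)
  exact ⟨R, fun s hs => hR.supp () s hs⟩

/-- the coordinatewise dilation -/
noncomputable def sc (D : Fin k → ℝ) (x : EuclideanSpace ℝ (Fin k)) : EuclideanSpace ℝ (Fin k) :=
  WithLp.toLp 2 fun j => D j * x j

theorem sc_apply (D : Fin k → ℝ) (x : EuclideanSpace ℝ (Fin k)) (j : Fin k) :
    sc D x j = D j * x j := rfl

theorem sc_cont (D : Fin k → ℝ) : Continuous (sc D) := by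
  unfold sc
  fun_prop

theorem lint_sc (D : Fin k → ℝ) (hD : ∀ j, 0 < D j) (Φ : EuclideanSpace ℝ (Fin k) → ℝ≥0∞)
    (hΦ : Measurable Φ) : ∫⁻ x, Φ x = ENNReal.ofReal (∏ j, D j) * ∫⁻ x, Φ (sc D x) := by
  have hP : 0 < ∏ j, D j := Finset.prod_pos fun j _ => hD j
  have h1 := Real.smul_map_diagonal_volume_pi (D := D) (by
    rw [Matrix.det_diagonal]
    exact hP.ne')
  have hmeas : Measurable fun y : Fin k → ℝ => Φ (WithLp.toLp 2 y) :=
    hΦ.comp (by fun_prop : Continuous fun y : Fin k → ℝ =>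
      (WithLp.toLp 2 y : EuclideanSpace ℝ (Fin k))).measurable
  have hlin : Measurable (Matrix.toLin' (Matrix.diagonal D)) :=
    (LinearMap.continuous_on_pi _).measurable
  rw [lint_pi, lint_pi]
  have h2 : ∫⁻ y : Fin k → ℝ, Φ (WithLp.toLp 2 y) =
      ∫⁻ y : Fin k → ℝ, Φ (WithLp.toLp 2 y) ∂(ENNReal.ofReal
        (abs (Matrix.det (Matrix.diagonal D))) •
          Measure.map (Matrix.toLin' (Matrix.diagonal D)) volume) := by rw [h1]
  rw [h2, lintegral_smul_measure, lintegral_map hmeas hlin, Matrix.det_diagonal, abs_of_pos hP,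
    smul_eq_mul]
  congr 1
  refine lintegral_congr fun y => ?_
  congr 1
  ext j
  rw [sc_apply]
  simp [Matrix.mulVec_diagonal]

theorem GG_sc {p : Fin k → ℝ} (hp : ∀ j, 2 ≤ p j) {t : ℝ} (ht : 0 < t)
    (x : EuclideanSpace ℝ (Fin k)) : GG p (sc (fun j => t ^ (p j)⁻¹) x) = t * GG p x := by
  unfold GG
  rw [← mul_div_assoc, Finset.mul_sum]
  congr 1
  refine Finset.sum_congr rfl fun j _ => ?_
  have hpj : p j ≠ 0 := by linarith [hp j]
  have h1 : 0 ≤ t ^ (p j)⁻¹ := Real.rpow_nonneg ht.le _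
  rw [sc_apply, abs_mul, abs_of_nonneg h1, Real.mul_rpow h1 (abs_nonneg _),
    ← Real.rpow_mul ht.le, inv_mul_cancel₀ hpj, Real.rpow_one]

theorem prod_sc {p : Fin k → ℝ} {t : ℝ} (ht : 0 < t) :
    ∏ j, t ^ (p j)⁻¹ = t ^ MM p := by
  unfold MM
  rw [Real.rpow_sum_of_pos ht]

end Pool.Agent.Y506.KS
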