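import Pool.Agent.Y506.KS.Pd

/-!
# Tilt stability of the bodies `∑ |s_j| ^ (p_j) ≤ M`
-/

set_option autoImplicit false
set_option linter.unusedSectionVars false

namespace Pool.Agent.Y506.KS

open MeasureTheory Set
open scoped ENNReal InnerProductSpace

variable {k : ℕ}

/-- the tilt -/
noncomputable def tau (a : EuclideanSpace ℝ (Fin k)) (b : ℝ) (s : EuclideanSpace ℝ (Fin k)) : ℝ :=
  Real.exp (⟪a, s⟫_ℝ - b * ‖s‖ ^ 2)

theorem tau_pos (a : EuclideanSpace ℝ (Fin k)) (b : ℝ) (s : EuclideanSpace ℝ (Fin k)) :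
    0 < tau a b s := Real.exp_pos _

theorem tau_cont (a : EuclideanSpace ℝ (Fin k)) (b : ℝ) : Continuous (tau a b) := by
  unfold tau
  fun_prop

theorem tau_lc (a : EuclideanSpace ℝ (Fin k)) {b : ℝ} (hb : 0 ≤ b)
    (x y : EuclideanSpace ℝ (Fin k)) (t : ℝ) (h0 : 0 < t) (h1 : t < 1) :
    tau a b x ^ (1 - t) * tau a b y ^ t ≤ tau a b ((1 - t) • x + t • y) := by
  unfold tau
  rw [← Real.exp_mul, ← Real.exp_mul, ← Real.exp_add]
  refine Real.exp_le_exp.2 ?_
  rw [inner_add_right, real_inner_smul_right, real_inner_smul_right]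
  have h2 := sq_conv x y 0 t h0 h1
  simp only [sub_zero] at h2
  nlinarith [mul_le_mul_of_nonneg_left h2 hb]

theorem PF_tau (p : Fin k → ℝ) (β : ℝ) (a : EuclideanSpace ℝ (Fin k)) (b : ℝ)
    (s : EuclideanSpace ℝ (Fin k)) : PF p β a b s =
      Real.exp (-(β * MM p * GG p s)) * tau a b s ∨ MM p = 0 := by
  by_cases h : MM p = 0
  · exact Or.inr h
  · left
    unfold PF tau GG
    congr 3
    field_simp

theorem IJ.le_exp {J : ℝ → ℝ} (h : IJ J) (t : ℝ) : J t ≤ Real.exp (1 - t) := by
  rcases le_or_gt t 1 with ht | ht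
  · have h1 : J t ≤ 1 := by rcases h.or t with h1 | h1 <;> rw [h1]; norm_num
    exact h1.trans (Real.one_le_exp (by linarith))
  · rw [h.zero t ht]
    exact (Real.exp_pos _).le

/-- the mass of the sublevel sets -/
noncomputable def Hz (J : ℝ → ℝ) (p : Fin k → ℝ) (a : EuclideanSpace ℝ (Fin k)) (b z : ℝ) :
    ℝ≥0∞ := ∫⁻ x, ENNReal.ofReal (J (GG p x - z) * tau a b x)

theorem Hz_fin {J : ℝ → ℝ} (hJ : IJ J) {p : Fin k → ℝ} (hk : 0 < k) (hp : ∀ j, 2 ≤ p j)
    (a : EuclideanSpace ℝ (Fin k)) {b : ℝ} (hb : 0 ≤ b) (z : ℝ) : Hz J p a b z ≠ ∞ := by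
  have hM := MM_pos hk hp
  have hI := (PF_intg hp (inv_pos.2 hM) a hb 0).1.const_mul (Real.exp (1 + z))
  refine (lt_of_le_of_lt (lintegral_mono fun x => ENNReal.ofReal_le_ofReal (?_ :
    J (GG p x - z) * tau a b x ≤ Real.exp (1 + z) * PF p (MM p)⁻¹ a b x))
    hI.lintegral_lt_top).ne
  rcases PF_tau p (MM p)⁻¹ a b x with h | h
  · rw [h, inv_mul_cancel₀ hM.ne', one_mul, ← mul_assoc, ← Real.exp_add]
    refine mul_le_mul_of_nonneg_right ?_ (tau_pos _ _ _).le
    have := hJ.le_exp (GG p x - z)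
    have e : 1 - (GG p x - z) = 1 + z + -GG p x := by ring
    rwa [e] at this
  · exact absurd h hM.ne'

theorem Hz_low {J : ℝ → ℝ} (hJ : IJ J) {p : Fin k → ℝ} (hk : 0 < k) (hp : ∀ j, 2 ≤ p j)
    (a : EuclideanSpace ℝ (Fin k)) {b : ℝ} (hb : 0 ≤ b) :
    ∃ δ r : ℝ, 0 < δ ∧ 0 < r ∧ ∀ z : ℝ, ‖z‖ < r → ENNReal.ofReal δ ≤ Hz J p a b z := by
  obtain ⟨A, hA⟩ : ∃ A : ℝ≥0∞, A = ∫⁻ x, {x | GG p x < 1 / 2}.indicator
    (fun x => ENNReal.ofReal (tau a b x)) x := ⟨_, rfl⟩
  have hle : ∀ z : ℝ, ‖z‖ < 1 / 2 → A ≤ Hz J p a b z := by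
    intro z hz
    rw [hA]
    refine lintegral_mono fun x => ?_
    by_cases hx : x ∈ {x | GG p x < 1 / 2}
    · rw [indicator_of_mem hx]
      have h1 : GG p x < 1 / 2 := hx
      have h2 : -(1 / 2) < z := by
        rw [Real.norm_eq_abs] at hz
        exact (abs_lt.1 hz).1
      rw [hJ.one' (by linarith), one_mul]
    · rw [indicator_of_notMem hx]
      exact zero_le
  have hAtop : A ≠ ∞ := ((hle 0 (by norm_num)).trans_lt (lt_top_iff_ne_top.2
    (Hz_fin hJ hk hp a hb 0))).ne
  have ho : IsOpen {x | GG p x < 1 / 2} := isOpen_lt (GG_cont hp) continuous_const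
  have hA0 : A ≠ 0 := by
    rw [hA]
    refine (ne_of_gt ((lintegral_pos_iff_support ?_).2 ?_))
    · exact (tau_cont a b).measurable.ennreal_ofReal.indicator ho.measurableSet
    · have h1 : (Function.support ({x | GG p x < 1 / 2}.indicator
          (fun x => ENNReal.ofReal (tau a b x)))) = {x | GG p x < 1 / 2} := by
        ext x
        rw [Function.mem_support]
        by_cases hx : x ∈ {x | GG p x < 1 / 2}
        · rw [indicator_of_mem hx]
          exact ⟨fun _ => hx, fun _ => (ENNReal.ofReal_pos.2 (tau_pos _ _ _)).ne'⟩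
        · rw [indicator_of_notMem hx]
          exact ⟨fun h => absurd rfl h, fun h => absurd h hx⟩
      rw [h1]
      refine ho.measure_pos volume ⟨0, ?_⟩
      have : GG p 0 < 1 / 2 := by rw [GG_zero hp]; norm_num
      exact this
  refine ⟨A.toReal, 1 / 2, ENNReal.toReal_pos hA0 hAtop, by norm_num, fun z hz => ?_⟩
  rw [ENNReal.ofReal_toReal hAtop]
  exact hle z hz

/-- the first moments of the tilted body have the right sign -/
theorem sgn_int {J : ℝ → ℝ} (hJ : IJ J) {p : Fin k → ℝ} (hk : 0 < k) (hp : ∀ j, 2 ≤ p j)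
    (a : EuclideanSpace ℝ (Fin k)) (b : ℝ) (j : Fin k) :
    0 ≤ ∫ x : EuclideanSpace ℝ (Fin k), (a j * x j * tau a b x) * J (GG p x) := by
  have hc := tau_cont a b
  have i1 := JG_int hJ hk hp (fun x => a j * x j * tau a b x) (by fun_prop)
  have i2 := intg_iso (fl j) _ i1
  have h1 := int_iso (fl j) fun x => (a j * x j * tau a b x) * J (GG p x)
  have h2 : 0 ≤ ∫ x : EuclideanSpace ℝ (Fin k), ((a j * x j * tau a b x) * J (GG p x) +
      (a j * (fl j x) j * tau a b (fl j x)) * J (GG p (fl j x))) := by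
    refine integral_nonneg fun x => ?_
    simp only [Pi.zero_apply]
    rw [GG_fl, fl_apply, if_pos rfl, ← add_mul]
    refine mul_nonneg ?_ (hJ.nn _)
    have e : tau a b (fl j x) = tau a b x * Real.exp (-(2 * (a j * x j))) := by
      unfold tau
      rw [← Real.exp_add, LinearIsometryEquiv.norm_map]
      congr 1
      have h3 : ⟪a, fl j x⟫_ℝ = ⟪a, x⟫_ℝ - 2 * (a j * x j) := by
        rw [PiLp.inner_apply, PiLp.inner_apply]
        simp only [RCLike.inner_apply, conj_trivial, fl_apply]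
        have h4 : ∀ l, (if l = j then -x l else x l) * a l = x l * a l -
            (if l = j then 2 * (a j * x j) else 0) := fun l => by
          split_ifs with h
          · rw [h]; ring
          · ring
        simp only [h4]
        rw [Finset.sum_sub_distrib, Finset.sum_ite_eq' Finset.univ j]
        simp
      rw [h3]
      ring
    rw [e]
    have h5 : 0 < tau a b x := tau_pos _ _ _
    have h6 : 0 ≤ (a j * x j) * (1 - Real.exp (-(2 * (a j * x j)))) := by
      rcases le_total 0 (a j * x j) with h | h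
      · exact mul_nonneg h (sub_nonneg.2 (Real.exp_le_one_iff.2 (by linarith)))
      · exact mul_nonneg_of_nonpos_of_nonpos h (sub_nonpos.2 (Real.one_le_exp (by linarith)))
    have h7 : a j * x j * tau a b x + a j * -x j * (tau a b x * Real.exp (-(2 * (a j * x j)))) =
        ((a j * x j) * (1 - Real.exp (-(2 * (a j * x j))))) * tau a b x := by ring
    rw [h7]
    exact mul_nonneg h6 h5.le
  rw [integral_add i1 i2, h1] at h2
  linarith

theorem two_pow_le {p : ℝ} (hp : 2 ≤ p) : ((2 : ℝ) ^ p⁻¹) ^ 2 - 1 ≤ 2 * p⁻¹ := by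
  have hp0 : 0 < p := by linarith
  have h1 : ((2 : ℝ) ^ p⁻¹) ^ 2 = (1 + 1) ^ (2 * p⁻¹) := by
    rw [← Real.rpow_natCast, ← Real.rpow_mul (by norm_num)]
    congr 1
    · norm_num
    · push_cast
      ring
  rw [h1]
  have h2 := rpow_one_add_le_one_add_mul_self (s := 1) (by norm_num)
    (by positivity : 0 ≤ 2 * p⁻¹) (by
      rw [← div_eq_mul_inv, div_le_one hp0]
      exact hp)
  linarith

theorem growth {J : ℝ → ℝ} (hJ : IJ J) {p : Fin k → ℝ} (hk : 0 < k) (hp : ∀ j, 2 ≤ p j)
    (a : EuclideanSpace ℝ (Fin k)) {b : ℝ} (hb : 0 ≤ b) :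
    Hz J p a b 0 * ENNReal.ofReal (Real.exp (MM p * (Real.log 2 - 3 * b))) ≤ Hz J p a b 1 := by
  have hM := MM_pos hk hp
  have hGc := GG_cont hp
  have hτc := tau_cont a b
  obtain ⟨D, hD⟩ : ∃ D : Fin k → ℝ, D = fun j => (2 : ℝ) ^ (p j)⁻¹ := ⟨_, rfl⟩
  have hD0 : ∀ j, 0 < D j := fun j => by rw [hD]; positivity
  have hD1 : ∀ j, 1 ≤ D j := fun j => by
    rw [hD]
    exact Real.one_le_rpow (by norm_num) (inv_nonneg.2 (by linarith [hp j]))
  have hprod : ∏ j, D j = (2 : ℝ) ^ MM p := by rw [hD]; exact prod_sc (by norm_num)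
  have hGD : ∀ x, GG p (sc D x) = 2 * GG p x := fun x => by
    rw [hD]
    exact GG_sc hp (by norm_num) x
  have hscc := sc_cont D
  have hJm : Measurable fun x => ENNReal.ofReal (J (GG p x - 1) * tau a b x) :=
    ENNReal.measurable_ofReal.comp ((hJ.anti.measurable.comp
      (hGc.sub continuous_const).measurable).mul hτc.measurable)
  -- integrals against the body
  have iτ := JG_int hJ hk hp (tau a b) hτc
  have iτs := JG_int hJ hk hp (fun x => tau a b (sc D x)) (hτc.comp hscc)
  obtain ⟨Z, hZ⟩ : ∃ Z : ℝ, Z = ∫ x, tau a b x * J (GG p x) := ⟨_, rfl⟩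
  have hH0 : Hz J p a b 0 = ENNReal.ofReal Z := by
    unfold Hz
    rw [hZ, ofReal_integral_eq_lintegral_ofReal iτ (Filter.Eventually.of_forall fun x =>
      mul_nonneg (tau_pos _ _ _).le (hJ.nn _))]
    simp only [sub_zero, mul_comm]
  have hZ0 : 0 ≤ Z := by
    rw [hZ]
    exact integral_nonneg fun x => mul_nonneg (tau_pos _ _ _).le (hJ.nn _)
  have hH1 : ENNReal.ofReal ((2 : ℝ) ^ MM p) * ENNReal.ofReal
      (∫ x, tau a b (sc D x) * J (GG p x)) ≤ Hz J p a b 1 := by
    unfold Hz
    rw [lint_sc D hD0 _ hJm, hprod]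
    refine mul_le_mul' le_rfl ?_
    rw [ofReal_integral_eq_lintegral_ofReal iτs (Filter.Eventually.of_forall fun x =>
      mul_nonneg (tau_pos _ _ _).le (hJ.nn _))]
    refine lintegral_mono fun x => ENNReal.ofReal_le_ofReal ?_
    rw [mul_comm]
    refine mul_le_mul_of_nonneg_right ?_ (tau_pos _ _ _).le
    rw [hGD]
    rcases hJ.or (GG p x) with h | h
    · rw [h]
      exact hJ.nn _
    · refine hJ.anti ?_
      have : GG p x ≤ 1 := by
        by_contra hn
        rw [hJ.zero _ (not_le.1 hn)] at h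
        norm_num at h
      linarith
  -- Jensen
  have key : Real.exp (-(3 * b * MM p)) * Z ≤ ∫ x, tau a b (sc D x) * J (GG p x) := by
    obtain ⟨h, hh⟩ : ∃ h : EuclideanSpace ℝ (Fin k) → ℝ, h = fun x =>
      ∑ j, (D j - 1) * (a j * x j) - b * ∑ j, (D j ^ 2 - 1) * x j ^ 2 := ⟨_, rfl⟩
    have hhc : Continuous h := by
      rw [hh]
      fun_prop
    have hτD : ∀ x, tau a b (sc D x) = tau a b x * Real.exp (h x) := by
      intro x
      unfold tau
      rw [← Real.exp_add, hh]
      congr 1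
      rw [PiLp.inner_apply, PiLp.inner_apply, EuclideanSpace.real_norm_sq_eq,
        EuclideanSpace.real_norm_sq_eq]
      simp only [RCLike.inner_apply, conj_trivial, sc_apply]
      have e1 : ∑ j, D j * x j * a j = ∑ j, x j * a j + ∑ j, (D j - 1) * (a j * x j) := by
        rw [← Finset.sum_add_distrib]
        exact Finset.sum_congr rfl fun j _ => by ring
      have e2 : ∑ j, (D j * x j) ^ 2 = ∑ j, x j ^ 2 + ∑ j, (D j ^ 2 - 1) * x j ^ 2 := by
        rw [← Finset.sum_add_distrib]
        exact Finset.sum_congr rfl fun j _ => by ring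
      rw [e1, e2]
      ring
    have i2 := JG_int hJ hk hp (fun x => tau a b x * (h x + 3 * b * MM p)) (by fun_prop)
    have hpos : 0 ≤ ∫ x, tau a b x * (h x + 3 * b * MM p) * J (GG p x) := by
      have i3 : ∀ j : Fin k, Integrable fun x : EuclideanSpace ℝ (Fin k) =>
          (D j - 1) * ((a j * x j * tau a b x) * J (GG p x)) := fun j =>
        (JG_int hJ hk hp (fun x => a j * x j * tau a b x) (by fun_prop)).const_mul _
      have i4 := JG_int hJ hk hp (fun x => (b * (3 * MM p - ∑ j, (D j ^ 2 - 1) * x j ^ 2)) *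
        tau a b x) (by fun_prop)
      have e1 : ∀ x, tau a b x * (h x + 3 * b * MM p) * J (GG p x) =
          (∑ j, (D j - 1) * ((a j * x j * tau a b x) * J (GG p x))) +
          (b * (3 * MM p - ∑ j, (D j ^ 2 - 1) * x j ^ 2)) * tau a b x * J (GG p x) := by
        intro x
        rw [hh]
        simp only
        have e2 : ∑ j, (D j - 1) * (a j * x j * tau a b x * J (GG p x)) =
            (∑ j, (D j - 1) * (a j * x j)) * (tau a b x * J (GG p x)) := by
          rw [Finset.sum_mul]
          exact Finset.sum_congr rfl fun j _ => by ring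
        rw [e2]
        ring
      simp only [e1]
      rw [integral_add (integrable_finsetSum _ fun j _ => i3 j) i4,
        integral_finsetSum _ fun j _ => i3 j]
      refine add_nonneg (Finset.sum_nonneg fun j _ => ?_) (integral_nonneg fun x => ?_)
      · rw [integral_const_mul]
        exact mul_nonneg (sub_nonneg.2 (hD1 j)) (sgn_int hJ hk hp a b j)
      · simp only [Pi.zero_apply]
        rcases hJ.or (GG p x) with h0 | h0
        · rw [h0, mul_zero]
        · have hG1 : GG p x ≤ 1 := by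
            by_contra hn
            rw [hJ.zero _ (not_le.1 hn)] at h0
            norm_num at h0
          refine mul_nonneg (mul_nonneg (mul_nonneg hb (sub_nonneg.2 ?_)) (tau_pos _ _ _).le)
            (hJ.nn _)
          have h1 : ∀ j, (D j ^ 2 - 1) * x j ^ 2 ≤ 2 * (p j)⁻¹ + |x j| ^ p j := by
            intro j
            have h2 : D j ^ 2 - 1 ≤ 2 * (p j)⁻¹ := by rw [hD]; exact two_pow_le (hp j)
            have h3 : 0 ≤ D j ^ 2 - 1 := by nlinarith [hD1 j]
            have h4 := sq_le_one_add (s := x j) (hp j)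
            have h5 : 0 ≤ |x j| ^ p j := Real.rpow_nonneg (abs_nonneg _) _
            have h6 : 2 * (p j)⁻¹ ≤ 1 := by
              have hp0 : 0 < p j := by linarith [hp j]
              rw [← div_eq_mul_inv, div_le_one hp0]
              exact hp j
            calc (D j ^ 2 - 1) * x j ^ 2 ≤ (2 * (p j)⁻¹) * (1 + |x j| ^ p j) :=
                  mul_le_mul h2 h4 (sq_nonneg _) (h3.trans h2)
              _ = 2 * (p j)⁻¹ + (2 * (p j)⁻¹) * |x j| ^ p j := by ring
              _ ≤ 2 * (p j)⁻¹ + 1 * |x j| ^ p j := by gcongr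
              _ = _ := by ring
          have h7 := Finset.sum_le_sum fun j (_ : j ∈ Finset.univ) => h1 j
          refine h7.trans ?_
          rw [Finset.sum_add_distrib, ← Finset.mul_sum]
          have h8 : ∑ j, |x j| ^ p j = MM p * GG p x := by
            unfold GG
            rw [mul_div_cancel₀ _ hM.ne']
          have h9 : ∑ j, (p j)⁻¹ = MM p := rfl
          rw [h8, h9]
          nlinarith [mul_le_mul_of_nonneg_left hG1 hM.le]
    have hexp : ∀ x, Real.exp (-(3 * b * MM p)) * (tau a b x * J (GG p x) +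
        tau a b x * (h x + 3 * b * MM p) * J (GG p x)) ≤ tau a b (sc D x) * J (GG p x) := by
      intro x
      rw [hτD]
      have h1 := Real.add_one_le_exp (h x + 3 * b * MM p)
      have h2 : Real.exp (h x) = Real.exp (-(3 * b * MM p)) * Real.exp (h x + 3 * b * MM p) := by
        rw [← Real.exp_add]
        congr 1
        ring
      have h3 : 0 ≤ Real.exp (-(3 * b * MM p)) * (tau a b x * J (GG p x)) :=
        mul_nonneg (Real.exp_pos _).le (mul_nonneg (tau_pos _ _ _).le (hJ.nn _))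
      rw [h2]
      nlinarith [mul_le_mul_of_nonneg_left h1 h3]
    have h3 := integral_mono ((iτ.add i2).const_mul (Real.exp (-(3 * b * MM p)))) iτs hexp
    have h4 : ∫ x, Real.exp (-(3 * b * MM p)) * (tau a b x * J (GG p x) +
        tau a b x * (h x + 3 * b * MM p) * J (GG p x)) = Real.exp (-(3 * b * MM p)) *
        (Z + ∫ x, tau a b x * (h x + 3 * b * MM p) * J (GG p x)) := by
      rw [integral_const_mul, integral_add iτ i2, hZ]
    have h5 : Real.exp (-(3 * b * MM p)) *
        (Z + ∫ x, tau a b x * (h x + 3 * b * MM p) * J (GG p x)) ≤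
        ∫ x, tau a b (sc D x) * J (GG p x) := by
      rw [← h4]
      exact h3
    refine le_trans ?_ h5
    refine mul_le_mul_of_nonneg_left ?_ (Real.exp_pos _).le
    linarith
  refine le_trans ?_ hH1
  rw [hH0, ← ENNReal.ofReal_mul hZ0, ← ENNReal.ofReal_mul (by positivity)]
  refine ENNReal.ofReal_le_ofReal ?_
  have e1 : Real.exp (MM p * (Real.log 2 - 3 * b)) =
      (2 : ℝ) ^ MM p * Real.exp (-(3 * b * MM p)) := by
    rw [Real.rpow_def_of_pos (by norm_num), ← Real.exp_add]
    congr 1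
    ring
  rw [e1]
  calc Z * ((2 : ℝ) ^ MM p * Real.exp (-(3 * b * MM p))) =
        (2 : ℝ) ^ MM p * (Real.exp (-(3 * b * MM p)) * Z) := by ring
    _ ≤ _ := mul_le_mul_of_nonneg_left key (by positivity)

theorem VB_small {J : ℝ → ℝ} (hJ : IJ J) {p : Fin k → ℝ} (hk : 0 < k) (hp : ∀ j, 2 ≤ p j)
    (a : EuclideanSpace ℝ (Fin k)) {b : ℝ} (hb : 0 ≤ b) (hb8 : b ≤ 1 / 8)
    (hpos : 0 < ∫ s, tau a b s * J (GG p s)) : VB (fun s => tau a b s * J (GG p s)) 23 := by
  have hM := MM_pos hk hp
  have hGc := GG_cont hp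
  have hτc := tau_cont a b
  obtain ⟨δ, r, hδ, hr, hlow⟩ := Hz_low hJ hk hp a hb
  have hhz : ∀ z, hh volume (rj J (GG p) (tau a b) 0) z = Hz J p a b z := fun z => by
    unfold hh rj Hz
    simp only [zero_mul, neg_zero, Real.exp_zero, one_mul]
  obtain ⟨θ, hθ⟩ := supergradE (Hz J p a b) (fun z => Hz_fin hJ hk hp a hb z)
    (fun z w t h1 h2 => by
      have := hh_lc volume (rj J (GG p) (tau a b) 0) (rj_meas hJ hGc hτc 0)
        (rj_lce hJ (GG_conv hk hp) (tau_pos a b) (tau_lc a hb) 0) z w t h1 h2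
      simpa only [hhz] using this) δ r hδ hr hlow
  obtain ⟨α, hα⟩ : ∃ α : ℝ, α = θ 1 := ⟨_, rfl⟩
  have hθα : ∀ z : ℝ, θ z = α * z := fun z => by
    have : z = z • (1 : ℝ) := by simp
    rw [this, map_smul, hα, smul_eq_mul, smul_eq_mul, mul_one, mul_comm]
  have h00 : Hz J p a b 0 ≠ 0 := by
    have h1 := hlow 0 (by rw [norm_zero]; exact hr)
    intro h0
    rw [h0] at h1
    exact absurd (ENNReal.ofReal_pos.2 hδ) (not_lt.2 h1)
  have hαM : MM p / 4 ≤ α := by
    have h1 := (growth hJ hk hp a hb).trans (hθ 1)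
    rw [hθα, mul_one] at h1
    have h2 := (ENNReal.mul_le_mul_iff_right h00 (Hz_fin hJ hk hp a hb 0)).1 h1
    rw [ENNReal.ofReal_le_ofReal_iff (Real.exp_pos _).le, Real.exp_le_exp] at h2
    refine le_trans ?_ h2
    have h3 := Real.log_two_gt_d9
    nlinarith
  have hα0 : 0 < α := by linarith
  have hβ : 1 / 4 ≤ α / MM p := by
    rw [le_div_iff₀ hM]
    linarith
  have hF : ∀ x, PF p (α / MM p) a b x = Real.exp (-(α * GG p x)) * tau a b x := fun x => by
    rcases PF_tau p (α / MM p) a b x with h | h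
    · rw [h, div_mul_cancel₀ _ hM.ne']
    · exact absurd h hM.ne'
  have hβ0 : 0 < α / MM p := by linarith
  have hcomm : ∀ s, tau a b s * J (GG p s) = J (GG p s) * tau a b s := fun s => mul_comm _ _
  refine VB_of_ex _ (JG_int hJ hk hp (tau a b) hτc) (fun w => ?_) (fun w => ?_) hpos 23
    fun w => ?_
  · refine (JG_int hJ hk hp (fun s => ⟪w, s⟫_ℝ * tau a b s) (by fun_prop)).congr
      (Filter.Eventually.of_forall fun s => ?_)
    simp only
    ring
  · refine (JG_int hJ hk hp (fun s => ⟪w, s⟫_ℝ ^ 2 * tau a b s) (by fun_prop)).congr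
      (Filter.Eventually.of_forall fun s => ?_)
    simp only
    ring
  · have hz0 : Hz J p a b 0 = ∫⁻ x, ENNReal.ofReal (J (GG p x) * tau a b x) := by
      unfold Hz
      simp only [sub_zero]
    obtain ⟨c, hc⟩ := sec_main hJ hGc (GG_conv hk hp) hτc (tau_pos a b) (tau_lc a hb) hα0
      (PF p (α / MM p) a b) hF (PF_intg hp hβ0 a hb 0).1 (fun w => (PF_intg hp hβ0 a hb w).2.1)
      (fun w => (PF_intg hp hβ0 a hb w).2.2) 2 (PF_VB hp hβ a hb)
      (fun z => by
        have h1 := hθ z
        rw [hθα] at h1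
        rw [hz0] at h1
        exact h1)
      (by rw [← hz0]; exact h00) (by rw [← hz0]; exact Hz_fin hJ hk hp a hb 0) w
    refine ⟨c, ?_⟩
    have i0 := JG_int hJ hk hp (tau a b) hτc
    have i3 := JG_int hJ hk hp (fun s => (⟪w, s⟫_ℝ - c) ^ 2 * tau a b s) (by fun_prop)
    have e1 : ∫⁻ x, ENNReal.ofReal ((⟪w, x⟫_ℝ - c) ^ 2) * ENNReal.ofReal (J (GG p x) * tau a b x) =
        ENNReal.ofReal (∫ s, (⟪w, s⟫_ℝ - c) ^ 2 * (tau a b s * J (GG p s))) := by
      have i4 : Integrable fun s => (⟪w, s⟫_ℝ - c) ^ 2 * (tau a b s * J (GG p s)) :=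
        i3.congr (Filter.Eventually.of_forall fun s => by simp only; ring)
      rw [ofReal_integral_eq_lintegral_ofReal i4 (Filter.Eventually.of_forall fun s =>
        mul_nonneg (sq_nonneg _) (mul_nonneg (tau_pos _ _ _).le (hJ.nn _)))]
      refine lintegral_congr fun s => ?_
      rw [ENNReal.ofReal_mul (sq_nonneg _), hcomm]
    have e2 : ∫⁻ x, ENNReal.ofReal (J (GG p x) * tau a b x) =
        ENNReal.ofReal (∫ s, tau a b s * J (GG p s)) := by
      rw [ofReal_integral_eq_lintegral_ofReal i0 (Filter.Eventually.of_forall fun s =>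
        mul_nonneg (tau_pos _ _ _).le (hJ.nn _))]
      simp only [hcomm]
    rw [e1, e2, ← ENNReal.ofReal_mul (by positivity),
      ENNReal.ofReal_le_ofReal_iff (mul_nonneg (by positivity) hpos.le)] at hc
    refine hc.trans ?_
    refine mul_le_mul_of_nonneg_right ?_ hpos.le
    nlinarith [sq_nonneg ‖w‖]

theorem VB_large {J : ℝ → ℝ} (hJ : IJ J) {p : Fin k → ℝ} (hk : 0 < k) (hp : ∀ j, 2 ≤ p j)
    (a : EuclideanSpace ℝ (Fin k)) {b : ℝ} (hb8 : 1 / 8 ≤ b)
    (hpos : 0 < ∫ s, tau a b s * J (GG p s)) : VB (fun s => tau a b s * J (GG p s)) 23 := by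
  have hGc := GG_cont hp
  have hτc := tau_cont a b
  have hb : 0 < b := by linarith
  refine VB_of_ex _ (JG_int hJ hk hp (tau a b) hτc) (fun w => ?_) (fun w => ?_) hpos 23
    fun w => ?_
  · refine (JG_int hJ hk hp (fun s => ⟪w, s⟫_ℝ * tau a b s) (by fun_prop)).congr
      (Filter.Eventually.of_forall fun s => ?_)
    simp only
    ring
  · refine (JG_int hJ hk hp (fun s => ⟪w, s⟫_ℝ ^ 2 * tau a b s) (by fun_prop)).congr
      (Filter.Eventually.of_forall fun s => ?_)
    simp only
    ring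
  · have hJ1 : ∀ t, J t ≤ 1 := fun t => by rcases hJ.or t with h1 | h1 <;> rw [h1]; norm_num
    obtain ⟨R, hR⟩ := JG_bdd hJ hk hp
    obtain ⟨B, hB⟩ := (isCompact_closedBall (0 : EuclideanSpace ℝ (Fin k)) R).exists_bound_of_continuousOn
      hτc.continuousOn
    have hB0 : ∀ x : EuclideanSpace ℝ (Fin k), tau a b x * J (GG p x) ≤ |B| := by
      intro x
      rcases le_or_gt ‖x‖ R with hx | hx
      · have h1 := hB x (by rw [Metric.mem_closedBall, dist_zero_right]; exact hx)
        rw [Real.norm_of_nonneg (tau_pos _ _ _).le] at h1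
        calc tau a b x * J (GG p x) ≤ tau a b x * 1 :=
              mul_le_mul_of_nonneg_left (hJ1 _) (tau_pos _ _ _).le
          _ ≤ |B| := by rw [mul_one]; exact h1.trans (le_abs_self B)
      · rw [hR x hx, mul_zero]
        exact abs_nonneg _
    obtain ⟨c, hc⟩ := Pool.Agent.H212R2.KLS.poincare_of_strong
      (volume : Measure (EuclideanSpace ℝ (Fin k))) (fun s => tau a b s * J (GG p s))
      (fun s => mul_nonneg (tau_pos _ _ _).le (hJ.nn _))
      (hτc.measurable.mul (hJ.anti.measurable.comp hGc.measurable)) ⟨|B|, hB0⟩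
      ⟨R, fun s hs => by simp only [hR s hs, mul_zero]⟩ (2 * b) (by positivity)
      (by
        intro x y
        have e0 : (1 / 2 : ℝ) • (x + y) = (1 - 1 / 2 : ℝ) • x + (1 / 2 : ℝ) • y := by
          rw [smul_add]
          norm_num
        have h1 : J (GG p x) * J (GG p y) ≤ J (GG p ((1 / 2 : ℝ) • (x + y))) ^ 2 := by
          have h2 : J ((1 - 1 / 2) * GG p x + 1 / 2 * GG p y) ≤
              J (GG p ((1 / 2 : ℝ) • (x + y))) := by
            rw [e0]
            exact hJ.anti (GG_conv hk hp x y (1 / 2) (by norm_num) (by norm_num))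
          have h3 := hJ.lcr (GG p x) (GG p y) (1 / 2) (by norm_num) (by norm_num)
          rcases hJ.or (GG p x) with h4 | h4
          · rw [h4, zero_mul]
            positivity
          · rcases hJ.or (GG p y) with h5 | h5
            · rw [h5, mul_zero]
              positivity
            · rw [h4, h5, Real.one_rpow, Real.one_rpow, one_mul] at h3
              rw [h4, h5, one_mul]
              have h6 := h3.trans h2
              nlinarith
        have h2 : tau a b x * tau a b y = tau a b ((1 / 2 : ℝ) • (x + y)) ^ 2 *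
            Real.exp (-(2 * b / 4 * ‖x - y‖ ^ 2)) := by
          unfold tau
          rw [← Real.exp_add, ← Real.exp_nat_mul, ← Real.exp_add]
          congr 1
          have h3 := parallelogram_law_with_norm ℝ x y
          rw [norm_smul, mul_pow, real_inner_smul_right, inner_add_right]
          have h7 : ‖(1 / 2 : ℝ)‖ ^ 2 = 1 / 4 := by norm_num
          rw [h7]
          push_cast
          linear_combination (b / 2) * h3
        calc tau a b x * J (GG p x) * (tau a b y * J (GG p y)) =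
              (tau a b x * tau a b y) * (J (GG p x) * J (GG p y)) := by ring
          _ ≤ (tau a b x * tau a b y) * J (GG p ((1 / 2 : ℝ) • (x + y))) ^ 2 :=
              mul_le_mul_of_nonneg_left h1 (mul_nonneg (tau_pos _ _ _).le (tau_pos _ _ _).le)
          _ = _ := by rw [h2]; ring)
      (fun x => innerSL ℝ w x) (innerSL ℝ w).contDiff
    refine ⟨c, ?_⟩
    have e1 : ∀ x : EuclideanSpace ℝ (Fin k), fderiv ℝ (fun x => innerSL ℝ w x) x = innerSL ℝ w :=
      fun x => (innerSL ℝ w).fderiv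
    simp only [e1] at hc
    simp only [innerSL_apply_apply, innerSL_apply_norm] at hc
    rw [integral_const_mul] at hc
    refine hc.trans ?_
    have h1 : (2 * b)⁻¹ ≤ 4 := by
      rw [inv_le_comm₀ (by positivity) (by norm_num)]
      linarith
    have h2 : 0 ≤ ‖w‖ ^ 2 * ∫ s, tau a b s * J (GG p s) := mul_nonneg (sq_nonneg _) hpos.le
    calc (2 * b)⁻¹ * (‖w‖ ^ 2 * ∫ s, tau a b s * J (GG p s))
        ≤ 4 * (‖w‖ ^ 2 * ∫ s, tau a b s * J (GG p s)) := mul_le_mul_of_nonneg_right h1 h2
      _ ≤ 23 ^ 2 * ‖w‖ ^ 2 * ∫ s, tau a b s * J (GG p s) := by nlinarith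

end Pool.Agent.Y506.KS
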