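import Pool.Agent.Y506.KS.Pf

/-!
# The class of bodies `{x | ∀ i, ∑ j, |L i j x| ^ (p i j) ≤ 1}`
-/

set_option autoImplicit false
set_option linter.unusedSectionVars false

namespace Pool.Agent.Y506.KS

open MeasureTheory Set
open scoped ENNReal InnerProductSpace

variable {ι : Type} [Fintype ι] [DecidableEq ι] {m : ι → ℕ} {κ : Type} [Fintype κ]

theorem pd_TS {J : ℝ → ℝ} (hJ : IJ J) {p : ∀ i, Fin (m i) → ℝ} (hm : ∀ i, 0 < m i)
    (hp : ∀ i j, 2 ≤ p i j) : TS (pd J p) 23 := by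
  obtain ⟨R0, hF⟩ := pd_fam hJ hm hp
  intro i a b hb
  have e : (fun s : Xb m i => pd J p i s * Real.exp (⟪a, s⟫_ℝ - b * ‖s‖ ^ 2)) =
      fun s => tau a b s * J (GG (p i) s) := by
    funext s
    unfold pd tau
    exact mul_comm _ _
  have hpos := (hF.md (Function.update (fun _ => 0) i a) (fun _ => 0) b hb).ipos i
  have e2 : ∀ s : Xb m i, md (pd J p) (Function.update (fun _ => 0) i a) (fun _ => 0) b i s =
      tau a b s * J (GG (p i) s) := by
    intro s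
    unfold md pd tau
    rw [Function.update_self, sub_zero]
    exact mul_comm _ _
  simp only [e2] at hpos
  rw [e]
  rcases le_total b (1 / 8) with h | h
  · exact VB_small hJ (hm i) (hp i) a hb h hpos
  · exact VB_large hJ (hm i) (hp i) a h hpos

/-- the linear map of a factor -/
noncomputable def QL (p : ∀ i, Fin (m i) → ℝ) (L : ∀ i, Fin (m i) → (EuclideanSpace ℝ κ →L[ℝ] ℝ))
    (i : ι) : EuclideanSpace ℝ κ →L[ℝ] Xb m i :=
  LinearMap.toContinuousLinearMap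
    { toFun := fun x => WithLp.toLp 2 fun j => (MM (p i)) ^ (p i j)⁻¹ * L i j x
      map_add' := fun x y => by
        ext j
        simp [mul_add]
      map_smul' := fun c x => by
        ext j
        simp [mul_left_comm] }

theorem QL_apply (p : ∀ i, Fin (m i) → ℝ) (L : ∀ i, Fin (m i) → (EuclideanSpace ℝ κ →L[ℝ] ℝ))
    (i : ι) (x : EuclideanSpace ℝ κ) (j : Fin (m i)) :
    QL p L i x j = (MM (p i)) ^ (p i j)⁻¹ * L i j x := rfl

theorem GG_QL {p : ∀ i, Fin (m i) → ℝ} (hm : ∀ i, 0 < m i) (hp : ∀ i j, 2 ≤ p i j)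
    (L : ∀ i, Fin (m i) → (EuclideanSpace ℝ κ →L[ℝ] ℝ)) (i : ι) (x : EuclideanSpace ℝ κ) :
    GG (p i) (QL p L i x) = ∑ j, |L i j x| ^ p i j := by
  have hM := MM_pos (hm i) (hp i)
  unfold GG
  rw [div_eq_iff hM.ne', Finset.sum_mul]
  refine Finset.sum_congr rfl fun j _ => ?_
  have hpj : p i j ≠ 0 := by linarith [hp i j]
  have h1 : 0 ≤ MM (p i) ^ (p i j)⁻¹ := Real.rpow_nonneg hM.le _
  rw [QL_apply, abs_mul, abs_of_nonneg h1, Real.mul_rpow h1 (abs_nonneg _),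
    ← Real.rpow_mul hM.le, inv_mul_cancel₀ hpj, Real.rpow_one, mul_comm]

/-- the constant -/
noncomputable def CP (q : ℕ) : ℝ := 116486307840 * ((q : ℝ) + 2) ^ 4

theorem CP_pos (q : ℕ) : 0 < CP q := by unfold CP; positivity

theorem pow_poincare {J : ℝ → ℝ} (hJ : IJ J) {p : ∀ i, Fin (m i) → ℝ} (hm : ∀ i, 0 < m i)
    (hp : ∀ i j, 2 ≤ p i j) {L : ∀ i, Fin (m i) → (EuclideanSpace ℝ κ →L[ℝ] ℝ)}
    (hL : ∀ x, (∀ i j, L i j x = 0) → x = 0) (q : ℕ) (hq : ∑ i, m i ≤ Fintype.card κ + q)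
    (s : ℝ) (hs : 0 < s)
    (hcov : ∀ e : EuclideanSpace ℝ κ, ∫ x, ⟪e, x⟫_ℝ ^ 2 * dn (QL p L) (pd J p) x ≤
      s * ‖e‖ ^ 2 * ∫ x, dn (QL p L) (pd J p) x)
    (f : EuclideanSpace ℝ κ → ℝ) (hf : ContDiff ℝ 1 f)
    (h0 : ∫ x, f x * dn (QL p L) (pd J p) x = 0) :
    ∫ x, f x ^ 2 * dn (QL p L) (pd J p) x ≤ CP q * s *
      ∫ x, ‖fderiv ℝ f x‖ ^ 2 * dn (QL p L) (pd J p) x := by
  obtain ⟨R0, hF⟩ := pd_fam hJ hm hp
  have hQ : ∀ x, (∀ i, QL p L i x = 0) → x = 0 := by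
    intro x hx
    refine hL x fun i j => ?_
    have h1 := QL_apply p L i x j
    rw [hx i] at h1
    have h2 : (0 : ℝ) = (MM (p i)) ^ (p i j)⁻¹ * L i j x := h1
    have h3 : 0 < (MM (p i)) ^ (p i j)⁻¹ := Real.rpow_pos_of_pos (MM_pos (hm i) (hp i)) _
    exact (mul_eq_zero.1 h2.symm).resolve_left h3.ne'
  have h1 := gen_poincareT hQ hF (by norm_num : (0 : ℝ) < 23) (pd_TS hJ hm hp)
    (fun i s => by unfold pd; rw [GG_even]) (1 / 160) (by norm_num)
    (fun i c => pd_low hJ (hm i) (hp i) c) q hq s hs hcov f hf h0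
  refine h1.trans (le_of_eq ?_)
  unfold CP
  ring

theorem pow_PoK {J : ℝ → ℝ} (hJ : IJ J) {p : ∀ i, Fin (m i) → ℝ} (hm : ∀ i, 0 < m i)
    (hp : ∀ i j, 2 ≤ p i j) {L : ∀ i, Fin (m i) → (EuclideanSpace ℝ κ →L[ℝ] ℝ)}
    (hL : ∀ x, (∀ i j, L i j x = 0) → x = 0) (q : ℕ) (hq : ∑ i, m i ≤ Fintype.card κ + q) :
    PoK {x | ∀ i, J (∑ j, |L i j x| ^ p i j) = 1} (CP q) := by
  obtain ⟨R0, hF⟩ := pd_fam hJ hm hp
  have hQ : ∀ x, (∀ i, QL p L i x = 0) → x = 0 := by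
    intro x hx
    refine hL x fun i j => ?_
    have h1 := QL_apply p L i x j
    rw [hx i] at h1
    have h2 : (0 : ℝ) = (MM (p i)) ^ (p i j)⁻¹ * L i j x := h1
    have h3 : 0 < (MM (p i)) ^ (p i j)⁻¹ := Real.rpow_pos_of_pos (MM_pos (hm i) (hp i)) _
    exact (mul_eq_zero.1 h2.symm).resolve_left h3.ne'
  have hJm : Measurable J := hJ.anti.measurable
  refine PoK_of hQ hF ?_ ?_ _ ?_
  · have e : {x : EuclideanSpace ℝ κ | ∀ i, J (∑ j, |L i j x| ^ p i j) = 1} =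
        ⋂ i, {x | J (∑ j, |L i j x| ^ p i j) = 1} := by
      ext x
      simp
    rw [e]
    refine MeasurableSet.iInter fun i => measurableSet_eq_fun ?_ measurable_const
    refine hJm.comp (Continuous.measurable ?_)
    exact continuous_finsetSum _ fun j _ => (cont_rpow (hp i j)).comp (L i j).continuous
  · intro x
    unfold dn pd
    simp only [GG_QL hm hp]
    by_cases hx : x ∈ {x | ∀ i, J (∑ j, |L i j x| ^ p i j) = 1}
    · rw [indicator_of_mem hx]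
      exact Finset.prod_eq_one fun i _ => hx i
    · rw [indicator_of_notMem hx]
      have : ∃ i, J (∑ j, |L i j x| ^ p i j) ≠ 1 := by
        by_contra hn
        push Not at hn
        exact hx hn
      obtain ⟨i, hi⟩ := this
      exact Finset.prod_eq_zero (Finset.mem_univ i) ((hJ.or _).resolve_right hi)
  · intro s hs hcov f hf h0
    exact pow_poincare hJ hm hp hL q hq s hs hcov f hf h0

end Pool.Agent.Y506.KS
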