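import Pool.Agent.Y506.KS.Pg

/-!
# Elementary facts about the bodies `{x | ∀ i, ∑ j, |L i j x| ^ (p i j) ≤ 1}`
-/

set_option autoImplicit false
set_option linter.unusedSectionVars false

namespace Pool.Agent.Y506.KS

open MeasureTheory Set
open scoped ENNReal InnerProductSpace

variable {k : ℕ} {κ : Type} [Fintype κ]

/-- `∑ j, |L j x| ^ p j` -/
noncomputable def PS (p : Fin k → ℝ) (L : Fin k → (EuclideanSpace ℝ κ →L[ℝ] ℝ))
    (x : EuclideanSpace ℝ κ) : ℝ := ∑ j, |L j x| ^ p j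

theorem PS_cont {p : Fin k → ℝ} (hp : ∀ j, 2 ≤ p j)
    (L : Fin k → (EuclideanSpace ℝ κ →L[ℝ] ℝ)) : Continuous (PS p L) :=
  continuous_finsetSum _ fun j _ => (cont_rpow (hp j)).comp (L j).continuous

theorem PS_zero {p : Fin k → ℝ} (hp : ∀ j, 2 ≤ p j)
    (L : Fin k → (EuclideanSpace ℝ κ →L[ℝ] ℝ)) {x : EuclideanSpace ℝ κ} (hx : ∀ j, L j x = 0) :
    PS p L x = 0 := by
  unfold PS
  refine Finset.sum_eq_zero fun j _ => ?_
  rw [hx j, abs_zero, Real.zero_rpow (by linarith [hp j])]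

theorem PS_neg (p : Fin k → ℝ) (L : Fin k → (EuclideanSpace ℝ κ →L[ℝ] ℝ))
    (x : EuclideanSpace ℝ κ) : PS p L (-x) = PS p L x := by
  unfold PS
  refine Finset.sum_congr rfl fun j _ => ?_
  rw [map_neg, abs_neg]

theorem PS_conv {p : Fin k → ℝ} (hp : ∀ j, 2 ≤ p j)
    (L : Fin k → (EuclideanSpace ℝ κ →L[ℝ] ℝ)) (x y : EuclideanSpace ℝ κ) (s t : ℝ)
    (hs : 0 ≤ s) (ht : 0 ≤ t) (hst : s + t = 1) :
    PS p L (s • x + t • y) ≤ s * PS p L x + t * PS p L y := by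
  unfold PS
  rw [Finset.mul_sum, Finset.mul_sum, ← Finset.sum_add_distrib]
  refine Finset.sum_le_sum fun j _ => ?_
  have e : L j (s • x + t • y) = s * L j x + t * L j y := by
    rw [map_add, map_smul, map_smul, smul_eq_mul, smul_eq_mul]
  rw [e]
  have h3 : |s * L j x + t * L j y| ≤ s * |L j x| + t * |L j y| := by
    refine (abs_add_le _ _).trans ?_
    rw [abs_mul, abs_mul, abs_of_nonneg hs, abs_of_nonneg ht]
  have hpj : 1 ≤ p j := by linarith [hp j]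
  refine (Real.rpow_le_rpow (abs_nonneg _) h3 (by linarith)).trans ?_
  have h4 := (convexOn_rpow hpj).2 (mem_Ici.2 (abs_nonneg (L j x)))
    (mem_Ici.2 (abs_nonneg (L j y))) hs ht hst
  simpa only [smul_eq_mul] using h4

/-- a bounded set which contains a line only if the line is trivial -/
theorem ker_triv {K : Set (EuclideanSpace ℝ κ)} (hbd : Bornology.IsBounded K)
    {x : EuclideanSpace ℝ κ} (hx : ∀ c : ℝ, c • x ∈ K) : x = 0 := by
  by_contra hne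
  obtain ⟨R, hR⟩ := hbd.exists_norm_le
  have hxn : 0 < ‖x‖ := norm_pos_iff.2 hne
  have h1 := hR _ (hx ((|R| + 1) / ‖x‖))
  rw [norm_smul, Real.norm_of_nonneg (by positivity), div_mul_cancel₀ _ hxn.ne'] at h1
  linarith [le_abs_self R]

theorem sqrt_CP (q : ℕ) : Real.sqrt (CP q) = Real.sqrt 116486307840 * ((q : ℝ) + 2) ^ 2 := by
  unfold CP
  have e : (116486307840 : ℝ) * ((q : ℝ) + 2) ^ 4 = 116486307840 * (((q : ℝ) + 2) ^ 2) ^ 2 := by
    ring
  rw [e, Real.sqrt_mul (by norm_num), Real.sqrt_sq (by positivity)]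

theorem sqrt_CP_le (q : ℕ) :
    Real.sqrt (CP q) ≤ 4 * Real.sqrt 116486307840 * (1 + (q : ℝ)) ^ 2 := by
  rw [sqrt_CP]
  have h4 : ((q : ℝ) + 2) ^ 2 ≤ 4 * (1 + q) ^ 2 := by
    have : (0 : ℝ) ≤ q := Nat.cast_nonneg q
    nlinarith
  calc Real.sqrt 116486307840 * ((q : ℝ) + 2) ^ 2
      ≤ Real.sqrt 116486307840 * (4 * (1 + q) ^ 2) := by gcongr
    _ = _ := by ring

theorem CP_le (q : ℕ) : CP q ≤ 16 * 116486307840 * (1 + (q : ℝ)) ^ 4 := by
  unfold CP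
  have h5 : (q : ℝ) + 2 ≤ 2 * (1 + q) := by
    have : (0 : ℝ) ≤ q := Nat.cast_nonneg q
    linarith
  have h4 : ((q : ℝ) + 2) ^ 4 ≤ 16 * (1 + q) ^ 4 := by
    calc ((q : ℝ) + 2) ^ 4 ≤ (2 * (1 + q)) ^ 4 := pow_le_pow_left₀ (by positivity) h5 4
      _ = _ := by ring
  calc (116486307840 : ℝ) * ((q : ℝ) + 2) ^ 4 ≤ 116486307840 * (16 * (1 + q) ^ 4) := by gcongr
    _ = _ := by ring

end Pool.Agent.Y506.KS
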