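import Pool.Agent.Y506.KS.Lwc

/-!
# Poincare inequality for `∏ φ i (P i x)` in Parseval position
-/

set_option autoImplicit false
set_option linter.unusedSectionVars false

namespace Pool.Agent.Y506.KS

open MeasureTheory Set
open scoped ENNReal InnerProductSpace
open Pool.Agent.H212R2.KLS (mu Bdd)
open Pool.Agent.H888R2.KT

variable {ι : Type} [Fintype ι] [DecidableEq ι] {m : ι → ℕ} {κ : Type} [Fintype κ]

theorem upperR {P : ∀ i, EuclideanSpace ℝ κ →L[ℝ] Xb m i} (hP : Pars P) {φ : ∀ i, Xb m i → ℝ}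
    {R : ℝ} (h : Fam φ R) (w : EuclideanSpace ℝ κ) :
    (∫ x, ⟪w, x⟫_ℝ ^ 2 * dn P φ x) / (∫ x, dn P φ x) -
      ((∫ x, ⟪w, x⟫_ℝ * dn P φ x) / (∫ x, dn P φ x)) ^ 2 ≤
      64 * ((Module.finrank ℝ (Fc P) : ℝ) + 2) ^ 2 * (R ^ 2 * ‖w‖ ^ 2) := by
  obtain ⟨c, hc⟩ := upperP hP h w
  have hL := dn_LC hP h
  have hM := dn_pos hP h
  have hi := dn_int hP h (fun _ => 1) continuous_const
  simp only [one_mul] at hi
  have hi1 := dn_int hP h (fun x => ⟪w, x⟫_ℝ) (by fun_prop)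
  have hi2 := dn_int hP h (fun x => ⟪w, x⟫_ℝ ^ 2) (by fun_prop)
  have hi3 := dn_int hP h (fun x => (⟪w, x⟫_ℝ - c) ^ 2) (by fun_prop)
  have e1 : ∫⁻ x, ENNReal.ofReal (dn P φ x) = ENNReal.ofReal (∫ x, dn P φ x) := by
    rw [ofReal_integral_eq_lintegral_ofReal hi (Filter.Eventually.of_forall hL.nonneg)]
  have e2 : ∫⁻ x, ENNReal.ofReal ((⟪w, x⟫_ℝ - c) ^ 2) * ENNReal.ofReal (dn P φ x) =
      ENNReal.ofReal (∫ x, (⟪w, x⟫_ℝ - c) ^ 2 * dn P φ x) := by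
    rw [ofReal_integral_eq_lintegral_ofReal hi3 (Filter.Eventually.of_forall fun x =>
      mul_nonneg (sq_nonneg _) (hL.nonneg x))]
    refine lintegral_congr fun x => ?_
    rw [ENNReal.ofReal_mul (sq_nonneg _)]
  rw [e1, e2, ← ENNReal.ofReal_mul (by positivity),
    ENNReal.ofReal_le_ofReal_iff (mul_nonneg (by positivity) hM.le)] at hc
  have e3 : ∫ x, (⟪w, x⟫_ℝ - c) ^ 2 * dn P φ x = (∫ x, ⟪w, x⟫_ℝ ^ 2 * dn P φ x) -
      2 * c * (∫ x, ⟪w, x⟫_ℝ * dn P φ x) + c ^ 2 * ∫ x, dn P φ x := by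
    have i4 : Integrable (fun x => ⟪w, x⟫_ℝ ^ 2 * dn P φ x - 2 * c * (⟪w, x⟫_ℝ * dn P φ x)) :=
      hi2.sub (hi1.const_mul _)
    rw [← integral_const_mul, ← integral_const_mul, ← integral_sub hi2 (hi1.const_mul _),
      ← integral_add i4 (hi.const_mul _)]
    refine integral_congr_ae (Filter.Eventually.of_forall fun x => ?_)
    simp only
    ring
  rw [e3] at hc
  generalize (∫ x, ⟪w, x⟫_ℝ ^ 2 * dn P φ x) = A at *
  generalize (∫ x, ⟪w, x⟫_ℝ * dn P φ x) = B at *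
  generalize (∫ x, dn P φ x) = Z at *
  have h1 : A / Z - (B / Z) ^ 2 ≤ (A - 2 * c * B + c ^ 2 * Z) / Z := by
    have e : (A - 2 * c * B + c ^ 2 * Z) / Z = A / Z - 2 * c * (B / Z) + c ^ 2 := by
      field_simp
    rw [e]
    nlinarith [sq_nonneg (B / Z - c)]
  refine h1.trans ?_
  rw [div_le_iff₀ hM]
  exact hc

theorem pars_PC {P : ∀ i, EuclideanSpace ℝ κ →L[ℝ] Xb m i} (hP : Pars P) {φ : ∀ i, Xb m i → ℝ}
    {R : ℝ} (hR : 0 < R) (h : Fam φ R) :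
    PC (dn P φ) (256 * ((Module.finrank ℝ (Fc P) : ℝ) + 2) ^ 2 * R ^ 2) := by
  obtain ⟨t, ht⟩ : ∃ t : ℝ, t = 256 * ((Module.finrank ℝ (Fc P) : ℝ) + 2) ^ 2 * R ^ 2 := ⟨_, rfl⟩
  have ht0 : 0 < t := by rw [ht]; positivity
  rw [← ht]
  intro y w
  have hL := dn_LC hP h
  have h' : Fam (md φ (fun _ => 0) (fun i => P i y) (1 / (2 * t))) R := h.md _ _ _ (by positivity)
  have e1 : ∀ x, dn P (md φ (fun _ => 0) (fun i => P i y) (1 / (2 * t))) x =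
      Real.exp (-(‖x - y‖ ^ 2 / (2 * t))) * dn P φ x := by
    intro x
    rw [dn_md]
    simp only [inner_zero_left, Finset.sum_const_zero, zero_sub]
    have : ∑ i, ‖P i x - P i y‖ ^ 2 = ‖x - y‖ ^ 2 := by
      rw [← hP (x - y)]
      exact Finset.sum_congr rfl fun i _ => by rw [map_sub]
    rw [this, mul_comm (Real.exp _)]
    congr 3
    ring
  have h1 := upperR hP h' w
  simp only [e1] at h1
  have e2 : ∀ u : EuclideanSpace ℝ κ → ℝ, pst t (dn P φ) u y =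
      (∫ x, u x * (Real.exp (-(‖x - y‖ ^ 2 / (2 * t))) * dn P φ x)) /
        ∫ x, Real.exp (-(‖x - y‖ ^ 2 / (2 * t))) * dn P φ x := by
    intro u
    unfold pst zz
    rw [int_mu' hL.nonneg hL.meas, int_mu' hL.nonneg hL.meas]
    simp only [mul_assoc]
  rw [e2, e2]
  have e3 : ∀ x : EuclideanSpace ℝ κ, ⟪x, w⟫_ℝ = ⟪w, x⟫_ℝ := fun x => real_inner_comm _ _
  simp only [e3]
  refine h1.trans (le_of_eq ?_)
  rw [ht]
  ring

theorem pars_poincare {P : ∀ i, EuclideanSpace ℝ κ →L[ℝ] Xb m i} (hP : Pars P)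
    {φ : ∀ i, Xb m i → ℝ} {R : ℝ} (hR : 0 < R) (h : Fam φ R) (f : EuclideanSpace ℝ κ → ℝ)
    (hf : ContDiff ℝ 1 f) (h0 : ∫ x, f x ∂(mu (dn P φ)) = 0) :
    ∫ x, f x ^ 2 ∂(mu (dn P φ)) ≤ 512 * ((Module.finrank ℝ (Fc P) : ℝ) + 2) ^ 2 * R ^ 2 *
      ∫ x, ‖fderiv ℝ f x‖ ^ 2 ∂(mu (dn P φ)) := by
  have h1 := crit (dn_LC hP h) (256 * ((Module.finrank ℝ (Fc P) : ℝ) + 2) ^ 2 * R ^ 2)
    (by positivity) (pars_PC hP hR h) f hf h0
  refine h1.trans (le_of_eq ?_)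
  ring

end Pool.Agent.Y506.KS
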