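import Pool.Agent.Y506.KS.Sw

/-!
# Radial factors: second moments of `δ ↦ f (z + δ) f (z - δ)`
-/

set_option autoImplicit false

namespace Pool.Agent.Y506.KS

open MeasureTheory Set
open scoped ENNReal InnerProductSpace

variable {k : ℕ}

theorem lens (g : EuclideanSpace ℝ (Fin (k + 1)) → ℝ) (T : ℝ) (h0 : ∀ x, 0 ≤ g x)
    (hs : ∀ x, g x ≠ 0 → ‖x‖ ^ 2 ≤ T)
    (hi : ∀ h : EuclideanSpace ℝ (Fin (k + 1)) → ℝ, Continuous h → Integrable fun x => h x * g x)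
    (hC : ∀ i j, j ≠ 0 → ∀ x : EuclideanSpace ℝ (Fin (k + 1)), |x i| ≤ |x j| →
      g (sw i j x) ≤ g x) (hD : ∀ i, i ≠ 0 → ∀ x, g (fl i x) = g x)
    (w : EuclideanSpace ℝ (Fin (k + 1))) :
    ∫ x, ⟪w, x⟫_ℝ ^ 2 * g x ≤ 2 * T / ((k : ℝ) + 1) * ‖w‖ ^ 2 * ∫ x, g x := by
  have i2 : ∀ i, Integrable fun x : EuclideanSpace ℝ (Fin (k + 1)) => x i ^ 2 * g x := fun i =>
    hi (fun x => x i ^ 2) (by fun_prop)
  have i1 : Integrable g := by
    have := hi (fun _ => 1) continuous_const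
    simpa using this
  rw [Q_exp g 0 (fun i j => hi (fun x => x i * x j) (by fun_prop)) hD w]
  obtain ⟨q, hq⟩ : ∃ q : Fin (k + 1) → ℝ, q = fun i => ∫ x, x i ^ 2 * g x := ⟨_, rfl⟩
  have hq' : ∀ i, ∫ x, x i ^ 2 * g x = q i := fun i => by rw [hq]
  have hqle : ∀ i j, j ≠ 0 → q i ≤ q j := fun i j hj => by
    rw [hq]
    exact Q_le g i j i2 (hC i j hj)
  have hq0 : ∀ i, 0 ≤ q i := fun i => by
    rw [hq]
    exact integral_nonneg fun x => mul_nonneg (sq_nonneg _) (h0 x)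
  have hS : ∑ i, q i ≤ T * ∫ x, g x := by
    simp only [hq]
    rw [← integral_finsetSum _ fun i _ => i2 i, ← integral_const_mul]
    refine integral_mono (integrable_finsetSum _ fun i _ => i2 i) (i1.const_mul _) fun x => ?_
    simp only
    rw [← Finset.sum_mul, ← EuclideanSpace.real_norm_sq_eq]
    by_cases hx : g x = 0
    · rw [hx, mul_zero, mul_zero]
    · exact mul_le_mul_of_nonneg_right (hs x hx) (h0 x)
  have hG : 0 ≤ ∫ x, g x := integral_nonneg h0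
  have hmain : ∀ i, ((k : ℝ) + 1) * q i ≤ 2 * (T * ∫ x, g x) := by
    intro i
    rcases Nat.eq_zero_or_pos k with hk | hk
    · subst hk
      have h1 : q i ≤ ∑ i, q i := Finset.single_le_sum (f := q) (fun j _ => hq0 j)
        (Finset.mem_univ i)
      have h2 := hq0 i
      simp only [Nat.cast_zero, zero_add, one_mul]
      linarith
    · have h1 : (k : ℝ) * q i ≤ ∑ i, q i := by
        rw [Fin.sum_univ_succ]
        have h3 : ∑ _j : Fin k, q i ≤ ∑ j : Fin k, q j.succ :=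
          Finset.sum_le_sum fun j _ => hqle i j.succ (Fin.succ_ne_zero j)
        rw [Finset.sum_const, Finset.card_univ, Fintype.card_fin, nsmul_eq_mul] at h3
        linarith [hq0 0]
      have h4 : (1 : ℝ) ≤ k := by exact_mod_cast hk
      have h5 := hq0 i
      nlinarith
  simp only [hq']
  rw [EuclideanSpace.real_norm_sq_eq, Finset.mul_sum, Finset.sum_mul]
  refine Finset.sum_le_sum fun i _ => ?_
  have h1 := hmain i
  have hk : (0 : ℝ) < (k : ℝ) + 1 := by positivity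
  have h2 : q i ≤ 2 * T / ((k : ℝ) + 1) * ∫ x, g x := by
    rw [div_mul_eq_mul_div, le_div_iff₀ hk]
    linarith
  calc w i ^ 2 * q i ≤ w i ^ 2 * (2 * T / ((k : ℝ) + 1) * ∫ x, g x) :=
        mul_le_mul_of_nonneg_left h2 (sq_nonneg _)
    _ = _ := by ring

/-- bounded functions on `ℝ` vanishing beyond `T`, decreasing along symmetric pairs -/
structure RF (F : ℝ → ℝ) (T : ℝ) : Prop where
  nonneg : ∀ t, 0 ≤ F t
  meas : Measurable F
  bdd : ∃ B : ℝ, 0 < B ∧ ∀ t, F t ≤ B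
  supp : ∀ t, T < t → F t = 0
  dec : ∀ A t t', |t| ≤ |t'| → F (A + t') * F (A - t') ≤ F (A + t) * F (A - t)

/-- `δ ↦ f (z + δ) f (z - δ)` for `f x = F (|x| ^ 2) exp (- b |x| ^ 2)`, up to a factor -/
noncomputable def gz (F : ℝ → ℝ) (b : ℝ) (z x : EuclideanSpace ℝ (Fin k)) : ℝ :=
  F (‖z‖ ^ 2 + ‖x‖ ^ 2 + 2 * ⟪z, x⟫_ℝ) * F (‖z‖ ^ 2 + ‖x‖ ^ 2 - 2 * ⟪z, x⟫_ℝ) *
    Real.exp (-(2 * b * ‖x‖ ^ 2))

theorem gz_nonneg {F : ℝ → ℝ} {T : ℝ} (h : RF F T) (b : ℝ) (z x : EuclideanSpace ℝ (Fin k)) :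
    0 ≤ gz F b z x :=
  mul_nonneg (mul_nonneg (h.nonneg _) (h.nonneg _)) (Real.exp_pos _).le

theorem gz_meas {F : ℝ → ℝ} {T : ℝ} (h : RF F T) (b : ℝ) (z : EuclideanSpace ℝ (Fin k)) :
    Measurable (gz F b z) := by
  unfold gz
  have h1 : Measurable fun x : EuclideanSpace ℝ (Fin k) => ‖z‖ ^ 2 + ‖x‖ ^ 2 + 2 * ⟪z, x⟫_ℝ := by
    have : Continuous fun x : EuclideanSpace ℝ (Fin k) =>
      ‖z‖ ^ 2 + ‖x‖ ^ 2 + 2 * ⟪z, x⟫_ℝ := by fun_prop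
    exact this.measurable
  have h2 : Measurable fun x : EuclideanSpace ℝ (Fin k) => ‖z‖ ^ 2 + ‖x‖ ^ 2 - 2 * ⟪z, x⟫_ℝ := by
    have : Continuous fun x : EuclideanSpace ℝ (Fin k) =>
      ‖z‖ ^ 2 + ‖x‖ ^ 2 - 2 * ⟪z, x⟫_ℝ := by fun_prop
    exact this.measurable
  have h3 : Measurable fun x : EuclideanSpace ℝ (Fin k) => Real.exp (-(2 * b * ‖x‖ ^ 2)) := by
    have : Continuous fun x : EuclideanSpace ℝ (Fin k) =>
      Real.exp (-(2 * b * ‖x‖ ^ 2)) := by fun_prop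
    exact this.measurable
  exact ((h.meas.comp h1).mul (h.meas.comp h2)).mul h3

theorem gz_supp {F : ℝ → ℝ} {T : ℝ} (h : RF F T) (b : ℝ) (z x : EuclideanSpace ℝ (Fin k))
    (hx : gz F b z x ≠ 0) : ‖x‖ ^ 2 ≤ T := by
  unfold gz at hx
  have h1 : F (‖z‖ ^ 2 + ‖x‖ ^ 2 + 2 * ⟪z, x⟫_ℝ) ≠ 0 := fun hn => hx (by rw [hn]; ring)
  have h2 : F (‖z‖ ^ 2 + ‖x‖ ^ 2 - 2 * ⟪z, x⟫_ℝ) ≠ 0 := fun hn => hx (by rw [hn]; ring)
  have h3 : ‖z‖ ^ 2 + ‖x‖ ^ 2 + 2 * ⟪z, x⟫_ℝ ≤ T := by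
    by_contra hn
    exact h1 (h.supp _ (not_le.1 hn))
  have h4 : ‖z‖ ^ 2 + ‖x‖ ^ 2 - 2 * ⟪z, x⟫_ℝ ≤ T := by
    by_contra hn
    exact h2 (h.supp _ (not_le.1 hn))
  nlinarith [sq_nonneg ‖z‖]

theorem gz_int {F : ℝ → ℝ} {T : ℝ} (h : RF F T) (b : ℝ) (z : EuclideanSpace ℝ (Fin k))
    (u : EuclideanSpace ℝ (Fin k) → ℝ) (hu : Continuous u) :
    Integrable fun x => u x * gz F b z x := by
  obtain ⟨B, hB0, hB⟩ := h.bdd
  obtain ⟨C, hC⟩ := (isCompact_closedBall (0 : EuclideanSpace ℝ (Fin k))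
    (Real.sqrt T)).exists_bound_of_continuousOn
    (f := fun x => u x * Real.exp (-(2 * b * ‖x‖ ^ 2))) (by fun_prop)
  have hg : ∀ x, ‖x‖ ≤ Real.sqrt T → |u x * gz F b z x| ≤ C * (B * B) := by
    intro x hx
    have h1 := hC x (by simpa using hx)
    rw [Real.norm_eq_abs] at h1
    unfold gz
    have e : u x * (F (‖z‖ ^ 2 + ‖x‖ ^ 2 + 2 * ⟪z, x⟫_ℝ) *
        F (‖z‖ ^ 2 + ‖x‖ ^ 2 - 2 * ⟪z, x⟫_ℝ) * Real.exp (-(2 * b * ‖x‖ ^ 2))) =
        (u x * Real.exp (-(2 * b * ‖x‖ ^ 2))) * (F (‖z‖ ^ 2 + ‖x‖ ^ 2 + 2 * ⟪z, x⟫_ℝ) *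
        F (‖z‖ ^ 2 + ‖x‖ ^ 2 - 2 * ⟪z, x⟫_ℝ)) := by ring
    rw [e, abs_mul, abs_of_nonneg (mul_nonneg (h.nonneg _) (h.nonneg _))]
    exact mul_le_mul h1 (mul_le_mul (hB _) (hB _) (h.nonneg _) hB0.le)
      (mul_nonneg (h.nonneg _) (h.nonneg _)) ((abs_nonneg _).trans h1)
  have h1 : IntegrableOn (fun x => u x * gz F b z x)
      (Metric.closedBall (0 : EuclideanSpace ℝ (Fin k)) (Real.sqrt T)) := by
    refine Measure.integrableOn_of_bounded (M := C * (B * B)) ?_ ?_ ?_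
    · exact (isCompact_closedBall _ _).measure_lt_top.ne
    · exact (hu.measurable.mul (gz_meas h b z)).aestronglyMeasurable
    · exact ae_restrict_of_forall_mem measurableSet_closedBall fun x hx => by
        rw [Real.norm_eq_abs]
        exact hg x (by simpa using hx)
  refine (integrableOn_iff_integrable_of_support_subset ?_).1 h1
  intro x hx
  rw [Metric.mem_closedBall, dist_zero_right]
  have h2 : gz F b z x ≠ 0 := fun hn => hx (by simp only [hn, mul_zero])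
  exact Real.le_sqrt_of_sq_le (gz_supp h b z x h2)

theorem gz_iso {F : ℝ → ℝ} (b : ℝ) (B : EuclideanSpace ℝ (Fin k) ≃ₗᵢ[ℝ] EuclideanSpace ℝ (Fin k))
    (z x : EuclideanSpace ℝ (Fin k)) : gz F b (B z) (B x) = gz F b z x := by
  unfold gz
  rw [B.norm_map, B.norm_map, B.inner_map_map]

theorem gz_mom0 {F : ℝ → ℝ} {T : ℝ} (h : RF F T) (b : ℝ) (z : EuclideanSpace ℝ (Fin (k + 1)))
    (hz : ∀ l, l ≠ 0 → z l = 0) (w : EuclideanSpace ℝ (Fin (k + 1))) :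
    ∫ x, ⟪w, x⟫_ℝ ^ 2 * gz F b z x ≤ 2 * T / ((k : ℝ) + 1) * ‖w‖ ^ 2 * ∫ x, gz F b z x := by
  have hzi : ∀ x : EuclideanSpace ℝ (Fin (k + 1)), ⟪z, x⟫_ℝ = z 0 * x 0 := by
    intro x
    rw [PiLp.inner_apply, Finset.sum_eq_single 0]
    · simp [mul_comm]
    · intro l _ hl
      rw [hz l hl]
      simp
    · intro hn
      exact absurd (Finset.mem_univ _) hn
  refine lens (gz F b z) T (gz_nonneg h b z) (gz_supp h b z) (fun u hu => gz_int h b z u hu)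
    ?_ ?_ w
  · intro i j hj x hx
    unfold gz
    rw [(sw i j).norm_map, hzi, hzi, sw_apply]
    refine mul_le_mul_of_nonneg_right ?_ (Real.exp_pos _).le
    by_cases hi : i = 0
    · subst hi
      rw [Equiv.swap_apply_left]
      refine h.dec _ _ _ ?_
      rw [abs_mul, abs_mul, abs_mul, abs_mul]
      exact mul_le_mul_of_nonneg_left (mul_le_mul_of_nonneg_left hx (abs_nonneg _)) (abs_nonneg _)
    · rw [Equiv.swap_apply_of_ne_of_ne (Ne.symm hi) (Ne.symm hj)]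
  · intro i hi x
    unfold gz
    rw [(fl i).norm_map, hzi, hzi, fl_apply, if_neg (Ne.symm hi)]

theorem gz_mom {F : ℝ → ℝ} {T : ℝ} (h : RF F T) (b : ℝ) (z w : EuclideanSpace ℝ (Fin (k + 1))) :
    ∫ x, ⟪w, x⟫_ℝ ^ 2 * gz F b z x ≤ 2 * T / ((k : ℝ) + 1) * ‖w‖ ^ 2 * ∫ x, gz F b z x := by
  obtain ⟨e, he⟩ : ∃ e : EuclideanSpace ℝ (Fin (k + 1)), e = ‖z‖ • EuclideanSpace.single 0 1 :=
    ⟨_, rfl⟩
  have hne : ‖z‖ = ‖e‖ := by
    rw [he, norm_smul, norm_norm]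
    simp
  obtain ⟨B, hB⟩ : ∃ B : EuclideanSpace ℝ (Fin (k + 1)) ≃ₗᵢ[ℝ] EuclideanSpace ℝ (Fin (k + 1)),
    B z = e := ⟨_, Submodule.reflection_sub hne⟩
  have h1 := gz_mom0 h b e (fun l hl => by
    rw [he]
    simp [hl]) (B w)
  rw [← int_iso B fun x => ⟪B w, x⟫_ℝ ^ 2 * gz F b e x, ← int_iso B fun x => gz F b e x] at h1
  rw [← hB] at h1
  simp only [gz_iso, B.inner_map_map, B.norm_map] at h1
  exact h1

end Pool.Agent.Y506.KS
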