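import Pool.Agent.W695.KH.Final
import Pool.Agent.W695.KH.Wrap2

/-!
# From the Poincare inequality on a convex body to the Cheeger inequality
-/

set_option autoImplicit false
set_option linter.unusedSectionVars false

namespace Pool.Agent.Y506.KS

open MeasureTheory Set Filter Topology
open scoped ENNReal InnerProductSpace Pointwise
open Pool.Agent.W695.KH
open Pool.Agent.H212R2.KLS (mu)

variable {κ : Type} [Fintype κ]

/-- the normalising constant -/
noncomputable def ZA (D : Set (Eu κ)) (A : ℝ) : ℝ :=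
  ∫ y : Eu κ, Real.exp (-(A / 2 * Metric.infDist y D ^ 2))

theorem gi_int (D : Set (Eu κ)) (hD : IsCompact D) (hne : D.Nonempty) (A : ℝ) (hA : 0 < A) :
    Integrable fun y : Eu κ => Real.exp (-(A / 2 * Metric.infDist y D ^ 2)) := by
  have h1 := int_of D hD hne A hA (fun _ => 1) continuous_const 1 (fun x => by
    rw [abs_one, one_mul]; nlinarith [sq_nonneg ‖x‖])
  have h2 : ∀ x, (1 : ℝ) * Pool.Agent.W695.KH.rh D A x = Real.exp (-Real.log (ZA D A)) *
      Real.exp (-(A / 2 * Metric.infDist x D ^ 2)) := by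
    intro x
    unfold Pool.Agent.W695.KH.rh Uu
    rw [one_mul, ← Real.exp_add]
    congr 1
    unfold ZA
    ring
  simp only [h2] at h1
  have h3 := h1.const_mul (Real.exp (Real.log (ZA D A)))
  refine h3.congr (Eventually.of_forall fun x => ?_)
  simp only
  rw [← mul_assoc, ← Real.exp_add, add_neg_cancel, Real.exp_zero, one_mul]

theorem ZA_tendsto (D : Set (Eu κ)) (hD : IsCompact D) (hne : D.Nonempty) :
    Tendsto (fun A : ℝ => ZA D A) atTop (𝓝 (volume D).toReal) := by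
  have hmS : MeasurableSet D := hD.isClosed.measurableSet
  have h0 : (volume D).toReal = ∫ x : Eu κ, D.indicator (fun _ => (1 : ℝ)) x := by
    rw [integral_indicator hmS, setIntegral_const, smul_eq_mul, mul_one]
    rfl
  rw [h0]
  have hc : ∀ A : ℝ, Continuous fun y : Eu κ => Real.exp (-(A / 2 * Metric.infDist y D ^ 2)) :=
    fun A => by
      have := Metric.continuous_infDist_pt D
      fun_prop
  refine tendsto_integral_filter_of_dominated_convergence
    (fun y : Eu κ => Real.exp (-(1 / 2 * Metric.infDist y D ^ 2)))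
    (Eventually.of_forall fun A => (hc A).aestronglyMeasurable) ?_ (gi_int D hD hne 1 one_pos) ?_
  · filter_upwards [eventually_ge_atTop (1 : ℝ)] with A hA
    refine Eventually.of_forall fun y => ?_
    rw [Real.norm_of_nonneg (Real.exp_pos _).le]
    refine Real.exp_le_exp.2 ?_
    nlinarith [sq_nonneg (Metric.infDist y D)]
  · refine Eventually.of_forall fun y => ?_
    by_cases hy : y ∈ D
    · rw [indicator_of_mem hy, Metric.infDist_zero_of_mem hy]
      simp
    · rw [indicator_of_notMem hy]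
      have hd : 0 < Metric.infDist y D := (hD.isClosed.notMem_iff_infDist_pos hne).1 hy
      have h1 : Tendsto (fun A : ℝ => -(A / 2 * Metric.infDist y D ^ 2)) atTop atBot := by
        refine tendsto_neg_atTop_atBot.comp ?_
        exact (tendsto_id.atTop_div_const two_pos).atTop_mul_const (pow_pos hd 2)
      exact Real.tendsto_exp_atBot.comp h1

theorem wpo (D : Set (Eu κ)) (hD : IsCompact D) (hc : Convex ℝ D) (hvol : 0 < volume D) (K : ℝ)
    (hK : 0 < K) (hP : ∀ v : Eu κ → ℝ, ContDiff ℝ 1 v →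
      VV D v ≤ K * EV D fun x => ‖fderiv ℝ v x‖ ^ 2) (δ : ℝ) (hδ : 0 < δ) :
    ∀ᶠ A in atTop, WPo (Uu D A) δ (δ / (4 * K)) := by
  have hne : D.Nonempty := nonempty_of_measure_ne_zero hvol.ne'
  have hmS : MeasurableSet D := hD.isClosed.measurableSet
  have hv0 : 0 < (volume D).toReal := ENNReal.toReal_pos hvol.ne' hD.measure_lt_top.ne
  obtain ⟨v0, hv0e⟩ : ∃ v0 : ℝ, v0 = (volume D).toReal := ⟨_, rfl⟩
  rw [← hv0e] at hv0
  have hZ := ZA_tendsto D hD hne
  rw [← hv0e] at hZ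
  have hθ : Tendsto (fun A : ℝ => v0 / ZA D A) atTop (𝓝 1) := by
    have := (tendsto_const_nhds (x := v0)).div hZ hv0.ne'
    rwa [div_self hv0.ne'] at this
  have h1 : ∀ᶠ A in atTop, max (1 / 2) (1 - δ / 10) < v0 / ZA D A :=
    hθ.eventually (lt_mem_nhds (by
      rw [max_lt_iff]; constructor <;> linarith))
  filter_upwards [h1, eventually_gt_atTop (0 : ℝ), hZ.eventually (lt_mem_nhds hv0)] with A hA1 hA hZp
  obtain ⟨θ, hθe⟩ : ∃ θ : ℝ, θ = v0 / ZA D A := ⟨_, rfl⟩
  rw [← hθe, max_lt_iff] at hA1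
  intro v L hv hb hL hvar
  obtain ⟨-, hone, -⟩ := proj κ D hD hc hne A hA
  have hexp : ∀ x, Real.exp (-Uu D A x) = (ZA D A)⁻¹ *
      Real.exp (-(A / 2 * Metric.infDist x D ^ 2)) := by
    intro x
    have e1 : -Uu D A x = -Real.log (ZA D A) + -(A / 2 * Metric.infDist x D ^ 2) := by
      unfold Uu ZA
      ring
    rw [e1, Real.exp_add, Real.exp_neg, Real.exp_log hZp]
  have hexpD : ∀ x ∈ D, Real.exp (-Uu D A x) = (ZA D A)⁻¹ := by
    intro x hx
    rw [hexp, Metric.infDist_zero_of_mem hx]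
    simp
  have hint : ∀ (g : Eu κ → ℝ) (B : ℝ), Continuous g → (∀ x, |g x| ≤ B) →
      Integrable fun x => g x * Real.exp (-Uu D A x) := by
    intro g B hg hB
    refine int_of D hD hne A hA g hg B fun x => ?_
    have h2 : 0 ≤ B := (abs_nonneg _).trans (hB x)
    refine (hB x).trans ?_
    nlinarith [sq_nonneg ‖x‖]
  -- splitting
  have hsplit : ∀ (g : Eu κ → ℝ) (B : ℝ), Continuous g → (∀ x, |g x| ≤ B) →
      EU (Uu D A) g = θ * EV D g + ∫ x in Dᶜ, g x * Real.exp (-Uu D A x) := by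
    intro g B hg hB
    unfold EU
    rw [← integral_add_compl hmS (hint g B hg hB)]
    congr 1
    have h2 : ∫ x in D, g x * Real.exp (-Uu D A x) = ∫ x in D, g x * (ZA D A)⁻¹ :=
      setIntegral_congr_fun hmS fun x hx => by simp only [hexpD x hx]
    rw [h2, integral_mul_const, hθe]
    unfold EV
    rw [← hv0e]
    field_simp
  have hrest : ∫ x in Dᶜ, Real.exp (-Uu D A x) = 1 - θ := by
    have h2 := hsplit (fun _ => 1) 1 continuous_const (fun x => by rw [abs_one])
    simp only [one_mul] at h2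
    rw [hone] at h2
    have h3 : EV D (fun _ => (1 : ℝ)) = 1 := by
      unfold EV
      rw [setIntegral_const, smul_eq_mul, mul_one, ← hv0e]
      have : volume.real D = v0 := by rw [hv0e]; rfl
      rw [this, div_self hv0.ne']
    rw [h3] at h2
    linarith
  have hbr : ∀ (g : Eu κ → ℝ), Continuous g → (∀ x, |g x| ≤ 1) →
      |∫ x in Dᶜ, g x * Real.exp (-Uu D A x)| ≤ 1 - θ := by
    intro g hg hB
    rw [← hrest]
    have i1 : IntegrableOn (fun x => Real.exp (-Uu D A x)) Dᶜ := by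
      have := (hint (fun _ => 1) 1 continuous_const (fun x => by rw [abs_one])).integrableOn
        (s := Dᶜ)
      simpa using this
    rw [← Real.norm_eq_abs]
    refine norm_integral_le_of_norm_le (f := fun x => g x * Real.exp (-Uu D A x)) i1
      (Eventually.of_forall fun x => ?_)
    rw [norm_mul, Real.norm_of_nonneg (Real.exp_pos _).le]
    have := mul_le_mul_of_nonneg_right (hB x) (Real.exp_pos (-Uu D A x)).le
    rwa [one_mul] at this
  have hv1 := hv.continuous
  have e1 := hsplit v 1 hv1 hb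
  have hb2 : ∀ x, |v x ^ 2| ≤ 1 := fun x => by
    rw [abs_pow]
    exact pow_le_one₀ (abs_nonneg _) (hb x)
  have e2 := hsplit (fun x => v x ^ 2) 1 (hv1.pow 2) hb2
  have r1 := hbr v hv1 hb
  have r2 := hbr (fun x => v x ^ 2) (hv1.pow 2) hb2
  -- means over `D`
  have hEVb : ∀ g : Eu κ → ℝ, Continuous g → (∀ x, |g x| ≤ 1) → |EV D g| ≤ 1 := by
    intro g hg hB
    unfold EV
    rw [abs_div, ← hv0e, abs_of_pos hv0, div_le_one hv0]
    have h2 := norm_setIntegral_le_of_norm_le_const (f := g) (s := D) (μ := volume)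
      hD.measure_lt_top (C := 1) (fun x _ => hB x)
    rw [one_mul] at h2
    rw [hv0e]
    exact h2
  have m1 := hEVb v hv1 hb
  have m2 := hEVb (fun x => v x ^ 2) (hv1.pow 2) hb2
  have hVV : EU (Uu D A) (fun x => v x ^ 2) - EU (Uu D A) v ^ 2 ≤ VV D v + 5 * (1 - θ) := by
    unfold VV
    rw [e1, e2]
    obtain ⟨a, ha⟩ : ∃ a : ℝ, a = EV D v := ⟨_, rfl⟩
    obtain ⟨b, hb'⟩ : ∃ b : ℝ, b = EV D (fun x => v x ^ 2) := ⟨_, rfl⟩
    obtain ⟨c, hc'⟩ : ∃ c : ℝ, c = ∫ x in Dᶜ, v x * Real.exp (-Uu D A x) := ⟨_, rfl⟩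
    obtain ⟨d, hd'⟩ : ∃ d : ℝ, d = ∫ x in Dᶜ, v x ^ 2 * Real.exp (-Uu D A x) := ⟨_, rfl⟩
    rw [← ha, ← hb', ← hc', ← hd']
    rw [← ha] at m1
    rw [← hb'] at m2
    rw [← hc'] at r1
    rw [← hd'] at r2
    have hb0 : 0 ≤ b := by
      rw [hb']
      unfold EV
      exact div_nonneg (integral_nonneg fun x => sq_nonneg _) ENNReal.toReal_nonneg
    have hε : 0 ≤ 1 - θ := (abs_nonneg _).trans r1
    rw [abs_le] at m1 m2 r1 r2
    obtain ⟨ε, hε'⟩ : ∃ ε : ℝ, ε = 1 - θ := ⟨_, rfl⟩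
    have hθ' : θ = 1 - ε := by rw [hε']; ring
    rw [← hε'] at hε r1 r2
    rw [hθ']
    have hε1 : ε ≤ 1 := by
      rw [hε']
      linarith [hA1.1]
    have k1 : (1 - ε) * b + d ≤ b + ε := by nlinarith
    -- |(1-ε)a + c - a| ≤ 2ε, both in [-1,1] up to ...
    have k2 : a ^ 2 - 4 * ε ≤ ((1 - ε) * a + c) ^ 2 := by
      have k3 : |c - ε * a| ≤ 2 * ε := by
        rw [abs_le]; constructor <;> nlinarith
      have k4 : ((1 - ε) * a + c) ^ 2 = a ^ 2 + 2 * a * (c - ε * a) + (c - ε * a) ^ 2 := by ring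
      have k5 : -(2 * ε) ≤ a * (c - ε * a) := by
        have := abs_mul a (c - ε * a)
        have k6 : |a * (c - ε * a)| ≤ 1 * (2 * ε) := by
          rw [this]
          exact mul_le_mul (abs_le.2 m1) k3 (abs_nonneg _) zero_le_one
        have := neg_abs_le (a * (c - ε * a))
        linarith
      rw [k4]
      nlinarith [sq_nonneg (c - ε * a)]
    nlinarith
  have hL0 : 0 ≤ L := (norm_nonneg _).trans (hL 0)
  have hgb : ∀ x, |‖fderiv ℝ v x‖ ^ 2| ≤ L ^ 2 := fun x => by
    rw [abs_of_nonneg (sq_nonneg _)]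
    exact pow_le_pow_left₀ (norm_nonneg _) (hL x) 2
  have e3 := hsplit (fun x => ‖fderiv ℝ v x‖ ^ 2) (L ^ 2)
    ((hv.continuous_fderiv (by norm_num)).norm.pow 2) hgb
  have hr3 : 0 ≤ ∫ x in Dᶜ, ‖fderiv ℝ v x‖ ^ 2 * Real.exp (-Uu D A x) :=
    integral_nonneg fun x => mul_nonneg (sq_nonneg _) (Real.exp_pos _).le
  have h5 : δ / 2 ≤ VV D v := by linarith [hA1.2]
  have h6 := hP v hv
  have h7 : δ / 2 / K ≤ EV D fun x => ‖fderiv ℝ v x‖ ^ 2 := by
    rw [div_le_iff₀ hK]
    linarith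
  rw [e3]
  have h8 : 0 ≤ δ / 2 / K := by positivity
  have h9 : δ / (4 * K) = 1 / 2 * (δ / 2 / K) := by field_simp; ring
  rw [h9]
  have h10 : 1 / 2 * (δ / 2 / K) ≤ θ * EV D fun x => ‖fderiv ℝ v x‖ ^ 2 :=
    mul_le_mul hA1.1.le h7 h8 (by linarith [hA1.1])
  linarith

end Pool.Agent.Y506.KS
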